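import Pool.Agent.MP_a2d820_lc.h17.Spec

/-!
Project IP: valid tables put every language with polynomially long questions into `AM[r]`.
-/

set_option autoImplicit false

namespace Pool.Agent.MP_a2d820_lc.h17

open Pool.Agent.MP_a2d820_lc.h69 Pool.Agent.PolyT Pool.Agent.H82 N487b59b3 Function Finset

theorem ar_const (b : Bool) (m h : ℕ) (t : List Bool) :
    gv (fun _ => b) m h t = if b = true then 1 else 0 := by
  induction h generalizing t with
  | zero => rfl
  | succ h ih =>
    simp only [gv, ih, sum_const, card_univ, Fintype.card_fun, Fintype.card_bool,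
      Fintype.card_fin, nsmul_eq_mul, ciSup_const]
    push_cast
    field_simp

theorem ar_okr (m h : ℕ) : Okr (fun b _ => b) m h :=
  ⟨by simp [ar_const], by simp [ar_const]⟩

theorem ar_shift (V : Lang) (m h : ℕ) (c t : List Bool) :
    gv V m h (c ++ t) = gv (fun s => V (c ++ s)) m h t := by
  induction h generalizing t with
  | zero => rfl
  | succ h ih => simp only [gv, List.append_assoc c, ih]

theorem ar_run {M : OM} {O O' : Lang} {x : List Bool} {s t : ℕ} {b : Bool}
    (h : M.Halts O x s t b)
    (hO : ∀ i < t, O (M.qry (M.run O x i)) = O' (M.qry (M.run O x i))) : M.Halts O' x s t b := by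
  have key : ∀ r ≤ t, M.run O' x r = M.run O x r := by
    intro r hr
    induction r with
    | zero => rfl
    | succ r ih => rw [OM.run, OM.run, ih (by omega), hO r hr]
  exact ⟨(key t le_rfl).trans h.1, fun r hr => by rw [key r hr.le]; exact h.2 r hr⟩

theorem ar_dec (A : Lang) : RelPSPACE A ⊆ RelDec A := by
  rintro L ⟨M, p, hL⟩
  obtain ⟨q, hq⟩ := M.exists_qb
  refine ⟨M, q.comp p, fun x => ?_⟩
  obtain ⟨t, ht⟩ := hL x
  exact ⟨_, t, ht, fun i hi => by
    rw [Polynomial.eval_comp]
    exact hq _ _ (ht.2 i hi).2⟩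

theorem ar_ref {u : List Bool → List Bool} (hu : PolyT.Poly u) (n : ℕ) (l : List (List Bool))
    (A : Lang) : (fun c => bif ltB (sel true c).length n then l.any (eqB (sel true c))
      else A (ad (u (sel true c)) (sel false c) 1)) ∈ RelP A := by
  obtain ⟨M, hM⟩ := exists_om (ini := fun x => (x, [], []))
    (Q := fun s => ad (u (sel true s.1)) (sel false s.1) 1) (δ := fun p => p.1)
    (fin := fun _ => true)
    (out := fun p => bif ltB (sel true p.1.1).length n then l.any (eqB (sel true p.1.1)) else p.2)
    (by fun_prop) (by fun_prop) (by fun_prop) (by fun_prop) (by fun_prop)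
  refine ⟨M, 6 * Polynomial.X + 4, fun x => ⟨1, by simp, ?_⟩⟩
  exact hM A x 0 _ (fun _ => (x, [], [])) rfl (fun r hr => by omega) (fun r hr => by omega) rfl
    (fun r _ => by simp [length_st]) (by simp; omega)

theorem ar_ans {mc : ℕ → OM} {A : Lang} {i s t : ℕ} {x y : List Bool} {b : Bool}
    (h : (mc i).Halts A x s t b)
    (hq : ∀ j < t, ((mc i).qry ((mc i).run A x j)).length ≤ y.length) :
    ans mc (true :: bitEncode (i, x, y)) A = b := by
  classical
  have h1 := ar_run (O' := trunc (true :: bitEncode (i, x, y)).length A) h fun j hj => by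
    have h2 := hq j hj
    have : ((mc i).qry ((mc i).run A x j)).length < (true :: bitEncode (i, x, y)).length := by
      simp only [List.length_cons, length_enc_pair, PolyT.Poly.enc_bools_length]
      omega
    simp only [trunc, this, decide_true, Bool.true_and]
  rw [Bool.eq_iff_iff, ans, decide_eq_true_eq]
  constructor
  · rintro ⟨i', x', y', s', t', e, h2⟩
    have e' := bitEncode_injective (List.cons.inj e).2
    simp only [Prod.mk.injEq] at e'
    obtain ⟨rfl, rfl, -⟩ := e'
    exact h1.unique h2
  · intro hx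
    exact ⟨i, x, _, _, t, rfl, hx ▸ h1⟩

theorem ar_main {r : ℕ → ℕ} {mc : ℕ → OM} (θ : Lang) {ξ : List Bool → Bool → Lang}
    (hmc : Surjective mc) (hξ : Ok r ξ) : RelDec (orc mc θ ξ) ⊆ RelAM r (orc mc θ ξ) := by
  classical
  rintro L ⟨M, p, hL⟩
  obtain ⟨i, rfl⟩ := hmc M
  obtain ⟨F, hF, hF'⟩ := exists_list_eval (l := fun x : List Bool => x) (by fun_prop) p
  let u : List Bool → List Bool := fun x => true :: bitEncode (i, x, (F x).map fun _ => false)
  have hu : PolyT.Poly u := by fun_prop
  let P : Polynomial ℕ := Polynomial.C (2 * (bitEncode i).length + 3) + 6 * Polynomial.X + 3 * p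
  have hP : ∀ x, (u x).length = P.eval x.length := fun x => by
    simp only [u, P, List.length_cons, length_enc_pair, PolyT.Poly.enc_bools_length,
      List.length_map, hF', Polynomial.eval_add, Polynomial.eval_mul, Polynomial.eval_C,
      Polynomial.eval_X, Polynomial.eval_ofNat]
    omega
  obtain ⟨n, hn⟩ := Filter.eventually_atTop.1 (poly_le_two_pow P 1 one_pos)
  let l := ((List.finite_length_lt Bool n).toFinset.filter (L · = true)).toList
  have hl : ∀ x : List Bool, x.length < n → l.any (eqB x) = L x := fun x hx => by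
    rw [Bool.eq_iff_iff]
    simp [l, hx]
  refine ⟨P ^ 2, _, ar_ref hu n l _, fun x => ?_⟩
  rw [← List.append_nil (delimit x), ar_shift, Polynomial.eval_pow, ← hP]
  simp only [sel_pair, if_true, Bool.false_eq_true, if_false, orc_code]
  have key : ∃ X : Bool → Lang, Okr X ((u x).length ^ 2) (r x.length) ∧
      (fun s => bif ltB x.length n then l.any (eqB x)
        else ξ (u x) (ans mc (u x) (orc mc θ ξ)) s) = X (L x) := by
    by_cases hx : x.length < n
    · exact ⟨_, ar_okr _ _, by rw [ltB_iff.2 hx, hl x hx]; rfl⟩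
    · obtain ⟨s, t, h1, h2⟩ := hL x
      refine ⟨ξ (u x), hξ i x _ _ rfl ?_, ?_⟩
      · rw [hP]
        simpa using hn x.length (by omega)
      · rw [ltB_false_iff.2 (by omega), ar_ans h1 fun j hj => by
          rw [List.length_map, hF']
          exact h2 j hj]
        rfl
  obtain ⟨X, h1, h2⟩ := key
  rw [h2]
  exact ⟨fun h => by rw [h]; exact h1.1, fun h => by rw [h]; exact h1.2⟩

theorem amS : AMStmt :=
  ⟨fun _ _ _ _ _ _ _ => ar_okr _ _, fun _ _ θ _ hmc hξ =>
    Set.union_subset ((ar_dec _).trans (ar_main θ hmc hξ)) (ar_main θ hmc hξ)⟩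

end Pool.Agent.MP_a2d820_lc.h17
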