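import Pool.Agent.MP_a2d820_lc.h17.Spec

/-! A probabilistic circuit with small error is a circuit with two more layers. -/

set_option autoImplicit false

namespace Pool.Agent.MP_a2d820_lc.h17

open Pool.Agent.MP_a2d820_lc.h69 Finset

open Classical in
theorem am_some {W : Type} [Fintype W] (n : ℕ) (B : Finset W)
    (h : #B * (4 * (n + 1)) ≤ Fintype.card W) :
    #{τ : Fin (n + 1) → W | ∃ j, τ j ∈ B} * 4 ≤ Fintype.card W ^ (n + 1) := by
  have h1 : ({τ : Fin (n + 1) → W | ∃ j, τ j ∈ B} : Finset _) ⊆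
      univ.biUnion fun j => Fintype.piFinset fun i => if i = j then B else univ := fun τ hτ => by
    obtain ⟨j, hj⟩ := (mem_filter.1 hτ).2
    refine mem_biUnion.2 ⟨j, mem_univ _, Fintype.mem_piFinset.2 fun i => ?_⟩
    split_ifs with e
    exacts [e ▸ hj, mem_univ _]
  have h2 : ∀ j : Fin (n + 1), #(Fintype.piFinset fun i => if i = j then B else univ) =
      #B * Fintype.card W ^ n := fun j => by
    rw [Fintype.card_piFinset, Fin.prod_univ_succAbove _ j]
    simp [Fin.succAbove_ne]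
  have h3 := (card_le_card h1).trans card_biUnion_le
  simp only [h2, sum_const, card_univ, Fintype.card_fin, smul_eq_mul] at h3
  calc _ ≤ (n + 1) * (#B * Fintype.card W ^ n) * 4 := Nat.mul_le_mul_right _ h3
    _ = Fintype.card W ^ n * (#B * (4 * (n + 1))) := by ring
    _ ≤ _ := by rw [pow_succ]; exact Nat.mul_le_mul_left _ h

open Classical in
theorem am_all {W : Type} [Fintype W] (n : ℕ) (B : Finset W)
    (h : #B * (4 * (n + 1)) ≤ Fintype.card W) :
    #{τ : Fin (n + 1) → W | ∀ j, τ j ∈ B} * (2 ^ n * 4) ≤ Fintype.card W ^ (n + 1) := by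
  have h1 : ({τ : Fin (n + 1) → W | ∀ j, τ j ∈ B} : Finset _) = Fintype.piFinset fun _ => B := by
    ext τ
    simp
  have h2 : #B * 4 ≤ Fintype.card W := le_trans (Nat.mul_le_mul_left _ (by omega)) h
  have h3 : 2 ^ n * 4 ≤ 4 ^ (n + 1) := by
    rw [pow_succ]
    exact Nat.mul_le_mul_right _ (Nat.pow_le_pow_left (by omega) _)
  rw [h1, Fintype.card_piFinset, prod_const, card_univ, Fintype.card_fin]
  exact (Nat.mul_le_mul_left _ h3).trans (by rw [← mul_pow]; exact Nat.pow_le_pow_left h2 _)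

open Classical in
theorem am_cover {V W : Type} [Fintype V] [DecidableEq V] [Fintype W] [Nonempty W]
    (B : (V → Bool) → Finset W) (h : ∀ z, #(B z) * (4 * (Fintype.card V + 1)) ≤ Fintype.card W) :
    ∃ T : Finset (Fin (Fintype.card V + 1) → W), #T ≤ Fintype.card V + 1 ∧
      (∀ τ ∈ T, ∀ z, ∃ j, τ j ∉ B z) ∧ ∀ z, ∃ τ ∈ T, ∀ j, τ j ∉ B z := by
  set n := Fintype.card V with hn
  have h1 : #{τ : Fin (n + 1) → W | ∃ z, ∀ j, τ j ∈ B z} * 4 ≤ Fintype.card W ^ (n + 1) := by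
    have a : ({τ : Fin (n + 1) → W | ∃ z, ∀ j, τ j ∈ B z} : Finset _) ⊆
        univ.biUnion fun z => {τ : Fin (n + 1) → W | ∀ j, τ j ∈ B z} := fun τ hτ => by
      simpa using hτ
    have b := Nat.mul_le_mul_right (2 ^ n * 4) ((card_le_card a).trans card_biUnion_le)
    rw [sum_mul] at b
    have c := b.trans (sum_le_card_nsmul _ _ _ fun z _ => am_all n (B z) (h z))
    rw [card_univ, Fintype.card_fun, Fintype.card_bool, smul_eq_mul, ← hn, mul_left_comm] at c
    exact Nat.le_of_mul_le_mul_left c (by positivity)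
  obtain ⟨T, hT, hc⟩ := h31u.exists_cover
    (fun z (τ : Fin (n + 1) → W) => (∃ j, τ j ∈ B z) ∨ ∃ z', ∀ j, τ j ∈ B z') (fun z => by
      have a := am_some n (B z) (h z)
      have b := card_union_le ({τ : Fin (n + 1) → W | ∃ j, τ j ∈ B z} : Finset _)
        {τ : Fin (n + 1) → W | ∃ z, ∀ j, τ j ∈ B z}
      rw [filter_or, Fintype.card_fun, Fintype.card_fin]
      omega) (n + 1) univ (by simp [pow_succ, hn])
  refine ⟨{τ ∈ T | ∀ z, ∃ j, τ j ∉ B z}, (card_filter_le _ _).trans hT,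
    fun τ hτ => (mem_filter.1 hτ).2, fun z => ?_⟩
  obtain ⟨τ, h2, h3⟩ := hc z (mem_univ _)
  push Not at h3
  exact ⟨τ, mem_filter.2 ⟨h2, h3.2⟩, h3.1⟩

theorem ampS : AmpStmt := by
  intro V W _ _ _ _ F S w N k hw hN hF h
  classical
  obtain ⟨T, hT, h1, h2⟩ := am_cover (fun z => {ω | F ω z ≠ S z}) h
  simp only [mem_filter, mem_univ, true_and, not_not] at h1 h2
  clear h
  generalize Fintype.card V + 1 = m at *
  let g : (Fin m → W) → (V → Bool) → Bool := fun τ z => decide (∃ j, F (τ j) z = false)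
  have c1 : #(T ×ˢ (univ : Finset (Fin m))) ≤ m ^ 2 := by
    rw [card_product, card_univ, Fintype.card_fin, sq]
    exact Nat.mul_le_mul_right _ hT
  have c2 : m ^ 2 ≤ m ^ 2 * N := Nat.le_mul_of_pos_right _ hN
  refine ⟨T.image g, card_image_le.trans (hT.trans ((Nat.le_self_pow two_ne_zero _).trans c2)),
    ⟨(T ×ˢ (univ : Finset (Fin m))).image fun p => F (p.1 p.2), card_image_le.trans (c1.trans c2),
      (h31u.ac_up (h31u.ac_union (T ×ˢ (univ : Finset (Fin m))) (fun p => {F (p.1 p.2)})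
        fun p => hF _) le_rfl (Nat.mul_le_mul_right _ c1)).mono fun f hf => ?_, fun f hf => ?_⟩,
    fun f hf => ?_⟩
  · obtain ⟨p, hp, rfl⟩ := mem_image.1 (mem_coe.1 hf)
    exact ⟨p, hp, rfl⟩
  · obtain ⟨τ, hτ, rfl⟩ := mem_image.1 (mem_coe.1 hf)
    refine ⟨Set.range fun j z => !F (τ j) z, ?_, fun z => by simp [g]⟩
    rintro _ ⟨j, rfl⟩
    exact (h31u.dtq_not (Or.inl (mem_coe.2 (mem_image.2
      ⟨(τ, j), mem_product.2 ⟨hτ, mem_univ _⟩, rfl⟩)))).mono hw
  · obtain rfl : f = S := hf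
    refine ⟨(fun τ z => !g τ z) '' T, ?_, fun z => ⟨fun hz => ?_, ?_⟩⟩
    · rintro _ ⟨τ, hτ, rfl⟩
      exact (h31u.dtq_not (Or.inl (mem_coe.2 (mem_image_of_mem _ hτ)))).mono hw
    · obtain ⟨τ, hτ, e⟩ := h2 z
      exact ⟨_, ⟨τ, hτ, rfl⟩, by simp [g, e, hz]⟩
    · rintro ⟨_, ⟨τ, hτ, rfl⟩, e⟩
      obtain ⟨j, hj⟩ := h1 τ hτ z
      rw [← hj]
      by_contra hc
      simp only [g, Bool.not_eq_true', decide_eq_false_iff_not] at e
      exact e ⟨j, by simpa using hc⟩

end Pool.Agent.MP_a2d820_lc.h17
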