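import Pool.Agent.MP_a2d820_lc.h17.Spec

/-!
The trees with hidden pointers are gadgets.
-/

set_option autoImplicit false

namespace Pool.Agent.MP_a2d820_lc.h17

open Pool.Agent.MP_a2d820_lc.h69 Function Finset

/-- Cheap mixtures of the two tables of a tree. -/
def mix (m g j : ℕ) : ∀ h, Om m g h → (List Bool → Bool) → Prop
  | 0, _, u => u = fun _ => false
  | h + 1, ω, u => ∃ (U : Finset (Msg m)) (v : Msg m × Msg m → List Bool → Bool), U.card ≤ j ∧
      (∀ p, u p = v (idx m p) (p.drop (2 * m))) ∧ ∀ q : Msg m × Msg m,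
        (q.1 = ω.1 → (ω.2 q).1 ≠ 0 → q.2 ∈ U → v q = tab m g h (ω.2 q).2 true) ∧
        (q.1 = ω.1 → (ω.2 q).1 ≠ 0 → q.2 ∉ U → mix m g j h (ω.2 q).2 (v q)) ∧
        (¬(q.1 = ω.1 ∧ (ω.2 q).1 ≠ 0) → v q = tab m g h (ω.2 q).2 (decide ((ω.2 q).1 = 0)))

/-- The demands on one subtree. -/
def gaSub (m : ℕ) (D : Finset (List Bool × Bool)) (q : Msg m × Msg m) :
    Finset (List Bool × Bool) :=
  (D.filter fun d => idx m d.1 = q).image fun d => (d.1.drop (2 * m), d.2)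

theorem ga_cons {m : ℕ} {u : List Bool → Bool} {v : Msg m × Msg m → List Bool → Bool}
    (h : ∀ p, u p = v (idx m p) (p.drop (2 * m))) (D : Finset (List Bool × Bool)) :
    Cons u D ↔ ∀ q, Cons (v q) (gaSub m D q) := by
  constructor
  · intro hD q d hd
    obtain ⟨d', h1, rfl⟩ := mem_image.1 hd
    obtain ⟨h2, rfl⟩ := mem_filter.1 h1
    exact (h _).symm.trans (hD d' h2)
  · intro hD d hd
    exact (h _).trans (hD _ _ (mem_image_of_mem _ (mem_filter.2 ⟨hd, rfl⟩)))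

theorem ga_card (m : ℕ) (D : Finset (List Bool × Bool)) (q : Msg m × Msg m) :
    (gaSub m D q).card ≤ D.card := card_image_le.trans (card_filter_le _ _)

theorem ga_m0 (m g j : ℕ) : ∀ h ω, mix m g j h ω (tab m g h ω false)
  | 0, _ => rfl
  | h + 1, ω => ⟨∅, fun q => tab m g h (ω.2 q).2 (decide ((ω.2 q).1 = 0)), by simp,
      fun p => by simp [tab], fun q => ⟨by simp, fun _ h2 _ => by
        simpa [h2] using ga_m0 m g j h (ω.2 q).2, fun _ => rfl⟩⟩

theorem ga_m1 (m g j : ℕ) : ∀ h ω u p, mix m g j h ω u →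
    tab m g h ω false p = tab m g h ω true p → u p = tab m g h ω false p
  | 0, _, _, _, h1, _ => by rw [h1]; rfl
  | h + 1, ω, u, p, ⟨U, v, _, h2, h3⟩, h4 => by
    rw [h2]
    obtain ⟨a1, a2, a3⟩ := h3 (idx m p)
    by_cases hc : (idx m p).1 = ω.1 ∧ (ω.2 (idx m p)).1 ≠ 0
    · simp only [tab, hc.1, hc.2, decide_true, decide_false, Bool.and_true, Bool.or_false] at h4 ⊢
      by_cases hU : (idx m p).2 ∈ U
      · rw [a1 hc.1 hc.2 hU, h4]
      · exact ga_m1 m g j h _ _ _ (a2 hc.1 hc.2 hU) h4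
    · rw [a3 hc]
      simp [tab]

theorem ga_a1 (m g j : ℕ) : ∀ h ω (D : Finset (List Bool × Bool)), D.card < (j + 1) ^ h →
    Cons (tab m g h ω true) D → ∃ u, mix m g j h ω u ∧ Cons u D
  | 0, _, D, h1, _ => ⟨_, rfl, by
      obtain rfl : D = ∅ := by simpa using h1
      simp [Cons]⟩
  | h + 1, ω, D, h1, h2 => by
    classical
    let tb : Msg m × Msg m → List Bool → Bool := fun q =>
      tab m g h (ω.2 q).2 ((true && decide (q.1 = ω.1)) || decide ((ω.2 q).1 = 0))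
    have h3 := (ga_cons (u := tab m g (h + 1) ω true) (v := tb) (fun p => rfl) D).1 h2
    let U : Finset (Msg m) := {z | (j + 1) ^ h ≤ (gaSub m D (ω.1, z)).card}
    have hU : U.card ≤ j := by
      have a1 : ∑ z ∈ U, #{d ∈ D | idx m d.1 = (ω.1, z)} ≤ D.card := by
        rw [← card_biUnion]
        · exact card_le_card (biUnion_subset.2 fun z _ => filter_subset _ _)
        · intro z _ z' _ hz
          exact disjoint_filter.2 fun d _ e e' => hz (Prod.mk.inj (e.symm.trans e')).2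
      have a2 := card_nsmul_le_sum U (fun z => #{d ∈ D | idx m d.1 = (ω.1, z)}) ((j + 1) ^ h)
        fun z hz => (mem_filter.1 hz).2.trans card_image_le
      rw [smul_eq_mul] at a2
      have a3 : U.card * (j + 1) ^ h < (j + 1) * (j + 1) ^ h := by
        rw [pow_succ'] at h1
        omega
      exact Nat.lt_succ_iff.1 (lt_of_mul_lt_mul_right a3 (Nat.zero_le _))
    have h4 : ∀ q : Msg m × Msg m, ∃ v, Cons v (gaSub m D q) ∧
        (q.1 = ω.1 → (ω.2 q).1 ≠ 0 → q.2 ∈ U → v = tab m g h (ω.2 q).2 true) ∧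
        (q.1 = ω.1 → (ω.2 q).1 ≠ 0 → q.2 ∉ U → mix m g j h (ω.2 q).2 v) ∧
        (¬(q.1 = ω.1 ∧ (ω.2 q).1 ≠ 0) → v = tab m g h (ω.2 q).2 (decide ((ω.2 q).1 = 0))) := by
      intro q
      by_cases hc : q.1 = ω.1 ∧ (ω.2 q).1 ≠ 0 ∧ q.2 ∉ U
      · have a1 : (gaSub m D q).card < (j + 1) ^ h := by
          by_contra a2
          refine hc.2.2 (mem_filter.2 ⟨mem_univ _, ?_⟩)
          rw [← hc.1]
          exact not_lt.1 a2
        obtain ⟨v, a2, a3⟩ := ga_a1 m g j h (ω.2 q).2 _ a1 (by simpa [tb, hc.1] using h3 q)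
        exact ⟨v, a3, fun _ _ a4 => absurd a4 hc.2.2, fun _ _ _ => a2,
          fun a4 => absurd ⟨hc.1, hc.2.1⟩ a4⟩
      · refine ⟨tb q, h3 q, fun a1 _ _ => by simp [tb, a1], fun a1 a2 a3 => absurd ⟨a1, a2, a3⟩ hc,
          fun a1 => ?_⟩
        by_cases a2 : (ω.2 q).1 = 0
        · simp [tb, a2]
        · have a3 : q.1 ≠ ω.1 := fun e => a1 ⟨e, a2⟩
          simp [tb, a3]
    choose v h5 h6 using h4
    exact ⟨fun p => v (idx m p) (p.drop (2 * m)), ⟨U, v, hU, fun _ => rfl, h6⟩,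
      (ga_cons (fun _ => rfl) D).2 h5⟩

theorem ga_hallU {C Ω : Type} [Fintype C] (c : C) :
    Hall (fun _ : C × Ω => True) (fun a a' => a' = (c, a.2)) (Fintype.card C) := by
  classical
  intro B N _ h2
  have h3 := card_le_mul_card_image (f := fun a : C × Ω => (c, a.2)) B (Fintype.card C)
    fun a _ => card_le_card_of_injOn (t := univ) Prod.fst (fun _ _ => mem_coe.2 (mem_univ _))
      fun x hx y hy e => Prod.ext e
        (Prod.mk.inj ((mem_filter.1 hx).2.trans (mem_filter.1 hy).2.symm)).2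
  have h4 : (B.image fun a : C × Ω => (c, a.2)).card ≤ N.card := card_le_card fun a ha => by
    obtain ⟨a', h5, rfl⟩ := mem_image.1 ha
    exact h2 a' h5 _ rfl
  exact_mod_cast h3.trans (Nat.mul_le_mul_left _ h4)

theorem ga_hallR {C Ω : Type} [Fintype C] {S : Ω → Prop} {E : Ω → Ω → Prop} {θ : ℝ}
    (h : Hall S E θ) :
    Hall (fun a : C × Ω => S a.2) (fun a a' => a'.1 = a.1 ∧ E a.2 a'.2) θ := by
  classical
  intro B N h1 h2
  have key : ∀ (X : Finset (C × Ω)), X.card = ∑ c, ((X.filter (·.1 = c)).image Prod.snd).card := by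
    intro X
    rw [card_eq_sum_card_fiberwise (f := Prod.fst) (t := univ) fun _ _ => mem_coe.2 (mem_univ _)]
    refine sum_congr rfl fun c _ => (card_image_of_injOn fun x hx y hy e => ?_).symm
    exact Prod.ext ((mem_filter.1 hx).2.trans (mem_filter.1 hy).2.symm) e
  rw [key B, key N, Nat.cast_sum, Nat.cast_sum, mul_sum]
  refine sum_le_sum fun c _ => h _ _ (fun a ha => ?_) fun a ha a' hE => ?_
  · obtain ⟨x, hx, rfl⟩ := mem_image.1 ha
    exact h1 x (mem_filter.1 hx).1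
  · obtain ⟨x, hx, rfl⟩ := mem_image.1 ha
    exact mem_image.2 ⟨(c, a'), mem_filter.2 ⟨h2 x (mem_filter.1 hx).1 _
      ⟨(mem_filter.1 hx).2.symm, hE⟩, rfl⟩, rfl⟩

theorem ga_three {x : ℝ} {w n : ℕ} (h0 : 0 ≤ x) (h1 : x * w ≤ 1) (h2 : n ≤ w) :
    (1 + x) ^ n ≤ 3 := by
  have h3 : (1 + x) ^ n ≤ Real.exp x ^ n :=
    pow_le_pow_left₀ (by positivity) (by linarith [Real.add_one_le_exp x]) _
  rw [← Real.exp_nat_mul] at h3
  have h4 : (n : ℝ) * x ≤ 1 := by
    have : (n : ℝ) ≤ w := by exact_mod_cast h2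
    nlinarith
  exact h3.trans ((Real.exp_le_exp.2 h4).trans (by linarith [Real.exp_one_lt_d9]))

theorem ga_pow {α : Type} (Z : Finset α) (x : ℝ) :
    ∑ R ∈ Z.powerset, x ^ R.card = (1 + x) ^ Z.card := by
  have := Finset.prod_one_add (f := fun _ : α => x) Z
  simpa using this.symm

/-- The demands are missed by the false table and met by a mixture. -/
def gaS (m g j h : ℕ) (D : Finset (List Bool × Bool)) (ω : Om m g h) : Prop :=
  ¬Cons (tab m g h ω false) D ∧ ∃ u, mix m g j h ω u ∧ Cons u D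

/-- The false table of `ω'` is a mixture for `ω` and meets the demands. -/
def gaE (m g j h : ℕ) (D : Finset (List Bool × Bool)) (ω ω' : Om m g h) : Prop :=
  mix m g j h ω (tab m g h ω' false) ∧ Cons (tab m g h ω' false) D

/-- The data that describe how a tree is changed. -/
def gaP (m g j h : ℕ) (D : Finset (List Bool × Bool)) (ω : Om m g (h + 1))
    (U R : Finset (Msg m)) : Prop :=
  Disjoint U R ∧ (∀ z ∈ R, gaS m g j h (gaSub m D (ω.1, z)) (ω.2 (ω.1, z)).2) ∧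
    ∀ ω' : Om m g (h + 1), (∀ q, q ∉ (U ∪ R).image (Prod.mk ω.1) → ω'.2 q = ω.2 q) →
      (∀ z ∈ U, ω'.2 (ω.1, z) = (0, (ω.2 (ω.1, z)).2)) →
      (∀ z ∈ R, (ω'.2 (ω.1, z)).1 = (ω.2 (ω.1, z)).1 ∧
        gaE m g j h (gaSub m D (ω.1, z)) (ω.2 (ω.1, z)).2 (ω'.2 (ω.1, z)).2) →
      gaE m g j (h + 1) D ω ω'

theorem ga_data {m g j h : ℕ} {D : Finset (List Bool × Bool)} {ω : Om m g (h + 1)}
    {u : List Bool → Bool} (h1 : mix m g j (h + 1) ω u) (h2 : Cons u D) :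
    ∃ U ⊆ D.image fun d => (idx m d.1).2, U.card ≤ j ∧
      ∃ R ⊆ D.image fun d => (idx m d.1).2, gaP m g j h D ω U R := by
  classical
  obtain ⟨U, v, a1, a2, a3⟩ := h1
  have a4 := (ga_cons a2 D).1 h2
  have hne : ∀ z, (gaSub m D (ω.1, z)).Nonempty → z ∈ D.image fun d => (idx m d.1).2 := by
    rintro z ⟨d, hd⟩
    obtain ⟨d', b1, -⟩ := mem_image.1 hd
    exact mem_image.2 ⟨d', (mem_filter.1 b1).1, congrArg Prod.snd (mem_filter.1 b1).2⟩
  have hem : ∀ (z) (t : List Bool → Bool), ¬Cons t (gaSub m D (ω.1, z)) →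
      (gaSub m D (ω.1, z)).Nonempty := fun z t ht =>
    nonempty_iff_ne_empty.2 fun e => ht (by simp [e, Cons])
  refine ⟨{z ∈ U | (gaSub m D (ω.1, z)).Nonempty ∧ (ω.2 (ω.1, z)).1 ≠ 0},
    fun z hz => hne z (mem_filter.1 hz).2.1, (card_filter_le _ _).trans a1,
    univ.filter fun z => z ∉ U ∧ (ω.2 (ω.1, z)).1 ≠ 0 ∧
      ¬Cons (tab m g h (ω.2 (ω.1, z)).2 false) (gaSub m D (ω.1, z)),
    fun z hz => hne z (hem z _ (mem_filter.1 hz).2.2.2),
    disjoint_left.2 fun z b1 b2 => (mem_filter.1 b2).2.1 (mem_filter.1 b1).1,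
    fun z hz => ⟨(mem_filter.1 hz).2.2.2, _,
      (a3 (ω.1, z)).2.1 rfl (mem_filter.1 hz).2.2.1 (mem_filter.1 hz).2.1, a4 _⟩, ?_⟩
  set U₀ : Finset (Msg m) := {z ∈ U | (gaSub m D (ω.1, z)).Nonempty ∧ (ω.2 (ω.1, z)).1 ≠ 0}
  set R₀ : Finset (Msg m) := univ.filter fun z => z ∉ U ∧ (ω.2 (ω.1, z)).1 ≠ 0 ∧
      ¬Cons (tab m g h (ω.2 (ω.1, z)).2 false) (gaSub m D (ω.1, z))
  intro ω' b1 b2 b3
  let v' : Msg m × Msg m → List Bool → Bool := fun q =>
    tab m g h (ω'.2 q).2 (decide ((ω'.2 q).1 = 0))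
  have c1 : ∀ p, tab m g (h + 1) ω' false p = v' (idx m p) (p.drop (2 * m)) := fun p => by
    simp [tab, v']
  have c2 : ∀ q : Msg m × Msg m, ¬(q.1 = ω.1 ∧ (q.2 ∈ U₀ ∨ q.2 ∈ R₀)) → ω'.2 q = ω.2 q :=
    fun q hq => b1 q fun e => by
      obtain ⟨z, e1, rfl⟩ := mem_image.1 e
      exact hq ⟨rfl, mem_union.1 e1⟩
  have c3 : ∀ q : Msg m × Msg m, Cons (v' q) (gaSub m D q) ∧
      (q.1 = ω.1 → (ω.2 q).1 ≠ 0 → q.2 ∈ U₀ → v' q = tab m g h (ω.2 q).2 true) ∧
      (q.1 = ω.1 → (ω.2 q).1 ≠ 0 → q.2 ∉ U₀ → mix m g j h (ω.2 q).2 (v' q)) ∧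
      (¬(q.1 = ω.1 ∧ (ω.2 q).1 ≠ 0) → v' q = tab m g h (ω.2 q).2 (decide ((ω.2 q).1 = 0))) := by
    rintro ⟨y, z⟩
    by_cases d1 : y = ω.1 ∧ (ω.2 (y, z)).1 ≠ 0
    · obtain ⟨rfl, d1⟩ := d1
      by_cases d2 : z ∈ U₀
      · have d3 : v' (ω.1, z) = tab m g h (ω.2 (ω.1, z)).2 true := by simp [v', b2 z d2]
        refine ⟨?_, fun _ _ _ => d3, fun _ _ d4 => absurd d2 d4, fun d4 => absurd ⟨rfl, d1⟩ d4⟩
        rw [d3, ← (a3 (ω.1, z)).1 rfl d1 (mem_filter.1 d2).1]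
        exact a4 _
      by_cases d3 : z ∈ R₀
      · obtain ⟨e1, e2, e3⟩ := b3 z d3
        have d4 : v' (ω.1, z) = tab m g h (ω'.2 (ω.1, z)).2 false := by simp [v', e1, d1]
        rw [d4]
        exact ⟨e3, fun _ _ d5 => absurd d5 d2, fun _ _ _ => e2, fun d5 => absurd ⟨rfl, d1⟩ d5⟩
      · have d4 : v' (ω.1, z) = tab m g h (ω.2 (ω.1, z)).2 false := by
          simp [v', c2 (ω.1, z) fun e => e.2.elim d2 d3, d1]
        rw [d4]
        refine ⟨?_, fun _ _ d5 => absurd d5 d2, fun _ _ _ => ga_m0 _ _ _ _ _,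
          fun d5 => absurd ⟨rfl, d1⟩ d5⟩
        by_contra d5
        by_cases d6 : z ∈ U
        · exact d2 (mem_filter.2 ⟨d6, hem z _ d5, d1⟩)
        · exact d3 (mem_filter.2 ⟨mem_univ _, d6, d1, d5⟩)
    · have d2 : v' (y, z) = tab m g h (ω.2 (y, z)).2 (decide ((ω.2 (y, z)).1 = 0)) := by
        have := c2 (y, z) fun e => d1 ⟨e.1, by
          obtain ⟨rfl, e⟩ := e
          exact e.elim (fun e => (mem_filter.1 e).2.2) fun e => (mem_filter.1 e).2.2.1⟩
        simp only [v', this]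
      refine ⟨?_, fun e1 e2 => absurd ⟨e1, e2⟩ d1, fun e1 e2 => absurd ⟨e1, e2⟩ d1, fun _ => d2⟩
      rw [d2, ← (a3 (y, z)).2.2 d1]
      exact a4 _
  exact ⟨⟨U₀, v', (card_filter_le _ _).trans a1, c1, fun q => (c3 q).2⟩,
    (ga_cons c1 D).2 fun q => (c3 q).1⟩

theorem ga_piece (hH : HallStmt) {m g j h w : ℕ} {θ : ℝ} (hθ : 0 ≤ θ)
    (ih : ∀ D : Finset (List Bool × Bool), D.card ≤ w → Hall (gaS m g j h D) (gaE m g j h D) θ)
    {D : Finset (List Bool × Bool)} (hD : D.card ≤ w) (y : Msg m) (U R : Finset (Msg m))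
    (B N : Finset (Om m g (h + 1))) (h1 : ∀ ω ∈ B, ω.1 = y ∧ gaP m g j h D ω U R)
    (h2 : ∀ ω ∈ B, ∀ ω', gaE m g j (h + 1) D ω ω' → ω' ∈ N) :
    (B.card : ℝ) * 2 ^ m ≤ (g + 1) ^ U.card * θ ^ R.card * N.card := by
  classical
  rcases B.eq_empty_or_nonempty with rfl | ⟨ω₀, h0⟩
  · simp only [card_empty, Nat.cast_zero, zero_mul]
    positivity
  have hd : Disjoint U R := (h1 ω₀ h0).2.1
  let N' : Finset (Msg m × Msg m → Fin (g + 1) × Om m g h) :=
    {κ | ∀ y' : Msg m, ((y', κ) : Om m g (h + 1)) ∈ N}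
  have a1 : 2 ^ m * N'.card ≤ N.card := by
    have := card_le_card (s := (univ : Finset (Msg m)) ×ˢ N') (t := N) fun a ha =>
      (mem_filter.1 (mem_product.1 ha).2).2 a.1
    rw [card_product, card_univ, Fintype.card_fun, Fintype.card_bool, Fintype.card_fin] at this
    exact this
  have a0 : (B.image fun ω => ω.2).card = B.card := card_image_of_injOn fun ω b1 ω' b2 e =>
    Prod.ext ((h1 ω b1).1.trans (h1 ω' b2).1.symm) e
  have a2 := hH (Msg m × Msg m) (fun _ => Fin (g + 1) × Om m g h)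
    (fun q a => q.2 ∉ U → gaS m g j h (gaSub m D q) a.2)
    (fun q a a' => (q.2 ∈ U → a' = (0, a.2)) ∧
      (q.2 ∉ U → a'.1 = a.1 ∧ gaE m g j h (gaSub m D q) a.2 a'.2))
    (fun q => if q.2 ∈ U then (g + 1 : ℝ) else θ) ((U ∪ R).image (Prod.mk y))
    (fun q _ => by split_ifs <;> positivity) (fun q _ => by
      by_cases hq : q.2 ∈ U
      · simpa [hq] using ga_hallU (C := Fin (g + 1)) (Ω := Om m g h) 0
      · simpa [hq] using ga_hallR (C := Fin (g + 1)) (ih _ ((ga_card m D q).trans hD)))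
    (B.image fun ω => ω.2) N' (fun κ hκ q hq hq' => by
      obtain ⟨ω, b1, rfl⟩ := mem_image.1 hκ
      obtain ⟨z, b2, rfl⟩ := mem_image.1 hq
      obtain ⟨rfl, -, b3, -⟩ := h1 ω b1
      exact b3 z ((mem_union.1 b2).resolve_left hq')) (fun κ hκ κ' hE => by
      obtain ⟨ω, b1, rfl⟩ := mem_image.1 hκ
      obtain ⟨rfl, -, -, b3⟩ := h1 ω b1
      refine mem_filter.2 ⟨mem_univ _, fun y' => h2 ω b1 _ (b3 (y', κ') hE.1 (fun z hz => ?_)
        fun z hz => ?_)⟩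
      · exact (hE.2 _ (mem_image_of_mem _ (mem_union_left _ hz))).1 hz
      · exact (hE.2 _ (mem_image_of_mem _ (mem_union_right _ hz))).2 (disjoint_right.1 hd hz))
  rw [a0, prod_image fun z _ z' _ e => (Prod.mk.inj e).2, prod_union hd,
    prod_congr rfl fun z hz => if_pos hz,
    prod_congr (s₂ := R) rfl fun z hz => if_neg (disjoint_right.1 hd hz), prod_const,
    prod_const] at a2
  have a3 : (2 ^ m * N'.card : ℝ) ≤ N.card := by exact_mod_cast a1
  calc (B.card : ℝ) * 2 ^ m ≤ (g + 1) ^ U.card * θ ^ R.card * N'.card * 2 ^ m :=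
        mul_le_mul_of_nonneg_right a2 (by positivity)
    _ = (g + 1) ^ U.card * θ ^ R.card * (2 ^ m * N'.card) := by ring
    _ ≤ _ := mul_le_mul_of_nonneg_left a3 (by positivity)

theorem ga_step (hH : HallStmt) {m g j h w : ℕ} {θ : ℝ} (hw : 1 ≤ w)
    (h1 : (9 * w * ((g + 1) * w) ^ j : ℝ) ≤ θ * 2 ^ m) (h2 : θ * w ≤ 1)
    (ih : ∀ D : Finset (List Bool × Bool), D.card ≤ w → Hall (gaS m g j h D) (gaE m g j h D) θ)
    (D : Finset (List Bool × Bool)) (hD : D.card ≤ w) :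
    Hall (fun ω => (∃ d ∈ D, tab m g (h + 1) ω false d.1 ≠ tab m g (h + 1) ω true d.1) ∧
      ∃ u, mix m g j (h + 1) ω u ∧ Cons u D) (gaE m g j (h + 1) D) θ := by
  classical
  intro B N b1 b2
  have hw' : (1 : ℝ) ≤ w := by exact_mod_cast hw
  have hθ : 0 ≤ θ := nonneg_of_mul_nonneg_left (le_trans (by positivity) h1) (by positivity)
  set Y := D.image fun d => (idx m d.1).1
  set Z := D.image fun d => (idx m d.1).2
  have hY : (Y.card : ℝ) ≤ w := by exact_mod_cast card_image_le.trans hD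
  have hZ : Z.card ≤ w := card_image_le.trans hD
  let P : Msg m → Finset (Msg m) → Finset (Msg m) → Finset (Om m g (h + 1)) := fun y U R =>
    {ω ∈ B | ω.1 = y ∧ gaP m g j h D ω U R}
  have a1 : B ⊆ Y.biUnion fun y => ({U ∈ Z.powerset | U.card ≤ j}).biUnion fun U =>
      Z.powerset.biUnion fun R => P y U R := by
    intro ω hω
    obtain ⟨⟨d, c1, c2⟩, u, c3, c4⟩ := b1 ω hω
    obtain ⟨U, c5, c6, R, c7, c8⟩ := ga_data c3 c4
    refine mem_biUnion.2 ⟨ω.1, mem_image.2 ⟨d, c1, ?_⟩, mem_biUnion.2 ⟨U, mem_filter.2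
      ⟨mem_powerset.2 c5, c6⟩, mem_biUnion.2 ⟨R, mem_powerset.2 c7, mem_filter.2 ⟨hω, rfl, c8⟩⟩⟩⟩
    by_contra c9
    exact c2 (by simp [tab, c9])
  have a2 : B.card ≤ ∑ y ∈ Y, ∑ U ∈ {U ∈ Z.powerset | U.card ≤ j}, ∑ R ∈ Z.powerset,
      (P y U R).card := (card_le_card a1).trans (card_biUnion_le.trans (sum_le_sum fun y _ =>
    card_biUnion_le.trans (sum_le_sum fun U _ => card_biUnion_le)))
  have a3 : ∑ U ∈ {U ∈ Z.powerset | U.card ≤ j}, (g + 1 : ℝ) ^ U.card ≤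
      ((g + 1) * w) ^ j * 3 := by
    have c1 : ∀ U ∈ {U ∈ Z.powerset | U.card ≤ j}, (g + 1 : ℝ) ^ U.card ≤
        ((g + 1) * w) ^ j * (1 / w) ^ U.card := by
      intro U hU
      have c2 : (g + 1 : ℝ) ^ U.card = ((g + 1) * w) ^ U.card * (1 / w) ^ U.card := by
        rw [← mul_pow]
        congr 1
        field_simp
      rw [c2]
      refine mul_le_mul_of_nonneg_right (pow_le_pow_right₀ ?_ (mem_filter.1 hU).2) (by positivity)
      have : (0 : ℝ) ≤ g := by positivity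
      nlinarith
    refine (sum_le_sum c1).trans ?_
    rw [← mul_sum]
    refine mul_le_mul_of_nonneg_left ((sum_le_sum_of_subset_of_nonneg (filter_subset _ _)
      fun _ _ _ => by positivity).trans ?_) (by positivity)
    rw [ga_pow]
    exact ga_three (by positivity) (by field_simp; rfl) hZ
  have a4 : ∑ R ∈ Z.powerset, θ ^ R.card ≤ 3 := by
    rw [ga_pow]
    exact ga_three hθ h2 hZ
  have a5 : (B.card : ℝ) * 2 ^ m ≤ ∑ y ∈ Y, ∑ U ∈ {U ∈ Z.powerset | U.card ≤ j},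
      ∑ R ∈ Z.powerset, (g + 1 : ℝ) ^ U.card * θ ^ R.card * N.card := by
    have c1 : (B.card : ℝ) ≤ ∑ y ∈ Y, ∑ U ∈ {U ∈ Z.powerset | U.card ≤ j}, ∑ R ∈ Z.powerset,
        ((P y U R).card : ℝ) := by exact_mod_cast a2
    refine (mul_le_mul_of_nonneg_right c1 (by positivity)).trans ?_
    simp only [sum_mul]
    exact sum_le_sum fun y _ => sum_le_sum fun U _ => sum_le_sum fun R _ =>
      ga_piece hH hθ ih hD y U R _ N (fun ω hω => (mem_filter.1 hω).2)
        fun ω hω => b2 ω (mem_filter.1 hω).1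
  simp only [← sum_mul, ← mul_sum, sum_const, nsmul_eq_mul] at a5
  have a6 : (B.card : ℝ) * 2 ^ m ≤ θ * N.card * 2 ^ m := by
    refine a5.trans ?_
    have c1 : (∑ U ∈ {U ∈ Z.powerset | U.card ≤ j}, (g + 1 : ℝ) ^ U.card) *
        ∑ R ∈ Z.powerset, θ ^ R.card ≤ ((g + 1) * w) ^ j * 3 * 3 :=
      mul_le_mul a3 a4 (sum_nonneg fun _ _ => by positivity) (by positivity)
    have c2 := mul_le_mul hY c1 (mul_nonneg (sum_nonneg fun _ _ => by positivity)
      (sum_nonneg fun _ _ => by positivity)) (by positivity)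
    have c3 := mul_le_mul_of_nonneg_right (c2.trans ((le_of_eq (by ring)).trans h1))
      (Nat.cast_nonneg (α := ℝ) N.card)
    exact (le_of_eq (by ring)).trans (c3.trans (le_of_eq (by ring)))
  exact le_of_mul_le_mul_right a6 (by positivity)

theorem gadS (hH : HallStmt) : GadStmt := by
  intro m g j w h θ h0 hw h1 h2 h3
  have hθ : 0 ≤ θ := nonneg_of_mul_nonneg_left (le_trans (by positivity) h2) (by positivity)
  have key : ∀ h, ∀ D : Finset (List Bool × Bool), D.card ≤ w →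
      Hall (gaS m g j h D) (gaE m g j h D) θ := by
    intro h
    induction h with
    | zero =>
      intro D _ B N b1 _
      have : B = ∅ := eq_empty_of_forall_notMem fun ω hω => by
        obtain ⟨c1, u, rfl, c2⟩ := b1 ω hω
        exact c1 c2
      simp only [this, card_empty, Nat.cast_zero]
      positivity
    | succ h ih =>
      intro D hD B N b1 b2
      refine ga_step hH hw h2 h3 ih D hD B N (fun ω hω => ?_) b2
      obtain ⟨c1, u, c2, c3⟩ := b1 ω hω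
      refine ⟨?_, u, c2, c3⟩
      by_contra c4
      push Not at c4
      exact c1 fun d hd => (ga_m1 m g j _ ω u _ c2 (c4 d hd)).symm.trans (c3 d hd)
  obtain ⟨h, rfl⟩ : ∃ h', h = h' + 1 := ⟨h - 1, by omega⟩
  exact ⟨mix m g j (h + 1), ga_m0 m g j _, ga_m1 m g j _,
    fun ω D hD => ga_a1 m g j _ ω D (hD.trans_lt h1), ga_step hH hw h2 h3 (key h)⟩

end Pool.Agent.MP_a2d820_lc.h17
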