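import Pool.Agent.MP_a2d820_lc.h17.Spec

/-! Project IP: properties of robust values. -/

set_option autoImplicit false

namespace Pool.Agent.MP_a2d820_lc.h17

open Pool.Agent.MP_a2d820_lc.h69 Finset

theorem gd_card (m : ℕ) : ((univ : Finset (Fin m → Bool)).card : ℝ) = 2 ^ m := by simp

theorem gd_le_one (a : Lang) (m : ℕ) : ∀ h t, gv a m h t ≤ 1 := by
  intro h
  induction h with
  | zero => intro t; rw [gv]; split_ifs <;> norm_num
  | succ h ih =>
    intro t
    rw [gv]
    refine ciSup_le fun y => ?_
    rw [div_le_one (by positivity), ← gd_card]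
    refine (sum_le_card_nsmul univ _ 1 fun z _ => ih _).trans (le_of_eq ?_)
    rw [nsmul_eq_mul, mul_one]

theorem gd_true (m g : ℕ) (a : Lang) : ∀ h t, Gd m g a h true t → gv a m h t = 1 := by
  intro h
  induction h with
  | zero => intro t ht; rw [gv, if_pos (show a t = true from ht)]
  | succ h ih =>
    rintro t ⟨y, hy⟩
    refine le_antisymm (gd_le_one a m _ t) ?_
    rw [gv]
    refine le_ciSup_of_le (Set.finite_range _).bddAbove y ?_
    rw [sum_congr rfl fun z _ => ih _ (hy z), sum_const, nsmul_eq_mul, gd_card, mul_one,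
      div_self (by positivity)]

theorem gd_false (m g : ℕ) (a : Lang) :
    ∀ h t, Gd m g a h false t → gv a m h t ≤ 2 * h / (g + 1) := by
  intro h
  induction h with
  | zero =>
    intro t ht
    have e : a t = false := ht
    rw [gv, e]
    simp
  | succ h ih =>
    intro t ht
    rw [gv]
    refine ciSup_le fun y => ?_
    obtain ⟨U, hU, hz⟩ := ht y
    have hU' : (U.card : ℝ) * (g + 1) ≤ 2 * 2 ^ m := by exact_mod_cast hU
    have g0 : (0 : ℝ) < g + 1 := by positivity
    have s : ∑ z : Fin m → Bool, gv a m h (t ++ List.ofFn y ++ List.ofFn z) ≤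
        ∑ z : Fin m → Bool, ((if z ∈ U then 1 else 0) + 2 * h / (g + 1) : ℝ) := by
      refine sum_le_sum fun z _ => ?_
      split_ifs with c
      · have : (0 : ℝ) ≤ 2 * h / (g + 1) := by positivity
        linarith [gd_le_one a m h (t ++ List.ofFn y ++ List.ofFn z)]
      · rw [zero_add]; exact ih _ (hz z c)
    rw [sum_add_distrib, sum_ite_mem, univ_inter, sum_const, sum_const, nsmul_eq_mul, nsmul_eq_mul,
      gd_card, mul_one] at s
    have u : (U.card : ℝ) ≤ 2 * 2 ^ m / (g + 1) := (le_div_iff₀ g0).2 hU'
    rw [div_le_iff₀ (by positivity)]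
    refine s.trans ((add_le_add_left u _).trans (le_of_eq ?_))
    push_cast
    ring

theorem gd_comp (m g : ℕ) (a a' : Lang) (h' : ℕ) : ∀ h b t, Gd m g a h b t →
    (∀ t' : List Bool, t'.length = t.length + 2 * m * h → Gd m g a' h' (a t') t') →
    Gd m g a' (h + h') b t := by
  intro h
  induction h with
  | zero =>
    intro b t ht H
    have e : a t = b := ht
    rw [Nat.zero_add, ← e]
    exact H t (by simp)
  | succ h ih =>
    intro b t ht H
    have key : ∀ (y z : Msg m) (t' : List Bool),
        t'.length = (t ++ List.ofFn y ++ List.ofFn z).length + 2 * m * h →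
        Gd m g a' h' (a t') t' := fun y z t' e => H t' (by
      rw [e]
      simp only [List.length_append, List.length_ofFn]
      ring)
    rw [show h + 1 + h' = h + h' + 1 by omega]
    cases b with
    | true =>
      obtain ⟨y, hy⟩ := ht
      exact ⟨y, fun z => ih _ _ (hy z) (key y z)⟩
    | false =>
      intro y
      obtain ⟨U, hU, hz⟩ := ht y
      exact ⟨U, hU, fun z c => ih _ _ (hz z c) (key y z)⟩

theorem gd_idx (m : ℕ) (y z : Msg m) (s : List Bool) :
    idx m (List.ofFn y ++ List.ofFn z ++ s) = (y, z) := by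
  refine Prod.ext (funext fun i => ?_) (funext fun i => ?_)
  · simp only [idx]
    rw [List.append_assoc, List.getD_append _ _ _ _ (by simp), List.getD_eq_getElem _ _ (by simp)]
    simp
  · simp only [idx]
    rw [List.append_assoc, List.getD_append_right _ _ _ _ (by simp), List.length_ofFn,
      Nat.add_sub_cancel_left, List.getD_append _ _ _ _ (by simp),
      List.getD_eq_getElem _ _ (by simp)]
    simp

theorem gd_drop (m : ℕ) (y z : Msg m) (s : List Bool) :
    (List.ofFn y ++ List.ofFn z ++ s).drop (2 * m) = s :=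
  List.drop_left' (by simp; ring)

theorem gd_tab (m g : ℕ) (a : Lang) : ∀ h (ω : Om m g h) b (t : List Bool), Val m g h ω →
    (∀ s : List Bool, s.length = 2 * m * h → a (t ++ s) = tab m g h ω b s) → Gd m g a h b t := by
  intro h
  induction h with
  | zero =>
    intro ω b t _ H
    have := H [] (by simp)
    rw [List.append_nil] at this
    exact this
  | succ h ih =>
    intro ω b t hv H
    have key : ∀ y z : Msg m, Gd m g a h ((b && decide (y = ω.1)) || decide ((ω.2 (y, z)).1 = 0))
        (t ++ List.ofFn y ++ List.ofFn z) := fun y z => by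
      refine ih (ω.2 (y, z)).2 _ _ (hv.2 _) fun s hs => ?_
      have := H (List.ofFn y ++ List.ofFn z ++ s) (by
        simp only [List.length_append, List.length_ofFn, hs]
        ring)
      rw [tab, gd_idx, gd_drop] at this
      rw [← this]
      simp only [List.append_assoc]
    cases b with
    | true => exact ⟨ω.1, fun z => by simpa using key ω.1 z⟩
    | false =>
      refine fun y => ⟨_, hv.1 y, fun z c => ?_⟩
      have c' : ¬ (ω.2 (y, z)).1 = 0 := fun e => c (mem_filter.2 ⟨mem_univ _, e⟩)
      simpa [c'] using key y z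

theorem gdS : GdStmt :=
  ⟨gd_true, gd_false, fun m g a a' h h' => gd_comp m g a a' h' h, gd_tab⟩

end Pool.Agent.MP_a2d820_lc.h17
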