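import Pool.Agent.MP_a2d820_lc.h17.Spec

/-!
The combinatorial core: valid tables whose roots are hidden from small circuits.
-/

set_option autoImplicit false

namespace Pool.Agent.MP_a2d820_lc.h17

open Pool.Agent.MP_a2d820_lc.h69 Function Finset

/-- The property `P` holds for at most a fraction `α` of the points. -/
def hiSmall {W : Type} [Fintype W] (P : W → Prop) (α : ℝ) : Prop :=
  ∀ B : Finset W, (∀ ω ∈ B, P ω) → (B.card : ℝ) ≤ α * Fintype.card W

theorem hi_mono {W : Type} [Fintype W] {P Q : W → Prop} {a b : ℝ} (h : hiSmall P a)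
    (h1 : ∀ ω, Q ω → P ω) (h2 : a ≤ b) : hiSmall Q b := fun B hB =>
  (h B fun ω hω => h1 ω (hB ω hω)).trans (mul_le_mul_of_nonneg_right h2 (by positivity))

theorem hi_or {W : Type} [Fintype W] {P Q : W → Prop} {a b : ℝ} (h : hiSmall P a)
    (h' : hiSmall Q b) : hiSmall (fun ω => P ω ∨ Q ω) (a + b) := by
  classical
  intro B hB
  have h1 := h (B.filter P) fun ω hω => (mem_filter.1 hω).2
  have h2 := h' (B.filter fun ω => ¬P ω) fun ω hω =>
    (hB ω (mem_filter.1 hω).1).resolve_left (mem_filter.1 hω).2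
  have h3 : ((B.filter P).card + (B.filter fun ω => ¬P ω).card : ℝ) = B.card := by
    exact_mod_cast card_filter_add_card_filter_not (s := B) P
  linarith

theorem hi_equiv {W W' : Type} [Fintype W] [Fintype W'] (e : W' ≃ W) {P : W → Prop} {a : ℝ}
    (h : hiSmall P a) : hiSmall (fun ω => P (e ω)) a := by
  intro B hB
  have h1 := h (B.map e.toEmbedding) fun ω hω => by
    obtain ⟨x, hx, rfl⟩ := mem_map.1 hω
    exact hB x hx
  rwa [card_map, ← Fintype.card_congr e] at h1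

theorem hi_fst {X Y : Type} [Fintype X] [Fintype Y] {P : X → Prop} {a : ℝ} (h : hiSmall P a) :
    hiSmall (fun ω : X × Y => P ω.1) a := by
  classical
  intro B hB
  have h1 := h (B.image Prod.fst) fun x hx => by
    obtain ⟨ω, h2, rfl⟩ := mem_image.1 hx
    exact hB ω h2
  have h2 : B.card ≤ (B.image Prod.fst).card * Fintype.card Y := by
    have := card_le_card (s := B) (t := B.image Prod.fst ×ˢ (univ : Finset Y)) fun ω hω =>
      mem_product.2 ⟨mem_image_of_mem _ hω, mem_univ _⟩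
    rwa [card_product, card_univ] at this
  have h3 : (B.card : ℝ) ≤ (B.image Prod.fst).card * Fintype.card Y := by exact_mod_cast h2
  rw [Fintype.card_prod, Nat.cast_mul, ← mul_assoc]
  exact h3.trans (mul_le_mul_of_nonneg_right h1 (by positivity))

theorem hi_snd {X Y : Type} [Fintype X] [Fintype Y] {P : Y → Prop} {a : ℝ} (h : hiSmall P a) :
    hiSmall (fun ω : X × Y => P ω.2) a := hi_equiv (Equiv.prodComm X Y) (hi_fst h)

theorem hi_pi {I : Type} [Fintype I] [DecidableEq I] {Ω : I → Type} [∀ i, Fintype (Ω i)] (i : I)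
    {P : Ω i → Prop} {a : ℝ} (h : hiSmall P a) : hiSmall (fun ω : ∀ i, Ω i => P (ω i)) a :=
  hi_equiv (Equiv.piSplitAt i Ω) (hi_fst h)

theorem hi_ex {I W : Type} [Fintype I] [Fintype W] {P : I → W → Prop} {a : ℝ}
    (h : ∀ i, hiSmall (P i) a) : hiSmall (fun ω => ∃ i, P i ω) (Fintype.card I * a) := by
  classical
  intro B hB
  have h1 : B.card ≤ ∑ i, (B.filter (P i)).card :=
    (card_le_card fun ω hω => by
      obtain ⟨i, hi⟩ := hB ω hω
      exact mem_biUnion.2 ⟨i, mem_univ _, mem_filter.2 ⟨hω, hi⟩⟩).trans card_biUnion_le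
  have h2 : (B.card : ℝ) ≤ ∑ i, ((B.filter (P i)).card : ℝ) := by exact_mod_cast h1
  refine h2.trans ((sum_le_sum fun i _ => h i _ fun ω hω => (mem_filter.1 hω).2).trans ?_)
  rw [sum_const, card_univ, nsmul_eq_mul, mul_assoc]

/-- Some sample has the property. -/
def hiAny {W : Type} (P : W → Prop) : ∀ k, Pw W k → Prop
  | 0, _ => False
  | k + 1, a => hiAny P k a.1 ∨ P a.2

theorem hi_any {W : Type} [Fintype W] {P : W → Prop} {a : ℝ} (h : hiSmall P a) (k : ℕ) :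
    hiSmall (hiAny P k) (k * a) := by
  induction k with
  | zero =>
    intro B hB
    rw [eq_empty_of_forall_notMem (s := B) hB]
    simp
  | succ k ih =>
    exact hi_mono (hi_or (hi_fst (Y := W) ih) (hi_snd (X := Pw W k) h)) (fun _ h => h)
      (le_of_eq (by push_cast; ring))

/-- The variables: a row and a position. -/
abbrev hiV (n T : ℕ) : Type := h31u.Reg n T × Node (2 * T ^ 3)

/-- The block of a variable. -/
def hiBlk {n T : ℕ} (η : List Bool → ℕ) (v : hiV n T) : hiV n T :=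
  (v.1, ⟨v.2.1.take (v.2.1.length - 2 * v.1.1.length ^ 2 * η v.1.1), by
    have := v.2.2
    simp only [List.length_take]
    omega⟩)

/-- One round with heights `η`. -/
def hiRd {n T : ℕ} (g : ℕ) (η : List Bool → ℕ) :
    (∀ i : hiV n T, Om (i.1.1.length ^ 2) g (η i.1.1)) → (hiV n T → Bool) → hiV n T → Bool :=
  prj (hiBlk η) (fun v => v.2.1.drop (v.2.1.length - 2 * v.1.1.length ^ 2 * η v.1.1))
    fun i => tab (i.1.1.length ^ 2) g (η i.1.1)

/-- The tables given by an assignment to the variables. -/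
def hiSig {n T : ℕ} (z : hiV n T → Bool) (u t : List Bool) : Bool :=
  if h : (n ≤ u.length ∧ u.length < T) ∧ t.length ≤ 2 * T ^ 3 then z (⟨u, h.1⟩, ⟨t, h.2⟩)
  else false

theorem hi_loc {n T g : ℕ} {η : List Bool → ℕ} (ω) {z z' : hiV n T → Bool} {v : hiV n T}
    (h : ∀ v' : hiV n T, v'.1 = v.1 → z v' = z' v') : hiRd g η ω z v = hiRd g η ω z' v := by
  simp only [hiRd, prj, h (hiBlk η v) rfl]

theorem hi_loc' {n T g : ℕ} {η : List Bool → ℕ} : ∀ (k : ℕ) (a) {z z' : hiV n T → Bool}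
    {v : hiV n T}, (∀ v' : hiV n T, v'.1 = v.1 → z v' = z' v') →
    cmp (hiRd g η) k a z v = cmp (hiRd g η) k a z' v
  | 0, _, _, _, _, h => h _ rfl
  | k + 1, a, _, _, _, h => hi_loc' k a.1 fun _ e => hi_loc a.2 fun v'' e' => h v'' (e'.trans e)

theorem hi_round (h4 : GdStmt) {n T g : ℕ} {η : List Bool → ℕ}
    (ω : ∀ i : hiV n T, Om (i.1.1.length ^ 2) g (η i.1.1)) (hω : ∀ i, Val _ g _ (ω i))
    {u : List Bool} (hu : n ≤ u.length ∧ u.length < T) {h : ℕ} {b : Bool} {z : hiV n T → Bool}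
    (h1 : 2 * u.length ^ 2 * (h + η u) ≤ 2 * T ^ 3)
    (h2 : Gd (u.length ^ 2) g (hiSig z u) h b []) :
    Gd (u.length ^ 2) g (hiSig (hiRd g η ω z) u) (h + η u) b [] := by
  rw [mul_add] at h1
  refine h4.2.2.1 _ _ _ _ _ _ _ _ h2 fun t ht => ?_
  simp only [List.length_nil, zero_add] at ht
  have a1 : t.length ≤ 2 * T ^ 3 := by omega
  refine h4.2.2.2 _ _ _ _ (ω (⟨u, hu⟩, ⟨t, a1⟩)) _ _ (hω _) fun s hs => ?_
  change s.length = 2 * u.length ^ 2 * η u at hs
  have a2 : (t ++ s).length ≤ 2 * T ^ 3 := by rw [List.length_append]; omega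
  have a3 : (t ++ s).length - 2 * u.length ^ 2 * η u = t.length := by
    rw [List.length_append]; omega
  have a4 : ∀ (i : Node (2 * T ^ 3)) (s' : List Bool), i = ⟨t, a1⟩ → s' = s →
      tab (u.length ^ 2) g (η u) (ω (⟨u, hu⟩, i)) (z (⟨u, hu⟩, i)) s' =
        tab (u.length ^ 2) g (η u) (ω (⟨u, hu⟩, ⟨t, a1⟩)) (hiSig z u t) s := by
    rintro _ _ rfl rfl
    rw [hiSig, dif_pos ⟨hu, a1⟩]
  rw [hiSig, dif_pos ⟨hu, a2⟩]
  exact a4 _ _ (Subtype.ext (by simp only [a3, List.take_left'])) (by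
    simp only [a3, List.drop_left'])

theorem hi_rounds (h4 : GdStmt) {n T g H : ℕ} {u : List Bool} (hu : n ≤ u.length ∧ u.length < T)
    {b : Bool} : ∀ (k : ℕ) (a) {h : ℕ} {z : hiV n T → Bool},
    ¬hiAny (fun ω : ∀ i : hiV n T, Om (i.1.1.length ^ 2) g H => ∃ i, ¬Val _ g _ (ω i)) k a →
    2 * u.length ^ 2 * (h + k * H) ≤ 2 * T ^ 3 → Gd (u.length ^ 2) g (hiSig z u) h b [] →
    Gd (u.length ^ 2) g (hiSig (cmp (hiRd g fun _ => H) k a z) u) (h + k * H) b []
  | 0, _, _, _, _, _, h2 => by simpa [cmp] using h2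
  | k + 1, a, h, z, h0, h1, h2 => by
    have e : h + (k + 1) * H = h + H + k * H := by ring
    rw [e] at h1 ⊢
    refine hi_rounds h4 hu k a.1 (fun h3 => h0 (Or.inl h3)) h1
      (hi_round h4 (η := fun _ => H) a.2 (fun i => by_contra fun h3 => h0 (Or.inr ⟨i, h3⟩)) hu
        (le_trans (Nat.mul_le_mul_left _ (by omega)) h1) h2)

theorem hi_val (h5 : ValStmt) {n T : ℕ} {η : List Bool → ℕ} (hη : ∀ u, η u ≤ T) {α : ℝ}
    (h : (2 ^ (T + 2 * T ^ 3 + 2) * (2 * 4 ^ T ^ 2) ^ T *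
      Real.exp (-(2 ^ n ^ 2 / (3 * (6 * T + 1)))) : ℝ) ≤ α) :
    hiSmall (fun ω : ∀ i : hiV n T, Om (i.1.1.length ^ 2) (6 * T) (η i.1.1) =>
      ∃ i, ¬Val _ _ _ (ω i)) α := by
  refine hi_mono (hi_ex (a := (2 * 4 ^ T ^ 2) ^ T * Real.exp (-(2 ^ n ^ 2 / (3 * (6 * T + 1)))))
    fun i => hi_pi i (hi_mono (h5 _ _ _) (fun _ h => h) ?_)) (fun _ h => h) (le_trans ?_ h)
  · have a1 : i.1.1.length ^ 2 ≤ T ^ 2 := Nat.pow_le_pow_left i.1.2.2.le _
    have a2 : n ^ 2 ≤ i.1.1.length ^ 2 := Nat.pow_le_pow_left i.1.2.1 _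
    have a3 : (4 : ℝ) ^ i.1.1.length ^ 2 ≤ 4 ^ T ^ 2 := pow_le_pow_right₀ (by norm_num) a1
    have a4 : (2 : ℝ) ^ n ^ 2 ≤ 2 ^ i.1.1.length ^ 2 := pow_le_pow_right₀ (by norm_num) a2
    have a5 : (1 : ℝ) ≤ 4 ^ T ^ 2 := one_le_pow₀ (by norm_num)
    refine mul_le_mul ((pow_le_pow_left₀ (by positivity) (by linarith) _).trans
      (pow_le_pow_right₀ (by linarith) (hη _))) (Real.exp_le_exp.2 (neg_le_neg ?_))
      (by positivity) (by positivity)
    push_cast
    exact div_le_div_of_nonneg_right a4 (by positivity)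
  · rw [← mul_assoc]
    refine mul_le_mul_of_nonneg_right (mul_le_mul_of_nonneg_right ?_ (by positivity))
      (by positivity)
    have a1 := h31u.card_reg (n := n) (T := T) (l := T) univ fun R _ => R.2.2.le
    have a2 := card_node (2 * T ^ 3)
    have a3 : Fintype.card (hiV n T) ≤ 2 ^ (T + 2 * T ^ 3 + 2) := by
      rw [Fintype.card_prod, show T + 2 * T ^ 3 + 2 = T + 1 + (2 * T ^ 3 + 1) by ring, pow_add]
      exact Nat.mul_le_mul a1.le a2.le
    exact_mod_cast a3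

theorem hi_rd (h1 : GadStmt) (h2 : SwStmt) {n T j w H : ℕ} {η : List Bool → ℕ} {α : ℝ}
    (hw : 1 ≤ w) (hH : 1 ≤ H) (hη : ∀ u, H ≤ η u) (hj : w < (j + 1) ^ H) (hα : α ≤ 1 / 2)
    (h : (36 * w ^ 2 * ((6 * T + 1) * w) ^ j : ℝ) ≤ α * 2 ^ n ^ 2) :
    Round (hiRd (n := n) (T := T) (6 * T) η) w α := by
  have hw' : (1 : ℝ) ≤ w := by exact_mod_cast hw
  have h0 : 0 ≤ α := nonneg_of_mul_nonneg_left (le_trans (by positivity) h) (by positivity)
  have e : α / (4 * w) * w = α / 4 := by field_simp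
  have key : ∀ i : hiV n T, ∃ Mix,
      Gad (tab (i.1.1.length ^ 2) (6 * T) (η i.1.1)) Mix w (α / (4 * w)) := by
    refine fun i => h1 _ _ j _ _ _ (hH.trans (hη _)) hw
      (hj.trans_le (Nat.pow_le_pow_right (by omega) (hη _))) ?_ (by rw [e]; linarith)
    have a2 : n ^ 2 ≤ i.1.1.length ^ 2 := Nat.pow_le_pow_left i.1.2.1 _
    have a4 : (2 : ℝ) ^ n ^ 2 ≤ 2 ^ i.1.1.length ^ 2 := pow_le_pow_right₀ (by norm_num) a2
    rw [div_mul_eq_mul_div, le_div_iff₀ (by positivity)]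
    push_cast
    exact (le_of_eq (by ring)).trans (h.trans (mul_le_mul_of_nonneg_left a4 h0))
  choose Mix hM using key
  refine h2 _ _ _ _ _ _ Mix w _ α (by positivity) hM ?_
  have a1 : (1 + 2 * (α / (4 * w))) ^ w ≤ Real.exp (2 * (α / (4 * w))) ^ w :=
    pow_le_pow_left₀ (by positivity) (by linarith [Real.add_one_le_exp (2 * (α / (4 * w)))]) _
  rw [← Real.exp_nat_mul, show (w : ℝ) * (2 * (α / (4 * w))) = α / 2 by field_simp; ring] at a1
  have a2 := Real.exp_bound_div_one_sub_of_interval (x := α / 2) (by linarith) (by linarith)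
  have a3 : 1 / (1 - α / 2) ≤ 1 + α := by
    rw [div_le_iff₀ (by linarith)]
    nlinarith
  linarith

theorem hideS (h1 : GadStmt) (h2 : SwStmt) (h3 : RndStmt) (h4 : GdStmt) (h5 : ValStmt) :
    HideStmt := by
  intro n T k H w s N j ht α hw hs hN hNs hH hj hα c1 c2 hht
  have hW : 1 ≤ (s * w) ^ k * w := Nat.mul_pos (Nat.pow_pos (Nat.mul_pos hs hw)) hw
  have h0 : 0 ≤ α := le_trans (by positivity) c2
  have e1 : (k + 1) * H = k * H + H := Nat.succ_mul _ _
  have c1' : (36 * ((s * w) ^ k * w : ℕ) ^ 2 * ((6 * T + 1) * ((s * w) ^ k * w : ℕ)) ^ j : ℝ) ≤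
      α * 2 ^ n ^ 2 := by push_cast; exact c1
  have r1 := hi_rd h1 h2 (n := n) (T := T) (η := fun _ => H) hW hH (fun _ => le_rfl) hj hα c1'
  have r2 := hi_rd h1 h2 (n := n) (T := T) (η := fun u => ht u - k * H) hW hH
    (fun u => by have := hht u; omega) hj hα c1'
  have v1 := hi_val h5 (n := n) (T := T) (η := fun _ => H) (fun u => by have := hht u; omega) c2
  have v2 := hi_val h5 (n := n) (T := T) (η := fun u => ht u - k * H)
    (fun u => by have := hht u; omega) c2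
  refine ⟨Pw (∀ i : hiV n T, Om (i.1.1.length ^ 2) (6 * T) H) k ×
    (∀ i : hiV n T, Om (i.1.1.length ^ 2) (6 * T) (ht i.1.1 - k * H)), inferInstance, inferInstance,
    fun ω u b => hiSig (cmp (hiRd (6 * T) fun _ => H) k ω.1
      (hiRd (6 * T) (fun u => ht u - k * H) ω.2 fun _ => b)) u, fun φ hφ => ?_⟩
  have a1 := h3 _ _ _ _ _ w N s k α hw hs hN hNs h0 hα r1 r2 _ (hφ _ hiSig fun u t => by
    by_cases h : (n ≤ u.length ∧ u.length < T) ∧ t.length ≤ 2 * T ^ 3
    · exact (dt_var ((⟨u, h.1⟩, ⟨t, h.2⟩) : hiV n T)).congr fun z => by rw [hiSig, dif_pos h]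
    · exact (DTq.const 1 false).congr fun z => by rw [hiSig, dif_neg h])
  refine hi_mono (hi_or a1 (hi_or (hi_fst (hi_any v1 k)) (hi_snd v2))) (fun ω hω => ?_)
    (le_of_eq (by ring))
  rcases hω with ⟨u, b1, b2, b3⟩ | ⟨β, b1⟩
  · refine Or.inr (by_contra fun b4 => b3 ?_)
    rw [not_or] at b4
    have b5 := hht u
    have b6 : 2 * u.length ^ 2 * ht u ≤ 2 * T ^ 3 := by
      rw [mul_assoc, pow_succ T 2]
      exact Nat.mul_le_mul_left _ (Nat.mul_le_mul (Nat.pow_le_pow_left b2.le _) b5.2)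
    have e2 : 0 + (ht u - k * H) + k * H = ht u := by omega
    have key : ∀ b, Gd (u.length ^ 2) (6 * T) (hiSig (cmp (hiRd (6 * T) fun _ => H) k ω.1
        (hiRd (6 * T) (fun u => ht u - k * H) ω.2 fun _ => b)) u) (ht u) b [] := fun b => by
      rw [← e2] at b6
      have := hi_rounds h4 ⟨b1, b2⟩ k ω.1 b4.1 b6
        (hi_round h4 (η := fun u => ht u - k * H) ω.2
          (fun i => by_contra fun b7 => b4.2 ⟨i, b7⟩) ⟨b1, b2⟩ (b := b) (z := fun _ => b)
          (le_trans (Nat.mul_le_mul_left _ (by omega)) b6) (dif_pos ⟨⟨b1, b2⟩, by simp⟩))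
      rwa [e2] at this
    refine ⟨h4.1 _ _ _ _ _ (key true), (h4.2.1 _ _ _ _ _ (key false)).trans ?_⟩
    have b7 : (ht u : ℝ) ≤ T := by exact_mod_cast b5.2
    rw [div_le_iff₀ (by positivity)]
    push_cast
    linarith
  · refine Or.inl ⟨fun v => β v.1.1, fun _ => false, fun b2 => b1 (Eq.trans ?_ b2)⟩
    congr 1
    funext u t
    simp only [hiSig]
    split_ifs with h
    · exact hi_loc' k _ fun _ e => hi_loc _ fun v e' => by rw [e', e]
    · rfl

end Pool.Agent.MP_a2d820_lc.h17
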