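import Pool.Agent.MP_a2d820_lc.h17.Spec

/-! The numbers of one stage. -/

set_option autoImplicit false

namespace Pool.Agent.MP_a2d820_lc.h17

theorem nu_six {T a : ℕ} (hT : T ≤ 2 ^ a) : 6 * T + 1 ≤ 2 ^ (a + 3) := by
  have h : 1 ≤ 2 ^ a := Nat.one_le_two_pow
  rw [pow_add]
  omega

theorem nu_one {n T k a : ℕ} (hT : T ≤ 2 ^ a) (h : 16 * ((k + 2) * (a + 2)) ≤ n) :
    36 * ((2 ^ a * 2 ^ a) ^ k * 2 ^ a) ^ 2 * ((6 * T + 1) * ((2 ^ a * 2 ^ a) ^ k * 2 ^ a)) ^ n *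
      2 ^ ((k + 6) * n) ≤ 2 ^ n ^ 2 := by
  have e : (2 ^ a * 2 ^ a) ^ k * 2 ^ a = 2 ^ (2 * (k * a) + a) := by
    rw [← pow_add, ← pow_mul, ← pow_add]
    exact congrArg (2 ^ ·) (by ring)
  rw [e]
  have h1 : 16 * (k * a + 2 * k + 2 * a + 4) ≤ n := by
    refine le_trans (le_of_eq ?_) h
    ring
  generalize k * a = m at h1 ⊢
  have h2 : ((6 * T + 1) * 2 ^ (2 * m + a)) ^ n ≤ 2 ^ ((2 * m + 2 * a + 3) * n) := by
    rw [pow_mul]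
    refine Nat.pow_le_pow_left ?_ n
    calc (6 * T + 1) * 2 ^ (2 * m + a) ≤ 2 ^ (a + 3) * 2 ^ (2 * m + a) :=
          Nat.mul_le_mul_right _ (nu_six hT)
      _ = _ := by rw [← pow_add]; exact congrArg (2 ^ ·) (by ring)
  calc 36 * (2 ^ (2 * m + a)) ^ 2 * ((6 * T + 1) * 2 ^ (2 * m + a)) ^ n * 2 ^ ((k + 6) * n)
      ≤ 2 ^ 6 * (2 ^ (2 * m + a)) ^ 2 * 2 ^ ((2 * m + 2 * a + 3) * n) * 2 ^ ((k + 6) * n) :=
        Nat.mul_le_mul_right _ (Nat.mul_le_mul (Nat.mul_le_mul_right _ (by norm_num)) h2)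
    _ = 2 ^ (6 + (2 * m + a) * 2 + (2 * m + 2 * a + 3) * n + (k + 6) * n) := by
        rw [← pow_mul, ← pow_add, ← pow_add, ← pow_add]
    _ ≤ 2 ^ n ^ 2 := by
        refine Nat.pow_le_pow_right (by norm_num) ?_
        have h3 : 6 + (2 * m + a) * 2 ≤ n := by omega
        have h4 : (1 + (2 * m + 2 * a + 3) + (k + 6)) * n ≤ n * n :=
          Nat.mul_le_mul_right _ (by omega)
        nlinarith

theorem nu_two {n T k a : ℕ} (hT : T ≤ 2 ^ a) (hn : n ≤ T) (h : 16 * ((k + 2) * (a + 2)) ≤ n) :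
    (2 * T + 4 * T ^ 3 + 2 + (k + 6) * n) * (3 * (6 * T + 1)) ≤ 2 ^ n ^ 2 := by
  have h1 : 16 * (k * a + 2 * k + 2 * a + 4) ≤ n := by
    refine le_trans (le_of_eq ?_) h
    ring
  have h2 : (k + 6) * n ≤ T * T := Nat.mul_le_mul (by omega) hn
  have h3 : 1 ≤ T := by omega
  have h4 : T * T ≤ T ^ 3 := by
    rw [← pow_two]; exact Nat.pow_le_pow_right h3 (by norm_num)
  have h5 : T ≤ T * T := Nat.le_mul_self T
  have h6 : T ^ 3 ≤ 2 ^ (a * 3) := by rw [pow_mul]; exact Nat.pow_le_pow_left hT 3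
  have h7 : 2 * T + 4 * T ^ 3 + 2 + (k + 6) * n ≤ 2 ^ (a * 3 + 4) := by
    rw [pow_add]; omega
  have h8 : 3 * (6 * T + 1) ≤ 2 ^ (a + 3 + 2) := by
    have := nu_six hT
    rw [pow_add (2 : ℕ) (a + 3) 2]; omega
  calc (2 * T + 4 * T ^ 3 + 2 + (k + 6) * n) * (3 * (6 * T + 1))
      ≤ 2 ^ (a * 3 + 4) * 2 ^ (a + 3 + 2) := Nat.mul_le_mul h7 h8
    _ = 2 ^ (a * 3 + 4 + (a + 3 + 2)) := by rw [← pow_add]
    _ ≤ 2 ^ n ^ 2 := by
        refine Nat.pow_le_pow_right (by norm_num) ?_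
        have h9 : n ≤ n ^ 2 := Nat.le_self_pow (by norm_num) n
        omega

theorem nu_exp (m : ℕ) : (2 : ℝ) ^ m ≤ Real.exp m := by
  rw [← Real.exp_one_pow]
  refine pow_le_pow_left₀ (by norm_num) ?_ m
  have := Real.add_one_le_exp (1 : ℝ)
  linarith

theorem numS : NumStmt := by
  intro n T k a hT hn h
  have hp : (0 : ℝ) < 2 ^ ((k + 6) * n) := by positivity
  constructor
  · have h1 : (36 * ((2 ^ a * 2 ^ a) ^ k * 2 ^ a) ^ 2 *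
        ((6 * T + 1) * ((2 ^ a * 2 ^ a) ^ k * 2 ^ a)) ^ n * 2 ^ ((k + 6) * n) : ℝ) ≤ 2 ^ n ^ 2 := by
      exact_mod_cast nu_one hT h
    rw [one_div, inv_pow, inv_mul_eq_div, le_div_iff₀ hp]
    exact h1
  · have h1 : (((2 * T + 4 * T ^ 3 + 2 + (k + 6) * n : ℕ) : ℝ)) * (3 * (6 * T + 1)) ≤ 2 ^ n ^ 2 := by
      exact_mod_cast nu_two hT hn h
    have h2 : (((2 * T + 4 * T ^ 3 + 2 + (k + 6) * n : ℕ) : ℝ)) ≤
        2 ^ n ^ 2 / (3 * (6 * T + 1)) := (le_div_iff₀ (by positivity)).2 h1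
    have h3 := (nu_exp _).trans (Real.exp_le_exp.2 h2)
    have e : (2 : ℝ) ^ (T + 2 * T ^ 3 + 2) * (2 * 4 ^ T ^ 2) ^ T * 2 ^ ((k + 6) * n) =
        2 ^ (2 * T + 4 * T ^ 3 + 2 + (k + 6) * n) := by
      rw [show (4 : ℝ) = 2 ^ 2 by norm_num, ← pow_mul, ← pow_succ', ← pow_mul, ← pow_add,
        ← pow_add]
      exact congrArg ((2 : ℝ) ^ ·) (by ring)
    rw [one_div, inv_pow, Real.exp_neg, ← div_eq_mul_inv, div_le_iff₀ (Real.exp_pos _),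
      inv_mul_eq_div, le_div_iff₀ hp, e]
    exact h3

end Pool.Agent.MP_a2d820_lc.h17
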