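import Pool.Agent.MP_a2d820_lc.h17.Spec

set_option autoImplicit false

namespace Pool.Agent.MP_a2d820_lc.h17

open Pool.Agent.MP_a2d820_lc.h69 Function Finset

theorem rn_fib {A W : Type} [Fintype A] [Fintype W] (B : Finset (A × W)) (P : A → Prop)
    {x y : ℝ} (hy : 0 ≤ y)
    (h1 : ∀ B' : Finset A, (∀ a ∈ B', P a) → (B'.card : ℝ) ≤ x * Fintype.card A)
    (h2 : ∀ a, ¬P a → ∀ B' : Finset W, (∀ ω ∈ B', (a, ω) ∈ B) →
      (B'.card : ℝ) ≤ y * Fintype.card W) :
    (B.card : ℝ) ≤ (x + y) * Fintype.card (A × W) := by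
  classical
  have e1 : B.card = ∑ a : A, #{ω : W | (a, ω) ∈ B} := by
    simp only [card_filter]
    rw [← Fintype.sum_prod_type' (f := fun a ω => if (a, ω) ∈ B then 1 else 0)]
    simp
  have e2 : ∀ a : A, (#{ω : W | (a, ω) ∈ B} : ℝ) ≤
      (if P a then (1 : ℝ) else 0) * Fintype.card W + y * Fintype.card W := by
    intro a
    split_ifs with h
    · have a1 : (#{ω : W | (a, ω) ∈ B} : ℝ) ≤ Fintype.card W := by
        exact_mod_cast card_le_univ _
      have a2 : 0 ≤ y * Fintype.card W := by positivity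
      linarith
    · have := h2 a h _ fun ω hω => (mem_filter.1 (show ω ∈ ({ω : W | (a, ω) ∈ B} : Finset W) from hω)).2
      linarith
  have e3 : ∑ a : A, (if P a then (1 : ℝ) else 0) ≤ x * Fintype.card A := by
    rw [sum_boole]
    exact h1 _ fun a ha => (mem_filter.1 ha).2
  rw [e1, Nat.cast_sum]
  refine (sum_le_sum fun a _ => e2 a).trans ?_
  rw [sum_add_distrib, ← sum_mul, sum_const, card_univ, nsmul_eq_mul, Fintype.card_prod]
  push_cast
  have := mul_le_mul_of_nonneg_right e3 (show (0 : ℝ) ≤ Fintype.card W by positivity)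
  linarith

theorem rn_cmp {V W : Type} {ρ : W → (V → Bool) → V → Bool} (h : ∀ ω v, DT 1 fun b => ρ ω b v) :
    ∀ (k : ℕ) (a : Pw W k) (v : V), DT 1 fun z => cmp ρ k a z v
  | 0, _, v => dt_var v
  | k + 1, a, v => dt_comp (rn_cmp h k a.1 v) (h a.2)

theorem rn_const {V : Type} {Q : Set ((V → Bool) → Bool)} {d : ℕ} {f : (V → Bool) → Bool}
    (h : DTq Q d f) (hd : d = 0) (z z' : V → Bool) : f z = f z' := by
  cases h with
  | const d b => rfl
  | node _ _ _ => omega

theorem rn_red {V W : Type} [Fintype V] [DecidableEq V] [Fintype W]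
    {ρ : W → (V → Bool) → V → Bool} {w N s Wd : ℕ} {α : ℝ} (hw : 1 ≤ w) (hs : 1 ≤ s)
    (hN : N ≤ 2 ^ s) (h0 : 0 ≤ α) (h2 : α ≤ 1 / 2) (hR : Round ρ Wd α) (k : ℕ)
    (ht : (s * w) ^ k * w ≤ Wd) (F : Finset ((V → Bool) → Bool)) (hF : F.card ≤ N)
    (hAC : AC w N k (F : Set ((V → Bool) → Bool))) (B : Finset (Pw W k))
    (hB : ∀ a ∈ B, ∃ f ∈ F, ¬DT ((s * w) ^ k * w) (f ∘ cmp ρ k a)) :
    (B.card : ℝ) ≤ k * α * Fintype.card (Pw W k) := by
  classical
  induction k generalizing F with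
  | zero =>
    have : B = ∅ := eq_empty_of_forall_notMem fun a ha => by
      obtain ⟨f, hf, h⟩ := hB a ha
      exact h (by simpa using dt_comp (hAC f hf) (rn_cmp hR.1 0 a))
    simp [this]
  | succ k ih =>
    obtain ⟨G, hG, hGAC, hor⟩ := hAC
    have hpos : 1 ≤ (s * w) ^ k * w := Nat.mul_pos (Nat.pow_pos (Nat.mul_pos hs hw)) hw
    have he : (s * w) ^ (k + 1) * w = s * (w * ((s * w) ^ k * w)) := by ring
    have hle : w * ((s * w) ^ k * w) ≤ (s * w) ^ (k + 1) * w := by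
      rw [he]; exact Nat.le_mul_of_pos_left _ hs
    have hle' : (s * w) ^ k * w ≤ w * ((s * w) ^ k * w) := Nat.le_mul_of_pos_left _ hw
    have key := rn_fib (A := Pw W k) (W := W) B
      (fun a => ∃ g ∈ G, ¬DT ((s * w) ^ k * w) (g ∘ cmp ρ k a)) (x := k * α) h0
      (fun B' hB' => ih (by omega) G hG hGAC B' hB') ?_
    · have e : Fintype.card (Pw W (k + 1)) = Fintype.card (Pw W k × W) :=
        Fintype.card_congr (Equiv.refl _)
      refine le_trans key (le_of_eq ?_)
      rw [e]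
      push_cast
      ring
    intro a ha B' hB'
    have h3 : ∀ g ∈ G, DT ((s * w) ^ k * w) (g ∘ cmp ρ k a) := fun g hg => by
      by_contra hc
      exact ha ⟨g, hg, hc⟩
    have h4 : ∀ f ∈ F, ∃ L : List (Term V), (∀ C ∈ L, C.1.card ≤ w * ((s * w) ^ k * w)) ∧
        ∀ z, L.any (sat z) = f (cmp ρ k a z) := by
      intro f hf
      obtain ⟨H, hH, hfH⟩ := hor f hf
      refine exists_dnf (G := (· ∘ cmp ρ k a) '' H) ?_ fun z => ?_
      · rintro _ ⟨g, hg, rfl⟩
        refine ((hH g hg).precomp (Q' := {g | DT ((s * w) ^ k * w) g}) (cmp ρ k a) ?_).comp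
          fun g hg => hg
        rintro q (hq | hq)
        · exact h3 q hq
        · exact (dt_comp hq (rn_cmp hR.1 k a)).mono hpos
      · rw [hfH]
        simp
    choose! L hL1 hL2 using h4
    have hsub : B' ⊆ F.biUnion fun f =>
        {ω : W | ¬DT (s * (w * ((s * w) ^ k * w))) fun b => (L f).any (sat (ρ ω b))} := by
      intro ω hω
      obtain ⟨f, hf, h⟩ := hB (a, ω) (hB' ω hω)
      refine mem_biUnion.2 ⟨f, hf, mem_filter.2 ⟨mem_univ _, fun hc => h ?_⟩⟩
      rw [he]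
      exact hc.congr fun z => hL2 f hf _
    have h6 := (card_le_card hsub).trans card_biUnion_le
    have h7 : ∀ f ∈ F,
        (#{ω : W | ¬DT (s * (w * ((s * w) ^ k * w))) fun b => (L f).any (sat (ρ ω b))} : ℝ) ≤
          α ^ (s + 1) * Fintype.card W := fun f hf =>
      hR.2 _ (by omega) (L f) (hL1 f hf) s _ fun ω hω => (mem_filter.1 hω).2
    have h8 := sum_le_card_nsmul _ _ _ h7
    have h9 : (B'.card : ℝ) ≤ ∑ f ∈ F,
        (#{ω : W | ¬DT (s * (w * ((s * w) ^ k * w))) fun b => (L f).any (sat (ρ ω b))} : ℝ) := by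
      exact_mod_cast h6
    have h11 : (F.card : ℝ) ≤ 2 ^ s := by exact_mod_cast hF.trans hN
    have h12 : (F.card : ℝ) * α ^ s ≤ 1 := by
      calc (F.card : ℝ) * α ^ s ≤ 2 ^ s * (1 / 2) ^ s := by gcongr
        _ = 1 := by rw [← mul_pow]; norm_num
    rw [nsmul_eq_mul] at h8
    calc (B'.card : ℝ) ≤ F.card * (α ^ (s + 1) * Fintype.card W) := h9.trans h8
      _ = F.card * α ^ s * (α * Fintype.card W) := by ring
      _ ≤ 1 * (α * Fintype.card W) := by gcongr
      _ = _ := one_mul _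

theorem rndS : RndStmt := by
  intro V W W' _ _ _ _ ρ ρ' w N s k α hw hs hN1 hN h0 h2 hR hR' f hf B hB
  have key := rn_fib B (fun a => ¬DT ((s * w) ^ k * w) (f ∘ cmp ρ k a)) (x := k * α) h0
    (fun B' hB' => rn_red hw hs hN h0 h2 hR k le_rfl {f} (by simpa using hN1) (by simpa using hf) B'
      fun a ha => ⟨f, mem_singleton_self f, hB' a ha⟩) ?_
  · linarith
  intro a ha B' hB'
  rw [not_not] at ha
  obtain ⟨L, hL1, hL2⟩ := exists_dnf (f := f ∘ cmp ρ k a) (G := {f ∘ cmp ρ k a})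
    (fun g hg => by rw [hg]; exact ha) fun z => by simp
  have := hR'.2 _ le_rfl L hL1 0 B' fun ω hω hc => by
    obtain ⟨b, b', h⟩ := hB (a, ω) (hB' ω hω)
    have := rn_const hc (Nat.zero_mul _) b b'
    simp only [hL2] at this
    exact h this
  simpa using this

end Pool.Agent.MP_a2d820_lc.h17
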