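import Pool.Agent.MP_a2d820_lc.h17.Spec

/-!
Project IP: one stage of the construction.
-/

set_option autoImplicit false

namespace Pool.Agent.MP_a2d820_lc.h17

open Pool.Agent.MP_a2d820_lc.h69 Pool.Agent.PolyT Pool.Agent.H82 N487b59b3 Function Finset

/-- The heights of the trees. -/
theorem st_ht (r : ℕ → ℕ) (c T : ℕ) (hc : c ≤ T) :
    ∃ ht : List Bool → ℕ, (∀ u, c ≤ ht u ∧ ht u ≤ T) ∧ ∀ (i : ℕ) (x y : List Bool),
      c ≤ r x.length → r x.length ≤ T → ht (true :: bitEncode (i, x, y)) = r x.length := by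
  classical
  let g : ℕ × List Bool × List Bool → List Bool := fun p => true :: bitEncode p
  have hg : Injective g := fun p q h => bitEncode_injective (List.cons.inj h).2
  refine ⟨extend g (fun p => if c ≤ r p.2.1.length ∧ r p.2.1.length ≤ T then r p.2.1.length else c)
    fun _ => c, fun u => ?_, fun i x y h1 h2 => ?_⟩
  · by_cases h : ∃ p, g p = u
    · obtain ⟨p, rfl⟩ := h
      rw [hg.extend_apply]
      split_ifs with h
      · exact h
      · exact ⟨le_rfl, hc⟩
    · rw [extend_apply' _ _ _ h]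
      exact ⟨le_rfl, hc⟩
  · exact (hg.extend_apply _ _ (i, x, y)).trans (if_pos ⟨h1, h2⟩)

open Classical in
/-- The oracle with background `θ`, short rows as in `O` and long rows read from `tb`. -/
noncomputable def st_psi (n : ℕ) (O θ : Lang) (tb : List Bool → Lang) : Lang := fun s =>
  if ∃ u t, s = ad u t 1 then (if n ≤ (row s).length then tb (row s) (mid s) else O s) else θ s

theorem st_dt {V : Type} (n : ℕ) (O : Lang) (θ : (V → Bool) → Lang)
    (tb : (V → Bool) → List Bool → Lang) (h1 : ∀ s, DT 1 fun z => θ z s)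
    (h2 : ∀ u t, DT 1 fun z => tb z u t) (s : List Bool) :
    DT 1 fun z => st_psi n O (θ z) (tb z) s := by
  unfold st_psi
  by_cases c1 : ∃ u t, s = ad u t 1
  · by_cases c2 : n ≤ (row s).length
    · exact (h2 (row s) (mid s)).congr fun z => by rw [if_pos c1, if_pos c2]
    · exact (DTq.const 1 (O s)).congr fun z => by rw [if_pos c1, if_neg c2]
  · exact (h1 s).congr fun z => by rw [if_neg c1]

theorem st_ext {V : Type} {bp : V → List Bool} (hbp : Injective bp) (θ : Lang) (s : List Bool) :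
    DT 1 fun z : V → Bool => extend bp z θ s := by
  by_cases h : ∃ v, bp v = s
  · obtain ⟨v, rfl⟩ := h
    exact (dt_var v).congr fun y => (hbp.extend_apply _ _ v).symm
  · exact (DTq.const 1 _).congr fun y => (extend_apply' _ _ _ h).symm

theorem st_orc (mc : ℕ → OM) {n T : ℕ} {θ θ' : Lang} {ξ ξ' X : List Bool → Bool → Lang}
    (h : Agr n θ ξ θ' ξ') (hX : ∀ u : List Bool, n ≤ u.length → u.length < T → ξ' u = X u)
    (s : List Bool) (hs : s.length < T) :
    orc mc θ' ξ' s = st_psi n (orc mc θ ξ) θ' (fun u => X u (ans mc u (orc mc θ' ξ'))) s := by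
  unfold st_psi
  by_cases c1 : ∃ u t, s = ad u t 1
  · rw [if_pos c1]
    obtain ⟨u, t, rfl⟩ := c1
    have h1 := le_length_ad u t 1
    rw [row_ad, mid_ad, orc_code]
    by_cases c2 : n ≤ u.length
    · rw [if_pos c2, hX u c2 (by omega)]
    · rw [if_neg c2, orc_code, h.2 u (by omega),
        ans_loc mc u fun v hv => h.orc mc v (by omega)]
  · rw [if_neg c1, orc_base _ _ _ c1]

theorem st_num {k n c b W : ℕ} (hk : 16 * (k + 1) ≤ n) (hc : c < 2 ^ ((k + 3) * n + 1))
    (hb : (b : ℝ) ≤ 2 * (k + 1) * (1 / 2) ^ ((k + 6) * n) * W) : b * (4 * (c + 1)) ≤ W := by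
  have h1 : 8 * (k + 1) * (c + 1) ≤ 2 ^ ((k + 6) * n) := by
    have h2 : n < 2 ^ n := Nat.lt_two_pow_self
    have h3 : 2 ^ n ≤ 2 ^ (3 * n) := Nat.pow_le_pow_right two_pos (by omega)
    rw [show (k + 6) * n = 3 * n + (k + 3) * n by ring, pow_add]
    rw [pow_succ] at hc
    calc 8 * (k + 1) * (c + 1) ≤ 8 * (k + 1) * (2 ^ ((k + 3) * n) * 2) :=
          Nat.mul_le_mul_left _ hc
      _ = 16 * (k + 1) * 2 ^ ((k + 3) * n) := by ring
      _ ≤ _ := Nat.mul_le_mul_right _ (by omega)
  have h2 : (8 * (k + 1) * (c + 1) : ℝ) ≤ 2 ^ ((k + 6) * n) := by exact_mod_cast h1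
  have h3 : (0 : ℝ) < 2 ^ ((k + 6) * n) := by positivity
  have h4 : (8 * (k + 1) * (c + 1) : ℝ) * (1 / 2) ^ ((k + 6) * n) ≤ 1 := by
    rw [one_div, inv_pow, ← div_eq_mul_inv, div_le_one h3]
    exact h2
  have h5 : (b * (4 * (c + 1)) : ℝ) ≤ W :=
    calc (b * (4 * (c + 1)) : ℝ)
        ≤ 2 * (k + 1) * (1 / 2) ^ ((k + 6) * n) * W * (4 * (c + 1)) :=
          mul_le_mul_of_nonneg_right hb (by positivity)
      _ = 8 * (k + 1) * (c + 1) * (1 / 2) ^ ((k + 6) * n) * W := by ring
      _ ≤ 1 * W := mul_le_mul_of_nonneg_right h4 (by positivity)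
      _ = W := one_mul _
  exact_mod_cast h5

theorem stageS (h1 : HideStmt) (h2 : AmpStmt) (h3 : NumStmt) : StageStmt := by
  intro r mc V _ _ f G x e k B a H hr he hloc hAC hG hB hx hV hkB hn hH hrH θ ξ hok hard
  classical
  set n := x.length with hnx
  have p2 : ∀ {b c : ℕ}, b ≤ c → 2 ^ b ≤ 2 ^ c := fun h => Nat.pow_le_pow_right two_pos h
  have hk : 16 * (k + 1) ≤ n := le_trans (by nlinarith [Nat.zero_le (k * a)]) hn
  have hc : (k + 1) * H ≤ B + 1 :=
    ((hrH n Nat.lt_two_pow_self.le).trans (hr n)).trans (by omega)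
  obtain ⟨ht, ht1, ht2⟩ := st_ht r ((k + 1) * H) (B + 1) hc
  have hH1 : 1 ≤ H := by
    rcases Nat.eq_zero_or_pos H with rfl | h
    · have h4 : 2 ^ a ≤ 2 ^ ((2 * k + 1) * a) := p2 (by nlinarith [Nat.zero_le (k * a)])
      rw [pow_zero] at hH
      omega
    · exact h
  have hw : (2 ^ a * 2 ^ a) ^ k * 2 ^ a < (n + 1) ^ H := by
    rw [← pow_add, ← pow_mul, ← pow_add, show (a + a) * k + a = (2 * k + 1) * a by ring]
    exact hH.trans_lt (Nat.pow_lt_pow_left (by omega) (by omega))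
  have hα : ((1 : ℝ) / 2) ^ ((k + 6) * n) ≤ 1 / 2 :=
    pow_le_of_le_one (by norm_num) (by norm_num) (Nat.mul_ne_zero (by omega) (by omega))
  obtain ⟨n1, n2⟩ := h3 n (B + 1) k a hB.le (by omega) hn
  obtain ⟨W, _, _, X, hide⟩ := h1 n (B + 1) k H (2 ^ a) (2 ^ a) (2 ^ B) n ht
    ((1 / 2) ^ ((k + 6) * n)) Nat.one_le_two_pow Nat.one_le_two_pow Nat.one_le_two_pow
    (p2 (by omega)) hH1 hw hα (by exact_mod_cast n1) n2 ht1
  let bp : V → List Bool := fun v => ad x (e v) 0
  have hbp : Injective bp := fun v v' h => he (ad_inj h).2.1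
  let ξw : W → List Bool → Bool → Lang := fun ω u =>
    if n ≤ u.length ∧ u.length < B + 1 then X ω u else ξ u
  have hag : ∀ z ω, Agr n θ ξ (extend bp z θ) (ξw ω) := fun z ω =>
    ⟨fun s hs => (extend_apply' _ _ _ fun ⟨v, h⟩ => by
      have := le_length_ad x (e v) 0
      rw [← h] at hs
      exact absurd hs (not_lt.2 this)).symm, fun u hu => by
        simp only [ξw, if_neg (show ¬(n ≤ u.length ∧ u.length < B + 1) by omega)]⟩
  have hf : ∀ z ω, f (orc mc (extend bp z θ) (ξw ω)) = f (st_psi n (orc mc θ ξ) (extend bp z θ)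
      fun u => X ω u (ans mc u (orc mc (extend bp z θ) (ξw ω)))) := fun z ω =>
    hloc _ _ fun s hs => st_orc mc (T := B + 1) (hag z ω)
      (fun u c1 c2 => if_pos ⟨c1, c2⟩) s (by omega)
  obtain ⟨z, ω, hω, hz⟩ : ∃ z ω, (∀ u : List Bool, n ≤ u.length → u.length < B + 1 →
      Okr (X ω u) (u.length ^ 2) (ht u)) ∧
      f (orc mc (extend bp z θ) (ξw ω)) ≠ G (extend bp z θ) := by
    by_contra hcon
    push Not at hcon
    refine hard (h31u.ac_up (h2 V W
      (fun ω z => f (st_psi n (orc mc θ ξ) (extend bp z θ) fun u => X ω u false))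
      (fun z => G (extend bp z θ)) (2 ^ a) (2 ^ B) k Nat.one_le_two_pow Nat.one_le_two_pow
      (fun ω => h31u.ac_up (hAC V _ (st_dt n _ _ _ (st_ext hbp θ) fun u t => DTq.const 1 _))
        (by omega) le_rfl) fun z => ?_) (p2 (by omega)) ?_)
    · refine st_num hk hV (hide (fun tb => f (st_psi n (orc mc θ ξ) (extend bp z θ) tb))
        (fun V' σ hσ => h31u.ac_up (hAC V' _ (st_dt n _ _ _ (fun s => DTq.const 1 _) hσ))
          (by omega) le_rfl) _ fun ω hω => ?_)
      by_cases hv : ∀ u : List Bool, n ≤ u.length → u.length < B + 1 →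
          Okr (X ω u) (u.length ^ 2) (ht u)
      · refine Or.inr ⟨fun u => ans mc u (orc mc (extend bp z θ) (ξw ω)), fun h => ?_⟩
        exact (mem_filter.1 hω).2 (h.symm.trans ((hf z ω).symm.trans (hcon z ω hv)))
      · push Not at hv
        exact Or.inl hv
    · have h4 : Fintype.card V + 1 ≤ 2 ^ B := (Nat.succ_le_of_lt hV).trans (p2 hkB)
      refine (Nat.mul_le_mul_right _ (Nat.pow_le_pow_left h4 2)).trans ?_
      rw [← pow_mul, ← pow_add]
      exact p2 (by omega)
  refine ⟨_, _, fun i y y' u hu hl => ?_, hag z ω, fun θ'' ξ'' h => ?_⟩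
  · by_cases c : n ≤ u.length ∧ u.length < B + 1
    · have h4 : y.length ≤ u.length := by
        rw [hu]
        simp only [List.length_cons, length_enc_pair, PolyT.Poly.enc_bools_length]
        omega
      have h5 := hω u c.1 c.2
      have h6 := hr y.length
      rw [show ht u = r y.length from hu ▸ ht2 i y y' (hrH _ (c.1.trans hl)) (by omega)] at h5
      simpa only [ξw, if_pos c] using h5
    · simpa only [ξw, if_neg c] using hok i y y' u hu hl
  · rwa [← hloc _ _ fun v hv => h.orc mc v (by omega),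
      ← hG (extend bp z θ) _ fun i hi => (orc_row mc _ _ x i).symm.trans (h.orc mc _ (by omega))]

end Pool.Agent.MP_a2d820_lc.h17
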