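import Pool.Agent.MP_a2d820_lc.h17.Spec

/-!
The switching lemma for gadgets.
-/

set_option autoImplicit false

namespace Pool.Agent.MP_a2d820_lc.h17

open Pool.Agent.MP_a2d820_lc.h69 Function Finset

namespace Sw

variable {V P : Type} [Fintype V] [DecidableEq V] {Ω : V → Type} (blk : V → V) (loc : V → P)
  (X : ∀ i, Ω i → Bool → P → Bool) (Mix : ∀ i, Ω i → (P → Bool) → Prop)

open Classical in
/-- The demands of a term on a block. -/
noncomputable def dem (C : Term V) (i : V) : Finset (P × Bool) :=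
  (C.1.filter (blk · = i)).image fun v => (loc v, C.2 v)

/-- The term can be met by mixtures on the blocks that are not assigned. -/
def Lv (L : Finset V) (β : V → Bool) (ω : ∀ i, Ω i) (C : Term V) : Prop :=
  ∀ i, (i ∈ L → Cons (X i (ω i) (β i)) (dem blk loc C i)) ∧
    (i ∉ L → ∃ u, Mix i (ω i) u ∧ Cons u (dem blk loc C i))

open Classical in
/-- The blocks that are not assigned and matter for the term. -/
noncomputable def tch (L : Finset V) (ω : ∀ i, Ω i) (C : Term V) : Finset V :=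
  {i | i ∉ L ∧ ∃ d ∈ dem blk loc C i, X i (ω i) false d.1 ≠ X i (ω i) true d.1}

open Classical in
/-- The canonical tree has a branch through `s` terms. -/
def Bad (F : List (Term V)) : ℕ → Finset V → (V → Bool) → (∀ i, Ω i) → Prop
  | 0, _, _, _ => True
  | s + 1, L, β, ω => ∃ C, F.find? (fun C => decide (Lv blk loc X Mix L β ω C)) = some C ∧
      (tch blk loc X L ω C).Nonempty ∧ ∃ β', Bad F s (L ∪ tch blk loc X L ω C)
        ((tch blk loc X L ω C).piecewise β' β) ω

variable {blk loc X Mix}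

omit [Fintype V] in
theorem card_dem (C : Term V) (i : V) : (dem blk loc C i).card ≤ C.1.card := by
  classical
  unfold dem
  convert card_image_le.trans (card_filter_le _ _)

omit [Fintype V] in
theorem sat_iff (ω : ∀ i, Ω i) (b : V → Bool) (C : Term V) :
    sat (prj blk loc X ω b) C = true ↔ ∀ i, Cons (X i (ω i) (b i)) (dem blk loc C i) := by
  simp only [sat, decide_eq_true_eq, Cons, dem, mem_image, mem_filter, prj]
  constructor
  · rintro h i _ ⟨v, ⟨h1, rfl⟩, rfl⟩
    exact h v h1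
  · exact fun h v hv => h _ _ ⟨v, ⟨hv, rfl⟩, rfl⟩

theorem mem_tch {L : Finset V} {ω : ∀ i, Ω i} {C : Term V} {i : V} : i ∈ tch blk loc X L ω C ↔
    i ∉ L ∧ ∃ d ∈ dem blk loc C i, X i (ω i) false d.1 ≠ X i (ω i) true d.1 := by
  simp [tch]

theorem tch_sub (L : Finset V) (ω : ∀ i, Ω i) (C : Term V) :
    tch blk loc X L ω C ⊆ C.1.image blk := by
  intro i hi
  obtain ⟨-, d, hd, -⟩ := mem_tch.1 hi
  simp only [dem, mem_image, mem_filter] at hd
  obtain ⟨v, ⟨h1, h2⟩, -⟩ := hd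
  exact mem_image.2 ⟨v, h1, h2⟩

variable {w : ℕ} {θ : ℝ} {F : List (Term V)}

theorem cons_free (hG : ∀ i, Gad (X i) (Mix i) w θ) {L : Finset V} {β : V → Bool} {ω : ∀ i, Ω i}
    {C : Term V} (h : Lv blk loc X Mix L β ω C) {i : V} (h1 : i ∉ L)
    (h2 : i ∉ tch blk loc X L ω C) {u : P → Bool}
    (hu : ∀ p, X i (ω i) false p = X i (ω i) true p → u p = X i (ω i) false p) :
    Cons u (dem blk loc C i) := by
  intro d hd
  obtain ⟨u', a1, a2⟩ := (h i).2 h1
  have h3 : X i (ω i) false d.1 = X i (ω i) true d.1 := by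
    by_contra h3
    exact h2 (mem_tch.2 ⟨h1, d, hd, h3⟩)
  rw [hu _ h3, ← (hG i).m1 _ _ _ a1 h3, a2 d hd]

open Classical in
theorem dt_step (hG : ∀ i, Gad (X i) (Mix i) w θ) (hF : ∀ C ∈ F, C.1.card ≤ w) (ω : ∀ i, Ω i)
    (d : ℕ) (L : Finset V) (β : V → Bool)
    (h : ∀ C, F.find? (fun C => decide (Lv blk loc X Mix L β ω C)) = some C →
      (tch blk loc X L ω C).Nonempty →
      DT d fun b => F.any (sat (prj blk loc X ω (L.piecewise β b)))) :
    DT d fun b => F.any (sat (prj blk loc X ω (L.piecewise β b))) := by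
  rcases hC : F.find? (fun C => decide (Lv blk loc X Mix L β ω C)) with _ | C
  · refine (DTq.const _ false).congr fun b => (List.any_eq_false.2 fun C hC' hs => ?_).symm
    refine List.find?_eq_none.1 hC C hC' (decide_eq_true fun i => ⟨fun hi => ?_, fun hi => ?_⟩)
    · simpa [hi] using (sat_iff ω _ C).1 hs i
    · have h1 := (sat_iff ω _ C).1 hs i
      rcases hb : L.piecewise β b i with _ | _
      · exact ⟨_, (hG i).m0 _, hb ▸ h1⟩
      · exact (hG i).a1 _ _ ((card_dem C i).trans (hF C hC')) (hb ▸ h1)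
  by_cases hne : (tch blk loc X L ω C).Nonempty
  · exact h C hC hne
  have hl : Lv blk loc X Mix L β ω C := by simpa using List.find?_some hC
  refine (DTq.const _ true).congr fun b => (List.any_eq_true.2
    ⟨C, List.mem_of_find?_eq_some hC, (sat_iff ω _ C).2 fun i => ?_⟩).symm
  by_cases hi : i ∈ L
  · simpa [hi] using (hl i).1 hi
  · refine cons_free hG hl hi (fun h => hne ⟨i, h⟩) fun p hp => ?_
    cases L.piecewise β b i
    · rfl
    · exact hp.symm

theorem dt_of_not_bad (hG : ∀ i, Gad (X i) (Mix i) w θ) {w' : ℕ} (hw : w' ≤ w)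
    (hF : ∀ C ∈ F, C.1.card ≤ w') (ω : ∀ i, Ω i) (s : ℕ) (L : Finset V) (β : V → Bool)
    (h : ¬Bad blk loc X Mix F (s + 1) L β ω) :
    DT (s * w') fun b => F.any (sat (prj blk loc X ω (L.piecewise β b))) := by
  have hF' : ∀ C ∈ F, C.1.card ≤ w := fun C hC => (hF C hC).trans hw
  induction s generalizing L β with
  | zero => exact dt_step hG hF' ω _ L β fun C h1 h2 => absurd ⟨C, h1, h2, β, trivial⟩ h
  | succ s ih =>
    refine dt_step hG hF' ω _ L β fun C h1 h2 => ?_
    have h3 : (tch blk loc X L ω C).card ≤ w' := (card_le_card (tch_sub L ω C)).trans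
      (card_image_le.trans (hF C (List.mem_of_find?_eq_some h1)))
    refine (dt_query (tch blk loc X L ω C) (d := s * w') fun π => ?_).mono
      (by rw [Nat.succ_mul]; omega)
    refine (ih _ _ fun hb => h ⟨C, h1, h2, π, hb⟩).congr fun z => ?_
    congr 3
    funext v
    by_cases c1 : v ∈ tch blk loc X L ω C
    · simp [c1, (mem_tch.1 c1).1]
    · by_cases c2 : v ∈ L <;> simp [c1, c2]

/-- The neighbours of a sample. -/
def Nb (X : ∀ i, Ω i → Bool → P → Bool) (Mix : ∀ i, Ω i → (P → Bool) → Prop) (L : Finset V)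
    (ω ω' : ∀ i, Ω i) : Prop :=
  (∀ i ∈ L, ω' i = ω i) ∧ ∀ i, i ∉ L → Mix i (ω i) (X i (ω' i) false)

open Classical in
theorem one_term [∀ i, Fintype (Ω i)] (hH : HallStmt) (hG : ∀ i, Gad (X i) (Mix i) w θ)
    (hθ : 0 ≤ θ) {a : ℝ} (ha : 0 ≤ a) {L T : Finset V} {β : V → Bool} {C : Term V}
    (hw : C.1.card ≤ w) {S : (∀ i, Ω i) → Prop} (hS : Hall S (Nb X Mix (L ∪ T)) a)
    (B N : Finset (∀ i, Ω i)) (hB : ∀ ω ∈ B, S ω ∧ tch blk loc X L ω C = T ∧
      F.find? (fun C => decide (Lv blk loc X Mix L β ω C)) = some C)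
    (hN : ∀ ω ∈ B, ∀ ω', Nb X Mix L ω ω' → ω' ∈ N) :
    (B.card : ℝ) ≤ a * (θ ^ T.card * #{ω ∈ N | F.find? (sat (prj blk loc X ω
      (L.piecewise β fun _ => false))) = some C}) := by
  refine (hS B {ω₁ | ∃ ω ∈ B, Nb X Mix (L ∪ T) ω ω₁} (fun ω hω => (hB ω hω).1)
    fun ω hω ω₁ h => mem_filter.2 ⟨mem_univ _, ω, hω, h⟩).trans
      (mul_le_mul_of_nonneg_left ?_ ha)
  rw [← prod_const]
  refine hH V Ω _ _ (fun _ => θ) T (fun _ _ => hθ)
    (fun i _ => (hG i).a2 (dem blk loc C i) ((card_dem C i).trans hw)) _ _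
    (fun ω₁ h₁ i hi => ?_) fun ω₁ h₁ ω₂ h₂ => ?_
  · obtain ⟨ω, hω, h1, -⟩ := (mem_filter.1 h₁).2
    obtain ⟨-, rfl, h3⟩ := hB ω hω
    have hl : Lv blk loc X Mix L β ω C := by simpa using List.find?_some h3
    rw [h1 i (mem_union_right _ hi)]
    exact ⟨(mem_tch.1 hi).2, (hl i).2 (mem_tch.1 hi).1⟩
  obtain ⟨ω, hω, h1, h2⟩ := (mem_filter.1 h₁).2
  obtain ⟨-, rfl, h3⟩ := hB ω hω
  have hl : Lv blk loc X Mix L β ω C := by simpa using List.find?_some h3
  have e1 : ∀ i ∈ L, ω₂ i = ω i := fun i hi =>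
    (h₂.1 i fun h => (mem_tch.1 h).1 hi).trans (h1 i (mem_union_left _ hi))
  have e2 : ∀ i, i ∉ L → Mix i (ω i) (X i (ω₂ i) false) := by
    intro i hi
    by_cases c : i ∈ tch blk loc X L ω C
    · exact h1 i (mem_union_right _ c) ▸ (h₂.2 i c).1
    · exact h₂.1 i c ▸ h2 i (by simp [hi, c])
  refine mem_filter.2 ⟨hN ω hω ω₂ ⟨e1, e2⟩, ?_⟩
  rw [List.find?_eq_some_iff_append] at h3 ⊢
  obtain ⟨-, as, bs, e, h3⟩ := h3
  refine ⟨(sat_iff _ _ _).2 fun i => ?_, as, bs, e, fun C' hC' => ?_⟩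
  · by_cases hi : i ∈ L
    · simpa [hi, e1 i hi] using (hl i).1 hi
    rw [piecewise_eq_of_notMem _ _ _ hi]
    by_cases c : i ∈ tch blk loc X L ω C
    · exact (h₂.2 i c).2
    · exact cons_free hG hl hi c fun p hp => (hG i).m1 _ _ _ (e2 i hi) hp
  · have h4 := h3 C' hC'
    simp only [Bool.not_eq_true', decide_eq_false_iff_not] at h4 ⊢
    refine Bool.eq_false_iff.2 fun hs => h4 fun i => ⟨fun hi => ?_, fun hi => ⟨_, e2 i hi, ?_⟩⟩
    · simpa [hi, e1 i hi] using (sat_iff _ _ _).1 hs i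
    · simpa [hi] using (sat_iff _ _ _).1 hs i

theorem sum_sub (D : Finset V) {w : ℕ} (hD : D.card ≤ w) (hθ : 0 ≤ θ) :
    ∑ T ∈ D.powerset.erase ∅, ∑ _U ∈ T.powerset, θ ^ T.card ≤ (1 + 2 * θ) ^ w - 1 := by
  have h1 : ∀ T : Finset V, ∑ _U ∈ T.powerset, θ ^ T.card = (2 * θ) ^ T.card := fun T => by
    rw [sum_const, card_powerset, nsmul_eq_mul, mul_pow]
    norm_num
  have h2 := sum_erase_eq_sub (f := fun T : Finset V => (2 * θ) ^ T.card) (empty_mem_powerset D)
  have h3 : ∑ T ∈ D.powerset, (2 * θ) ^ T.card = (1 + 2 * θ) ^ D.card := by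
    rw [← prod_const, prod_one_add]
    simp
  have h4 : (1 + 2 * θ) ^ D.card ≤ (1 + 2 * θ) ^ w := pow_le_pow_right₀ (by linarith) hD
  rw [sum_congr rfl fun T _ => h1 T, h2, h3]
  simp only [card_empty, pow_zero]
  linarith

theorem hall_bad [∀ i, Fintype (Ω i)] (hH : HallStmt) (hG : ∀ i, Gad (X i) (Mix i) w θ)
    (hθ : 0 ≤ θ) {α : ℝ} (hα : (1 + 2 * θ) ^ w - 1 ≤ α) (hF : ∀ C ∈ F, C.1.card ≤ w) (s : ℕ)
    (L : Finset V) (β : V → Bool) :
    Hall (Bad blk loc X Mix F s L β) (Nb X Mix L) (α ^ s) := by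
  classical
  have h0 : 0 ≤ α := (sub_nonneg.2 (one_le_pow₀ (by linarith))).trans hα
  induction s generalizing L β with
  | zero =>
    intro B N _ hN
    rw [pow_zero, one_mul]
    exact_mod_cast card_le_card fun ω hω => hN ω hω ω ⟨fun _ _ => rfl, fun i _ => (hG i).m0 _⟩
  | succ s ih =>
    intro B N hB hN
    let Z : Term V → Finset (∀ i, Ω i) := fun C =>
      {ω ∈ N | F.find? (sat (prj blk loc X ω (L.piecewise β fun _ => false))) = some C}
    let Q : Term V → Finset V → Finset V → Finset (∀ i, Ω i) := fun C T U =>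
      {ω ∈ B | Bad blk loc X Mix F s (L ∪ T) (T.piecewise (fun i => decide (i ∈ U)) β) ω ∧
        tch blk loc X L ω C = T ∧ F.find? (fun C => decide (Lv blk loc X Mix L β ω C)) = some C}
    have hsub : B ⊆ F.toFinset.biUnion fun C => ((C.1.image blk).powerset.erase ∅).biUnion
        fun T => T.powerset.biUnion (Q C T) := by
      intro ω hω
      obtain ⟨C, h1, h2, β', h3⟩ := hB ω hω
      refine mem_biUnion.2 ⟨C, List.mem_toFinset.2 (List.mem_of_find?_eq_some h1),
        mem_biUnion.2 ⟨_, mem_erase.2 ⟨h2.ne_empty, mem_powerset.2 (tch_sub L ω C)⟩,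
          mem_biUnion.2 ⟨(tch blk loc X L ω C).filter (β' · = true),
            mem_powerset.2 (filter_subset _ _), mem_filter.2 ⟨hω, ?_, rfl, h1⟩⟩⟩⟩
      convert h3 using 1
      exact piecewise_congr _ (fun i hi => by simp [hi]) fun _ _ => rfl
    have h1 : ∀ C ∈ F.toFinset, ((((C.1.image blk).powerset.erase ∅).biUnion
        fun T => T.powerset.biUnion (Q C T)).card : ℝ) ≤ α ^ (s + 1) * (Z C).card := by
      intro C hC
      have hw := hF C (List.mem_toFinset.1 hC)
      refine (Nat.cast_le.2 card_biUnion_le).trans ?_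
      rw [Nat.cast_sum]
      refine (sum_le_sum (g := fun T => α ^ s * (Z C).card * ∑ _U ∈ T.powerset, θ ^ T.card)
        fun T _ => ?_).trans ?_
      · refine (Nat.cast_le.2 card_biUnion_le).trans ?_
        rw [Nat.cast_sum, mul_sum]
        refine sum_le_sum fun U _ => (one_term hH hG hθ (pow_nonneg h0 s) hw (ih _ _) _ N
          (fun ω hω => (mem_filter.1 hω).2) fun ω hω => hN ω (mem_filter.1 hω).1).trans_eq ?_
        ring
      · rw [← mul_sum, pow_succ, mul_right_comm]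
        exact mul_le_mul_of_nonneg_right (mul_le_mul_of_nonneg_left
          ((sum_sub _ (card_image_le.trans hw) hθ).trans hα) (pow_nonneg h0 s)) (Nat.cast_nonneg _)
    refine (Nat.cast_le.2 ((card_le_card hsub).trans card_biUnion_le)).trans ?_
    rw [Nat.cast_sum]
    refine (sum_le_sum h1).trans ?_
    rw [← mul_sum, ← Nat.cast_sum, ← card_biUnion]
    · exact mul_le_mul_of_nonneg_left (Nat.cast_le.2 (card_le_card
        (biUnion_subset.2 fun C _ => filter_subset _ _))) (pow_nonneg h0 _)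
    · refine fun C _ C' _ hne => disjoint_left.2 fun ω h2 h3 => hne ?_
      exact Option.some.inj ((mem_filter.1 h2).2.symm.trans (mem_filter.1 h3).2)

end Sw

theorem swS (h : HallStmt) : SwStmt := by
  intro V P _ _ Ω _ blk loc X Mix w θ α hθ hG hα
  refine ⟨fun ω v => ?_, fun w' hw F hF s B hB => ?_⟩
  · exact (DTq.node (Set.mem_range_self (blk v)) (.const 0 (X _ (ω (blk v)) false (loc v)))
      (.const 0 (X _ (ω (blk v)) true (loc v)))).congr fun z => by
        unfold prj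
        cases z (blk v) <;> rfl
  · rw [← card_univ]
    refine Sw.hall_bad (blk := blk) (loc := loc) h hG hθ hα (fun C hC => (hF C hC).trans hw)
      (s + 1) ∅ (fun _ => false) B univ (fun ω hω => by_contra fun hb => hB ω hω ?_)
      fun _ _ _ _ => mem_univ _
    simpa using Sw.dt_of_not_bad hG hw hF ω s ∅ _ hb

end Pool.Agent.MP_a2d820_lc.h17
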