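import Pool.Agent.MP_a2d820_lc.h17.Spec

/-! Project IP: most trees are valid. -/

set_option autoImplicit false

namespace Pool.Agent.MP_a2d820_lc.h17

open Finset

theorem va_sum {Q A : Type} [Fintype Q] [DecidableEq Q] [Fintype A] (T : Finset Q) (f : A → ℝ)
    (c : ℝ) (hf : ∀ a, 0 ≤ f a) (hc : ∑ a, f a ≤ c * Fintype.card A) :
    ∑ x : Q → A, ∏ q ∈ T, f (x q) ≤ c ^ T.card * Fintype.card (Q → A) := by
  have e : ∀ x : Q → A, ∏ q ∈ T, f (x q) = ∏ q, if q ∈ T then f (x q) else 1 := fun x => by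
    rw [prod_ite_mem, univ_inter]
  have e2 := prod_univ_sum (fun _ : Q => (univ : Finset A))
    fun q a => if q ∈ T then f a else (1 : ℝ)
  rw [Fintype.piFinset_univ] at e2
  simp only [e]
  rw [← e2]
  calc _ ≤ ∏ q : Q, (if q ∈ T then c else 1) * (Fintype.card A : ℝ) := by
        refine prod_le_prod (fun q _ => sum_nonneg fun a _ => ?_) fun q _ => ?_
        · split_ifs
          exacts [hf a, zero_le_one]
        · split_ifs
          · exact hc
          · simp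
    _ = _ := by
        rw [prod_mul_distrib, prod_ite_mem, univ_inter, prod_const, prod_const, Fintype.card_fun]
        simp

theorem va_pow (M g X : ℕ) (h : 2 * M < X * (g + 1)) :
    1 ≤ Real.exp (-(2 * Real.log 2 * (M / (g + 1)))) * 2 ^ X := by
  have h1 : (2 * (M / (g + 1)) : ℝ) ≤ X := by
    rw [← mul_div_assoc, div_le_iff₀ (by positivity)]
    exact_mod_cast h.le
  have h2 : (2 : ℝ) ^ X = Real.exp (X * Real.log 2) := by
    rw [Real.exp_nat_mul, Real.exp_log two_pos]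
  rw [h2, ← Real.exp_add]
  refine Real.one_le_exp ?_
  nlinarith [Real.log_pos one_lt_two]

theorem va_exp (M g : ℕ) :
    Real.exp (-(2 * Real.log 2 * (M / (g + 1)))) * (1 + 1 / (g + 1)) ^ M ≤
      Real.exp (-(M / (3 * (g + 1)))) := by
  have h1 : (1 + 1 / (g + 1) : ℝ) ^ M ≤ Real.exp (M / (g + 1)) := by
    rw [show (M / (g + 1) : ℝ) = M * (1 / (g + 1)) by ring, Real.exp_nat_mul]
    gcongr
    rw [add_comm]
    exact Real.add_one_le_exp _
  refine (mul_le_mul_of_nonneg_left h1 (Real.exp_nonneg _)).trans ?_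
  rw [← Real.exp_add, Real.exp_le_exp,
    show (M / (3 * (g + 1)) : ℝ) = 1 / 3 * (M / (g + 1)) by field_simp]
  have h2 : (0 : ℝ) ≤ M / (g + 1) := by positivity
  nlinarith [Real.log_two_gt_d9]

theorem va_step (m g : ℕ) {R : Type} [Fintype R] (V : R → Prop) (ε : ℝ)
    (hε : ∀ B : Finset R, (∀ ω ∈ B, ¬V ω) → (B.card : ℝ) ≤ ε * Fintype.card R)
    (B : Finset (Msg m × (Msg m × Msg m → Fin (g + 1) × R)))
    (hB : ∀ ω ∈ B, ¬((∀ y : Msg m, #{z : Msg m | (ω.2 (y, z)).1 = 0} * (g + 1) ≤ 2 * 2 ^ m) ∧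
      ∀ q, V (ω.2 q).2)) :
    (B.card : ℝ) ≤ (2 ^ m * Real.exp (-(2 ^ m / (3 * (g + 1)))) + 4 ^ m * ε) *
      Fintype.card (Msg m × (Msg m × Msg m → Fin (g + 1) × R)) := by
  classical
  obtain ⟨E, hE⟩ : ∃ E, E = Real.exp (-(2 * Real.log 2 * ((2 ^ m : ℕ) / (g + 1)))) := ⟨_, rfl⟩
  have E0 : 0 ≤ E := hE ▸ Real.exp_nonneg _
  have cM : Fintype.card (Msg m) = 2 ^ m := by simp
  obtain ⟨f, hf⟩ : ∃ f : Fin (g + 1) × R → ℝ, ∀ a, f a = if a.1 = 0 then 2 else 1 :=
    ⟨_, fun _ => rfl⟩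
  obtain ⟨k, hk⟩ : ∃ k : Fin (g + 1) × R → ℝ, ∀ a, k a = if V a.2 then 0 else 1 :=
    ⟨_, fun _ => rfl⟩
  have f0 : ∀ a, 0 ≤ f a := fun a => by rw [hf]; split_ifs <;> norm_num
  have k0 : ∀ a, 0 ≤ k a := fun a => by rw [hk]; split_ifs <;> norm_num
  have f1 : ∑ a, f a ≤ (1 + 1 / (g + 1)) * Fintype.card (Fin (g + 1) × R) := by
    simp only [hf, Fintype.sum_prod_type, sum_const, card_univ, Fin.sum_univ_succ,
      Fin.succ_ne_zero, if_true, if_false, Fintype.card_prod, Fintype.card_fin, nsmul_eq_mul]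
    push_cast
    field_simp
    linarith
  have k1 : ∑ a, k a ≤ ε * Fintype.card (Fin (g + 1) × R) := by
    have := hε {r | ¬V r} fun r hr => (mem_filter.1 hr).2
    rw [Fintype.sum_prod_type]
    simp only [hk, sum_const, card_univ, Fintype.card_prod,
      Fintype.card_fin, nsmul_eq_mul, sum_ite, mul_zero, mul_one, zero_add]
    push_cast
    nlinarith [Nat.cast_nonneg (α := ℝ) g]
  obtain ⟨W, hW⟩ : ∃ W : (Msg m × Msg m → Fin (g + 1) × R) → ℝ, ∀ x, W x =
      ∑ y : Msg m, E * ∏ q ∈ {y} ×ˢ univ, f (x q) + ∑ q, ∏ q' ∈ {q}, k (x q') := ⟨_, fun _ => rfl⟩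
  have s0 : ∀ (x : Msg m × Msg m → Fin (g + 1) × R) (y : Msg m),
      0 ≤ E * ∏ q ∈ {y} ×ˢ univ, f (x q) := fun x y => mul_nonneg E0 (prod_nonneg fun _ _ => f0 _)
  have t0 : ∀ (x : Msg m × Msg m → Fin (g + 1) × R) (q : Msg m × Msg m),
      0 ≤ ∏ q' ∈ {q}, k (x q') := fun x y => prod_nonneg fun _ _ => k0 _
  have W0 : ∀ x, 0 ≤ W x := fun x =>
    hW x ▸ add_nonneg (sum_nonneg fun y _ => s0 x y) (sum_nonneg fun q _ => t0 x q)
  have W1 : ∀ ω ∈ B, 1 ≤ W ω.2 := fun ω hω => by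
    rw [hW]
    rcases not_and_or.1 (hB ω hω) with h | h
    · obtain ⟨y, hy⟩ := not_forall.1 h
      refine le_add_of_le_of_nonneg (le_trans ?_ (single_le_sum (fun y _ => s0 ω.2 y)
        (mem_univ y))) (sum_nonneg fun q _ => t0 _ q)
      rw [prod_product, prod_singleton]
      simp only [hf]
      rw [prod_ite, prod_const, prod_const_one, mul_one, hE]
      exact va_pow _ g _ (not_le.1 hy)
    · obtain ⟨q, hq⟩ := not_forall.1 h
      refine le_add_of_nonneg_of_le (sum_nonneg fun y _ => s0 _ y)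
        (le_trans ?_ (single_le_sum (fun q _ => t0 ω.2 q) (mem_univ q)))
      rw [prod_singleton, hk, if_neg hq]
  have W2 : ∑ x, W x ≤ (2 ^ m * Real.exp (-(2 ^ m / (3 * (g + 1)))) + 4 ^ m * ε) *
      Fintype.card (Msg m × Msg m → Fin (g + 1) × R) := by
    simp only [hW]
    rw [sum_add_distrib, add_mul, sum_comm, sum_comm
      (f := fun (x : Msg m × Msg m → Fin (g + 1) × R) q => ∏ q' ∈ {q}, k (x q'))]
    refine add_le_add ((sum_le_card_nsmul _ _ (Real.exp (-(2 ^ m / (3 * (g + 1)))) *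
      Fintype.card (Msg m × Msg m → Fin (g + 1) × R)) fun y _ => ?_).trans_eq ?_)
      ((sum_le_card_nsmul _ _ (ε * Fintype.card (Msg m × Msg m → Fin (g + 1) × R))
        fun q _ => ?_).trans_eq ?_)
    · rw [← mul_sum]
      refine (mul_le_mul_of_nonneg_left (va_sum _ f _ f0 f1) E0).trans ?_
      rw [← mul_assoc, card_product, card_singleton, one_mul, card_univ, cM, hE]
      refine mul_le_mul_of_nonneg_right ((va_exp _ g).trans_eq ?_) (Nat.cast_nonneg _)
      push_cast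
      rfl
    · rw [card_univ, cM, nsmul_eq_mul, mul_assoc]
      push_cast
      rfl
    · simpa using va_sum {q} k _ k0 k1
    · rw [card_univ, Fintype.card_prod, cM, nsmul_eq_mul, mul_assoc, ← mul_pow]
      push_cast
      rfl
  calc (B.card : ℝ) = ∑ _ω ∈ B, 1 := by simp
    _ ≤ ∑ ω ∈ B, W ω.2 := sum_le_sum W1
    _ ≤ ∑ ω : Msg m × (Msg m × Msg m → Fin (g + 1) × R), W ω.2 :=
      sum_le_sum_of_subset_of_nonneg (subset_univ _) fun ω _ _ => W0 _
    _ = Fintype.card (Msg m) * ∑ x, W x := by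
      simp only [Fintype.sum_prod_type, sum_const, card_univ, nsmul_eq_mul]
    _ ≤ _ := by
      rw [Fintype.card_prod (Msg m), Nat.cast_mul, mul_left_comm]
      exact mul_le_mul_of_nonneg_left W2 (Nat.cast_nonneg _)

theorem valS : ValStmt := fun m g h => by
  induction h with
  | zero =>
    intro B hB
    rw [eq_empty_of_forall_notMem fun ω hω => hB ω hω trivial, card_empty, Nat.cast_zero]
    positivity
  | succ h ih =>
    intro B hB
    refine (va_step m g (Val m g h) _ ih B hB).trans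
      (mul_le_mul_of_nonneg_right ?_ (Nat.cast_nonneg _))
    have h1 : (2 : ℝ) ^ m ≤ 4 ^ m := by gcongr; norm_num
    have h2 : (1 : ℝ) ≤ 4 ^ m := one_le_pow₀ (by norm_num)
    have h3 : (1 : ℝ) ≤ (2 * 4 ^ m) ^ h := one_le_pow₀ (by linarith)
    have h4 : (2 : ℝ) ^ m ≤ 4 ^ m * (2 * 4 ^ m) ^ h :=
      h1.trans (le_mul_of_one_le_right (by positivity) h3)
    have h5 := mul_le_mul_of_nonneg_right h4 (Real.exp_nonneg (-(2 ^ m / (3 * (g + 1)))))
    rw [pow_succ]
    linarith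

end Pool.Agent.MP_a2d820_lc.h17
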