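import Pool.Agent.MP_a2d820_lc.h17.Hall
import Pool.Agent.MP_a2d820_lc.h17.Gad
import Pool.Agent.MP_a2d820_lc.h17.Sw
import Pool.Agent.MP_a2d820_lc.h17.Rnd
import Pool.Agent.MP_a2d820_lc.h17.Gd
import Pool.Agent.MP_a2d820_lc.h17.Val
import Pool.Agent.MP_a2d820_lc.h17.Hide
import Pool.Agent.MP_a2d820_lc.h17.Amp
import Pool.Agent.MP_a2d820_lc.h17.AM
import Pool.Agent.MP_a2d820_lc.h17.Num
import Pool.Agent.MP_a2d820_lc.h17.Stage
import Pool.Agent.MP_a2d820_lc.h17.Final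

set_option autoImplicit false

namespace Pool.Agent.MP_a2d820_lc.h17

theorem mainS : MainStmt :=
  finalS (stageS (hideS (gadS hallS) (swS hallS) rndS gdS valS) ampS numS) amS

end Pool.Agent.MP_a2d820_lc.h17
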