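import Pool.Agent.MP_a2d820_lc.h17.Spec2

/-!
For most tables all rejecting rows are blocked by few accepting rows.
-/

set_option autoImplicit false

namespace Pool.Agent.MP_a2d820_lc.h17

open Function Finset

section
variable {V ι P : Type} {Y : ι → (V → Bool) → (ι → P → Bool) → Prop} {lev : ι → ℕ} {t w : ℕ}

theorem bk_loc (h : Sys2 Y lev t) {R : ι} {z : V → Bool} {τ τ' : ι → P → Bool}
    (e : ∀ i, lev i < lev R → τ' i = τ i) (hY : Y R z τ) : Y R z τ' := by
  obtain ⟨E, T, -, -, h1, h2⟩ := h R z τ hY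
  exact h2 z τ' (fun _ _ => rfl) fun d hd => by rw [e _ (h1 d hd).1, (h1 d hd).2]

theorem bk_val (h : Sys2 Y lev t) {tb tb' : ι → Bool → P → Bool} {z : V → Bool} {β β' : ι → Bool}
    (h1 : Fx Y tb z β) (h2 : Fx Y tb' z β') {n : ℕ} (e : ∀ i, lev i < n → tb' i = tb i) (R : ι)
    (hR : lev R ≤ n) : β' R = β R := by
  induction hn : lev R using Nat.strong_induction_on generalizing R with
  | _ l ih =>
    have key : ∀ i, lev i < lev R → tb' i (β' i) = tb i (β i) := fun i hi => by
      rw [e i (by omega), ih _ (by omega) i (by omega) rfl]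
    have : β' R = false ↔ β R = false := by
      rw [h1 R, h2 R]
      exact ⟨bk_loc h fun i hi => (key i hi).symm, bk_loc h key⟩
    cases a : β R <;> cases b : β' R <;> simp_all

theorem bk_top (h : Sys2 Y lev t) {tb : ι → Bool → P → Bool} {z : V → Bool} {β : ι → Bool}
    (h1 : Fx Y tb z β) {A : Finset ι} {R : ι} (hA : ∀ i, i ∈ A ↔ lev i < lev R ∧ β i = false)
    (ho : Opt Y lev w tb z A R) : β R = false := by
  classical
  obtain ⟨γ, E, T, -, -, a1, a2, a3⟩ := ho
  have key : ∀ l, ∀ d ∈ T, lev d.1.1 = l → γ d.1.1 = β d.1.1 := by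
    intro l
    induction l using Nat.strong_induction_on with
    | _ l ih =>
      intro d hd hl
      by_cases c : d.1.1 ∈ A
      · rw [a1 _ c, ((hA _).1 c).2]
      have c1 : β d.1.1 = true := by
        by_contra c1
        exact c ((hA _).2 ⟨(a3 d hd).1, by simpa using c1⟩)
      by_contra c2
      have c3 : γ d.1.1 = false := by simpa [c1] using c2
      have c4 := (a3 d hd).2.2 c c3 z (fun i => tb i (if lev i < l then β i else γ i))
        (fun _ _ => rfl) fun d' hd' => by
          split_ifs with c4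
          · rw [← ih _ c4 d' hd' rfl]
            exact (a3 d' hd').2.1
          · exact (a3 d' hd').2.1
      have c5 := (h1 d.1.1).2 (bk_loc h (fun i hi => by rw [if_pos (by omega)]) c4)
      simp [c1] at c5
  exact (h1 R).2 (a2 z _ (fun _ _ => rfl) fun d hd => by
    rw [← key _ d hd rfl]
    exact (a3 d hd).2.1)

end

theorem bk_sum {ι W : Type} [Fintype ι] [DecidableEq ι] [Fintype W] {m : ℕ}
    (hm : Fintype.card ι < 2 ^ m) {Q : Finset ι → W → Prop}
    (h : ∀ A, hiSmall (Q A) ((1 / 2) ^ (m * (A.card + 3) + 1))) :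
    hiSmall (fun ω => ∃ A, Q A ω) ((1 / 2 ^ m) ^ 2) := by
  classical
  intro B hB
  have h1 : B.card ≤ ∑ A ∈ (univ : Finset ι).powerset, (B.filter (Q A)).card :=
    (card_le_card fun ω hω => by
      obtain ⟨A, hA⟩ := hB ω hω
      exact mem_biUnion.2 ⟨A, by simp, mem_filter.2 ⟨hω, hA⟩⟩).trans card_biUnion_le
  have h2 : (B.card : ℝ) ≤ ∑ A ∈ (univ : Finset ι).powerset, ((B.filter (Q A)).card : ℝ) := by
    exact_mod_cast h1
  refine h2.trans ((sum_le_sum fun A _ => h A _ fun ω hω => (mem_filter.1 hω).2).trans ?_)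
  rw [← sum_mul]
  refine mul_le_mul_of_nonneg_right ?_ (Nat.cast_nonneg _)
  have hx : (0 : ℝ) < 2 ^ m := by positivity
  have h3 : ∀ A : Finset ι, (1 / 2 : ℝ) ^ (m * (A.card + 3) + 1) =
      (1 / 2 ^ m) ^ A.card * ((1 / 2 ^ m) ^ 3 / 2) := fun A => by
    rw [pow_succ, pow_mul, pow_add, one_div_pow]
    ring
  simp only [h3]
  rw [← sum_mul, ga_pow]
  have h4 : (1 + 1 / 2 ^ m : ℝ) ^ (univ : Finset ι).card ≤ 3 :=
    ga_three (w := 2 ^ m) (by positivity) (by push_cast; field_simp; rfl) hm.le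
  rcases Nat.eq_zero_or_pos m with rfl | h5
  · have h6 : (univ : Finset ι).card = 0 := by simpa using hm
    rw [h6]
    norm_num
  · have h6 : (1 / 2 ^ m : ℝ) ≤ 1 / 2 :=
      one_div_le_one_div_of_le two_pos (le_self_pow₀ (by norm_num) (by omega))
    have h7 : (0 : ℝ) ≤ (1 / 2 ^ m) ^ 2 := by positivity
    calc _ ≤ 3 * ((1 / 2 ^ m : ℝ) ^ 3 / 2) := mul_le_mul_of_nonneg_right h4 (by positivity)
      _ = (1 / 2 ^ m) ^ 2 * (3 / 2 * (1 / 2 ^ m)) := by ring
      _ ≤ _ := mul_le_of_le_one_right h7 (by linarith)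

theorem blkS (h1 : KillStmt) : BlkStmt := by
  intro V ι P _ _ Ω _ X Mix Y lev t w L m q θ hθ hG hα hS hL hm hq z β hβ
  classical
  let J : ℕ → (∀ i, Ω i) → Finset ι := fun n ω => {i | lev i = n ∧ β ω i = false}
  let Lo : ℕ → (∀ i, Ω i) → Finset ι := fun n ω => {i | lev i < n ∧ β ω i = false}
  let Fam : ι → ℕ → Finset ι → (∀ i, Ω i) → Set (Finset ((ι × P) × Bool)) := fun R n A ω =>
    {C | ∃ (γ : ι → Bool) (E : Finset V) (T : Finset ((ι × P) × Bool)),
      C = T.filter (·.1.1 ∈ J n ω) ∧ E.card ≤ w ∧ T.card ≤ w ∧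
      (∀ i ∈ A ∪ Lo n ω, γ i = false) ∧ Force Y z E T R ∧ ∀ d ∈ T, lev d.1.1 < lev R ∧
        (d.1.1 ∉ J n ω → X d.1.1 (ω d.1.1) (γ d.1.1) d.1.2 = d.2 ∧
          (d.1.1 ∉ A ∪ Lo n ω → γ d.1.1 = false → Force Y z E T d.1.1))}
  have k1 : ∀ R n A s, hiSmall (fun ω => (∀ C ∈ Fam R n A ω, ¬Lv X Mix ω (fun _ => True) C) ∧
      ∀ S ⊆ J n ω, S.card ≤ s * w → ∃ C ∈ Fam R n A ω,
        Lv X Mix ω (fun i => i ∉ J n ω ∨ i ∈ S) C) ((1 / 2) ^ (s + 1)) := by
    refine fun R n A s => h1 ι P Ω X Mix w s θ _ hθ hG hα (J n) (Fam R n A) (fun ω ω' e => ?_) ?_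
    · have e1 : ∀ i, lev i ≤ n → β ω' i = β ω i := bk_val hS (hβ ω) (hβ ω') fun i hi => by
        rw [e i fun c => hi.ne (mem_filter.1 c).2.1]
      have e2 : J n ω' = J n ω :=
        filter_congr fun i _ => and_congr_right fun c => by rw [e1 i c.le]
      have e3 : Lo n ω' = Lo n ω :=
        filter_congr fun i _ => and_congr_right fun c => by rw [e1 i c.le]
      refine ⟨e2, Set.ext fun C => ?_⟩
      simp only [Fam, e2, e3, Set.mem_ofPred_eq]
      refine exists₃_congr fun γ E T => and_congr_right fun _ => and_congr_right fun _ =>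
        and_congr_right fun _ => and_congr_right fun _ => and_congr_right fun _ =>
          forall₂_congr fun d _ => and_congr_right fun _ => forall_congr' fun c => ?_
      rw [e _ c]
    · rintro ω _ ⟨γ, E, T, rfl, -, a, -⟩
      exact (card_filter_le _ _).trans a
  have k2 := hi_ex (I := ι × Fin L) fun x => bk_sum hm fun A => k1 x.1 x.2 A (m * (A.card + 3))
  refine hi_mono k2 (fun ω hω => by_contra fun hc => hω fun R hR => ?_) ?_
  · have hq1 : 1 ≤ q := by omega
    have key : ∀ i n, n + i = lev R → ∃ A : Finset ι, A.card ≤ q ^ i ∧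
        (∀ d ∈ A, β ω d = false ∧ lev d < lev R) ∧
        ¬Opt Y lev w (fun i => X i (ω i)) z (A ∪ Lo n ω) R := by
      intro i
      induction i with
      | zero =>
        intro n hn
        refine ⟨∅, by simp, by simp, fun ho => ?_⟩
        have := bk_top hS (hβ ω) (fun d => by simp [Lo, ← hn]) ho
        simp [hR] at this
      | succ i ih =>
        intro n hn
        obtain ⟨A, a1, a2, a3⟩ := ih (n + 1) (by omega)
        have a4 : ∀ C ∈ Fam R n A ω, ¬Lv X Mix ω (fun _ => True) C := by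
          rintro _ ⟨γ, E, T, rfl, b1, b2, b3, b4, b5⟩ hl
          have b6 : ∀ d, d ∈ A ∪ Lo (n + 1) ω ↔ d ∈ A ∪ Lo n ω ∨ d ∈ J n ω := fun d => by
            simp only [Lo, J, mem_union, mem_filter, mem_univ, true_and, Nat.lt_succ_iff_lt_or_eq]
            tauto
          refine a3 ⟨fun d => if d ∈ J n ω then false else γ d, E, T, b1, b2, fun d hd => ?_, b4,
            fun d hd => ⟨(b5 d hd).1, ?_, fun c1 c2 => ?_⟩⟩
          · beta_reduce
            split_ifs with c
            · rfl
            · exact b3 d (((b6 d).1 hd).resolve_right c)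
          · beta_reduce
            split_ifs with c
            · obtain ⟨u, e1, -, e2⟩ := hl d.1.1
              rw [← e1 trivial]
              exact e2 _ _ (mem_filter.2 ⟨hd, c⟩)
            · exact ((b5 d hd).2 c).1
          · rw [b6, not_or] at c1
            exact ((b5 d hd).2 c1.2).2 c1.1 ((if_neg c1.2).symm.trans c2)
        obtain ⟨S, c1, c2, c3⟩ : ∃ S ⊆ J n ω, S.card ≤ m * (A.card + 3) * w ∧ ∀ C ∈ Fam R n A ω,
            ¬Lv X Mix ω (fun i => i ∉ J n ω ∨ i ∈ S) C := by
          by_contra c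
          push Not at c
          exact hc ⟨(R, ⟨n, by have := hL R; omega⟩), A, a4, c⟩
        refine ⟨A ∪ S, (card_union_le _ _).trans ?_, fun d hd => ?_, ?_⟩
        · have b4 : 1 ≤ q ^ i := Nat.pow_pos hq1
          have b5 : m * (A.card + 3) * w ≤ m * (4 * q ^ i) * w :=
            Nat.mul_le_mul_right _ (Nat.mul_le_mul_left _ (by omega))
          have b6 := Nat.mul_le_mul_left (q ^ i) hq
          rw [pow_succ]
          nlinarith
        · rcases mem_union.1 hd with hd | hd
          · exact a2 d hd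
          · obtain ⟨b4, b5⟩ := (mem_filter.1 (c1 hd)).2
            exact ⟨b5, by omega⟩
        · rintro ⟨γ, E, T, b1, b2, b3, b4, b5⟩
          refine c3 _ ⟨γ, E, T, rfl, b1, b2, fun d hd => b3 d ?_, b4, fun d hd =>
            ⟨(b5 d hd).1, fun c => ⟨(b5 d hd).2.1, fun c' => (b5 d hd).2.2 fun c'' => ?_⟩⟩⟩
            fun d => ?_
          · rw [union_right_comm]
            exact mem_union_left _ hd
          · rw [union_right_comm] at c''
            exact (mem_union.1 c'').elim c' fun e => c (c1 e)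
          · by_cases e : d ∉ J n ω ∨ γ d = false
            · refine ⟨_, fun _ => rfl, (hG d).m0 _, fun p b hd => ?_⟩
              obtain ⟨e1, e2⟩ := mem_filter.1 hd
              have e3 := (b5 _ e1).2.1
              rwa [e.resolve_left (not_not.2 e2)] at e3
            · rw [not_or, not_not, Bool.not_eq_false] at e
              obtain ⟨u, e1, e2⟩ := (hG d).a1 (ω d)
                ((T.filter (·.1.1 = d)).image fun x => (x.1.2, x.2))
                (card_image_le.trans ((card_filter_le _ _).trans b2)) fun x hx => by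
                  obtain ⟨y, e3, rfl⟩ := mem_image.1 hx
                  obtain ⟨e4, rfl⟩ := mem_filter.1 e3
                  rw [← e.2]
                  exact (b5 y e4).2.1
              refine ⟨u, fun c => ?_, e1, fun p b hd => e2 (p, b)
                (mem_image.2 ⟨_, mem_filter.2 ⟨(mem_filter.1 hd).1, rfl⟩, rfl⟩)⟩
              have e3 := b3 d (mem_union_left _ (mem_union_right _ (c.resolve_left (not_not.2 e.1))))
              simp [e.2] at e3
    obtain ⟨A, a1, a2, a3⟩ := key (lev R) 0 (zero_add _)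
    exact ⟨A, a1.trans (Nat.pow_le_pow_right hq1 (hL R).le), a2, by simpa [Lo] using a3⟩
  · have a1 : (Fintype.card ι : ℝ) ≤ 2 ^ m := by exact_mod_cast hm.le
    rw [Fintype.card_prod, Fintype.card_fin, Nat.cast_mul]
    calc _ ≤ (2 ^ m * L : ℝ) * (1 / 2 ^ m) ^ 2 := by gcongr
      _ = _ := by field_simp

end Pool.Agent.MP_a2d820_lc.h17
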