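import Pool.Agent.MP_a2d820_lc.h17.Spec2

/-!
Project IP, second part: small witnesses are found by circuits with two layers.
-/

set_option autoImplicit false

namespace Pool.Agent.MP_a2d820_lc.h17

open Pool.Agent.MP_a2d820_lc.h69 Pool.Agent.MP_a2d820_lc.h31u Function Finset

theorem ci_force {V ι P : Type} {Y : ι → (V → Bool) → (ι → P → Bool) → Prop} {z z' : V → Bool}
    {E : Finset V} {T : Finset ((ι × P) × Bool)} {R : ι} (h : Force Y z E T R)
    (e : ∀ v ∈ E, z' v = z v) : Force Y z' E T R :=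
  fun y τ h1 h2 => h y τ (fun v hv => (h1 v hv).trans (e v hv)) h2

theorem cirS : CirStmt := by
  intro V ι P _ _ Y lev w S m W N tb hm hS hw hW hN
  classical
  have hN' : Fintype.card ι * 2 ≤ N := by
    refine le_trans ?_ ((Nat.pow_le_pow_right two_pos (Nat.le_add_right _ _)).trans hN)
    rw [pow_succ]
    omega
  let gd : ι → Finset ι → Finset ι → (V → Bool) → Bool := fun R A Q z =>
    decide (Dir Y lev w tb z A Q R)
  let go : ι → Finset ι → (V → Bool) → Bool := fun R A z => decide (Opt Y lev w tb z A R)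
  let G1 : Finset ((V → Bool) → Bool) :=
    ((univ : Finset (ι × Bool)) ×ˢ (({A : Finset ι | A.card ≤ S} : Finset _) ×ˢ
      ({A : Finset ι | A.card ≤ S} : Finset _))).image fun a =>
      bif a.1.2 then gd a.1.1 a.2.1 a.2.2 else go a.1.1 a.2.1
  let g2 : ι × Bool → (V → Bool) → Bool := fun a z =>
    decide (∃ A Q : Finset ι, A.card ≤ S ∧ Q.card ≤ S ∧ Wit2 Y lev w tb z A Q ∧
      a.1 ∈ bif a.2 then A else Q)
  let G2 : Finset ((V → Bool) → Bool) := univ.image g2
  have c1 : G1.card ≤ N := by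
    refine card_image_le.trans (le_trans ?_ hN)
    rw [card_product, card_product, card_univ, Fintype.card_prod, Fintype.card_bool, pow_add,
      pow_succ, two_mul, pow_add]
    exact Nat.mul_le_mul (by omega) (Nat.mul_le_mul (card_small hm S) (card_small hm S))
  have c2 : G2.card ≤ N := card_image_le.trans (by simpa using hN')
  have a1 : AC W N 1 (G1 : Set ((V → Bool) → Bool)) := by
    refine ⟨∅, by simp, fun f hf => by simp at hf, fun f hf => ?_⟩
    obtain ⟨⟨⟨R, _ | _⟩, A, Q⟩, -, rfl⟩ := mem_image.1 hf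
    · refine isOr_of_cert Set.subset_union_right fun z hz => ?_
      obtain ⟨γ, E, T, h1, h2, h3, h4, h5⟩ := of_decide_eq_true hz
      exact ⟨E, h1.trans hw, fun z' e => decide_eq_true ⟨γ, E, T, h1, h2, h3, ci_force h4 e,
        fun d hd => ⟨(h5 d hd).1, (h5 d hd).2.1, fun a b => ci_force ((h5 d hd).2.2 a b) e⟩⟩⟩
    · refine isOr_of_cert Set.subset_union_right fun z hz => ?_
      obtain ⟨E, T, h1, h2, h3⟩ := of_decide_eq_true hz
      exact ⟨E, h1.trans hw, fun z' e => decide_eq_true ⟨E, T, h1, ci_force h2 e, h3⟩⟩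
  have a2 : AC W N 2 (G2 : Set ((V → Bool) → Bool)) := by
    refine ⟨G1, c1, a1, fun f hf => ?_⟩
    obtain ⟨a, -, rfl⟩ := mem_image.1 hf
    refine ⟨{u | ∃ (A Q : Finset ι) (ch : ι → Finset ι), A.card ≤ S ∧ Q.card ≤ S ∧
      (a.1 ∈ bif a.2 then A else Q) ∧ (∀ R ∈ Q, ch R ⊆ A ∧ ∀ i ∈ ch R, lev i < lev R) ∧
      u = fun z => decide (∀ R ∈ A, gd R A Q z = true) &&
        decide (∀ R ∈ Q, (!go R (ch R) z) = true)}, ?_, fun z => ?_⟩
    · rintro _ ⟨A, Q, ch, h1, h2, -, h3, rfl⟩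
      refine DTq.mono (d := Q.card + A.card) (dtq_and
        (dtq_all A (fun R => gd R A Q) (fun R _ => dtq_one ?_) fun z => decide_eq_true_iff)
        (dtq_all Q (fun R z => !go R (ch R) z) (fun R hR => dtq_not ?_)
          fun z => decide_eq_true_iff)) (by omega)
      · exact Or.inl (mem_coe.2 (mem_image.2 ⟨((R, true), A, Q), by simp [h1, h2], rfl⟩))
      · exact Or.inl (mem_coe.2 (mem_image.2 ⟨((R, false), ch R, Q),
          by simp [(card_le_card (h3 R hR).1).trans h1, h2], rfl⟩))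
    · simp only [g2, decide_eq_true_eq, Set.mem_ofPred_eq]
      constructor
      · rintro ⟨A, Q, h1, h2, ⟨h3, h5⟩, h4⟩
        choose! ch b1 b2 b3 using h5
        exact ⟨_, ⟨A, Q, ch, h1, h2, h4, fun R hR => ⟨b1 R hR, b2 R hR⟩, rfl⟩,
          by simpa [gd, go] using And.intro h3 b3⟩
      · rintro ⟨_, ⟨A, Q, ch, h1, h2, h4, h5, rfl⟩, h3⟩
        have h6 : (∀ R ∈ A, Dir Y lev w tb z A Q R) ∧ ∀ R ∈ Q, ¬Opt Y lev w tb z (ch R) R := by
          simpa [gd, go] using h3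
        exact ⟨A, Q, h1, h2, ⟨h6.1, fun R hR => ⟨ch R, (h5 R hR).1, (h5 R hR).2, h6.2 R hR⟩⟩, h4⟩
  refine ⟨fun R => g2 (R, false),
    fun z => decide (∃ R, g2 (R, true) z = false ∧ g2 (R, false) z = false), G2, c2, a2,
    fun R => mem_image_of_mem _ (mem_univ _), ⟨G2, c2, a2, ?_⟩, fun R z => decide_eq_true_iff,
    fun z => ?_⟩
  · rintro _ rfl
    refine ⟨Set.range fun R z => !g2 (R, true) z && !g2 (R, false) z, ?_, fun z => by simp⟩
    rintro _ ⟨R, rfl⟩
    exact (dtq_and (dtq_not (Or.inl (mem_coe.2 (mem_image_of_mem _ (mem_univ _)))))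
      (dtq_not (Or.inl (mem_coe.2 (mem_image_of_mem _ (mem_univ _)))))).mono (by omega)
  · rw [decide_eq_false_iff_not, not_exists]
    refine forall_congr' fun R => ⟨fun h => by_contra fun q => h ⟨decide_eq_false ?_,
      decide_eq_false ?_⟩, ?_⟩
    · exact fun ⟨A, Q, h1, h2, h3, h4⟩ => q ⟨A, Q, h1, h2, h3, Or.inl h4⟩
    · exact fun ⟨A, Q, h1, h2, h3, h4⟩ => q ⟨A, Q, h1, h2, h3, Or.inr h4⟩
    · rintro ⟨A, Q, h1, h2, h3, h4 | h4⟩ ⟨b1, b2⟩
      · exact of_decide_eq_false b1 ⟨A, Q, h1, h2, h3, h4⟩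
      · exact of_decide_eq_false b2 ⟨A, Q, h1, h2, h3, h4⟩

end Pool.Agent.MP_a2d820_lc.h17
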