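import Pool.Agent.MP_a2d820_lc.h17.Spec2

/-!
The stages of the second part are put together.
-/

set_option autoImplicit false

namespace Pool.Agent.MP_a2d820_lc.h17

open Pool.Agent.MP_a2d820_lc.h69 Pool.Agent.PolyT Pool.Agent.H82 N487b59b3 Function Finset

theorem fb_params (B : Polynomial ℕ) (k : ℕ) : ∃ H L : ℕ, ∀ m : ℕ, ∃ n a₀ a ρ : ℕ, m ≤ n ∧
    B.eval n + 1 < 2 ^ a₀ ∧ 2 ^ a₀ ≤ n ^ L ∧ (L + 3) ^ 3 * (a₀ + 2) ≤ a ∧
    (2 * (k + 5) + 1) * (a + 2) + 5 ≤ ρ ∧ (k + 5 + 1) * n + 2 ≤ 2 ^ ρ ∧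
    16 * ((k + 6) * ρ) ≤ n ∧ 2 ^ ((2 * k + 7) * a) ≤ n ^ H := by
  obtain ⟨c, hc⟩ := poly_le_pow (B + 1)
  obtain ⟨K, hK⟩ : ∃ K, K = (2 * c + 1 + 3) ^ 3 := ⟨_, rfl⟩
  refine ⟨(2 * k + 7) * (K * (2 * c + 1 + 2)), 2 * c + 1, fun m => ?_⟩
  obtain ⟨ν, e1, e2⟩ := ((poly_le_two_pow (16 * (((k : Polynomial ℕ) + 6) *
    ((2 * ((k : Polynomial ℕ) + 5) + 1) * ((K : Polynomial ℕ) *
      ((Polynomial.X + 1) * (c : Polynomial ℕ) + 1 + 2) + 2) + 5 +
      Polynomial.X + (k : Polynomial ℕ) + 7))) 1 one_pos).and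
    (Filter.eventually_ge_atTop (m + 1))).exists
  have h0 : (ν + 1) * c + 1 ≤ ν * (2 * c + 1) := by
    have := Nat.mul_le_mul_right c (show 1 ≤ ν by omega)
    have h2 : ν * (2 * c + 1) = ν * c + ν * c + ν := by ring
    rw [h2, add_mul]
    omega
  refine ⟨2 ^ ν, (ν + 1) * c + 1, K * ((ν + 1) * c + 1 + 2),
    (2 * (k + 5) + 1) * (K * ((ν + 1) * c + 1 + 2) + 2) + 5 + ν + k + 7,
    by have := Nat.lt_two_pow_self (n := ν); omega, ?_, ?_, hK ▸ le_rfl, by omega, ?_,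
    by simpa using e1, ?_⟩
  · have h1 := hc (2 ^ ν)
    have h2 : 2 ^ 1 ≤ 2 ^ ν := Nat.pow_le_pow_right two_pos (by omega)
    have h3 : (2 ^ ν + 2) ^ c ≤ (2 ^ (ν + 1)) ^ c :=
      Nat.pow_le_pow_left (by rw [pow_succ]; omega) _
    have h4 : 0 < (2 ^ (ν + 1)) ^ c := by positivity
    simp only [Polynomial.eval_add, Polynomial.eval_one] at h1
    rw [pow_succ, pow_mul]
    omega
  · rw [← pow_mul]
    exact Nat.pow_le_pow_right two_pos h0
  · have h1 : (k + 5 + 1) * 2 ^ ν ≤ 2 ^ (k + 5) * 2 ^ ν :=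
      Nat.mul_le_mul_right _ Nat.lt_two_pow_self
    have h2 : 0 < 2 ^ (k + 5) * 2 ^ ν := by positivity
    refine le_trans ?_ (Nat.pow_le_pow_right two_pos (show k + 5 + ν + 2 ≤ _ by omega))
    rw [pow_add, pow_add _ (k + 5)]
    omega
  · rw [← pow_mul]
    refine Nat.pow_le_pow_right two_pos ?_
    have h1 : (ν + 1) * c + 1 + 2 ≤ ν * (2 * c + 1 + 2) := by
      rw [mul_add ν]
      omega
    calc _ ≤ (2 * k + 7) * (K * (ν * (2 * c + 1 + 2))) :=
          Nat.mul_le_mul_left _ (Nat.mul_le_mul_left _ h1)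
      _ = _ := by ring

/-- The requirement can be forced after any finite part of the construction. -/
def fb_Forces (r : ℕ → ℕ) (mc : ℕ → OM) (nc : h31u.Enum) (P : Lang → Prop) : Prop :=
  ∀ m θ ξ η, Ok r ξ → Ok2 r η → ∃ θ' ξ' η', ∃ T > m, Ok r ξ' ∧ Ok2 r η' ∧
    Agr2 m θ ξ η θ' ξ' η' ∧
    ∀ θ'' ξ'' η'', Agr2 T θ' ξ' η' θ'' ξ'' η'' → P (orc2 mc nc θ'' ξ'' η'')

theorem fb_forces (hS : Stage2Stmt) {r : ℕ → ℕ} (hr1 : ∀ n, r n ≤ n)
    (hr2 : Filter.Tendsto r Filter.atTop Filter.atTop) (mc : ℕ → OM) (nc : h31u.Enum)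
    (b : OM × Polynomial ℕ) (l : List (OM × Polynomial ℕ × Polynomial ℕ)) (s : Bool) :
    fb_Forces r mc nc fun A => ∃ x, ev b l A x ≠
      bif s then par A x (2 ^ x.length) else gl A (l.length + 6) x := by
  intro m θ ξ η hok hok2
  obtain ⟨B₀, h1, h2⟩ := ev_bound b l
  set k := l.length with hk
  obtain ⟨H, L, hH⟩ := fb_params (B₀.comp (6 * Polynomial.X + 1) +
    6 * (((k : Polynomial ℕ) + 5 + 1) * Polynomial.X) + 6 * Polynomial.X + 2 +
      ((bitEncode (0 : ℕ)).length : Polynomial ℕ)) k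
  obtain ⟨l₀, hl₀⟩ := Filter.eventually_atTop.1 (hr2.eventually_ge_atTop ((k + 4) * H))
  obtain ⟨n, a₀, a, ρ, e1, e2, e7, e8, e3, e4, e5, e6⟩ := hH (m + 2 ^ l₀)
  simp only [Polynomial.eval_add, Polynomial.eval_comp, Polynomial.eval_mul, Polynomial.eval_ofNat,
    Polynomial.eval_X, Polynomial.eval_one, Polynomial.eval_natCast, Nat.cast_id] at e2
  set B := B₀.eval (6 * n + 1) + 6 * ((k + 5 + 1) * n) + 6 * n + 2 + (bitEncode (0 : ℕ)).length
  set x := List.replicate n false with hx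
  have hxn : x.length = n := by simp [hx]
  have hkn : n ≤ (k + 5 + 1) * n := Nat.le_mul_of_pos_left _ (by omega)
  have hmn : m ≤ n := (Nat.le_add_right _ _).trans e1
  have hr : 3 * ρ ≤ n ∧ (k + 5 + 1) * ρ ≤ n ∧ 16 * ((k + 5) * (a + 2)) ≤ n := by
    have a1 := Nat.le_mul_of_pos_left (a + 2) (show 0 < 2 * (k + 5) + 1 by omega)
    have a2 := Nat.mul_le_mul_right ρ (show 3 ≤ k + 6 by omega)
    have a3 := Nat.mul_le_mul (show k + 5 ≤ k + 6 by omega) (show a + 2 ≤ ρ by omega)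
    have a4 : (k + 5 + 1) * ρ = (k + 6) * ρ := rfl
    omega
  have had : ∀ i : List Bool, i.length ≤ (k + 5 + 1) * n → (ad x i 0).length ≤ B := by
    intro i hi
    simp only [ad, length_enc_pair, PolyT.Poly.enc_bools_length, hxn]
    omega
  have hN : 2 ^ (3 * 2 ^ a) < 2 ^ 2 ^ (a + 2) := Nat.pow_lt_pow_right (by norm_num) (by
    have : 0 < 2 ^ a := by positivity
    rw [pow_add]
    omega)
  have key : ∀ (V : Type) [Fintype V] [DecidableEq V] (e : V → List Bool) (y : List Bool)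
      (G : Lang → Bool), Injective e → y.length ≤ 6 * n + 1 →
      Fintype.card V < 2 ^ ((k + 5 + 1) * n + 1) →
      (∀ A A' : Lang, (∀ i : List Bool, i.length ≤ (k + 5 + 1) * n →
        A (ad x i 0) = A' (ad x i 0)) → G A = G A') →
      (¬AC (2 ^ (a + 2)) (2 ^ (3 * 2 ^ a)) (k + 5)
        {fun z => G (extend (fun v => ad x (e v) 0) z θ)}) →
      ∃ θ' ξ' η', ∃ T > m, Ok r ξ' ∧ Ok2 r η' ∧ Agr2 m θ ξ η θ' ξ' η' ∧
        ∀ θ'' ξ'' η'', Agr2 T θ' ξ' η' θ'' ξ'' η'' →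
          ev b l (orc2 mc nc θ'' ξ'' η'') y ≠ G (orc2 mc nc θ'' ξ'' η'') := by
    intro V _ _ e y G a1 a2 a3 a4 a5
    obtain ⟨θ', ξ', η', b0, b3, b1, b2⟩ := hS r mc nc V (fun A => ev b l A y) G x e k B L a₀ a H
      hr1 a1
      (fun A A' h => h1 A A' y _ a2 fun v hv => h v (by omega))
      (fun V' σ hσ => (h2 V' σ _ _ _ hσ (by omega) (Nat.pow_le_pow_right two_pos (by omega))).mono
        (Set.singleton_subset_iff.2 ⟨y, a2, rfl⟩))
      (fun A A' h => a4 A A' fun i hi => h i (had i hi)) e2 (by rw [hxn]; exact e2.le.trans e7) e8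
      (by omega) (by rw [hxn]; exact a3)
      (by
        rw [hxn, show (k + 6) * n = (k + 5 + 1) * n from rfl]
        omega) (by rw [hxn]; exact hr.2.2) (by rw [hxn]; exact e6)
      (fun j hj => hl₀ j ((Nat.pow_le_pow_iff_right (by norm_num : 1 < 2)).1 (by omega)))
      θ ξ η hok hok2 a5
    exact ⟨θ', ξ', η', B + 1, by omega, b0, b3, ⟨⟨fun s hs => b1.1.1 s (by omega),
      fun s hs => b1.1.2 s (by omega)⟩, fun s hs => b1.2 s (by omega)⟩, b2⟩
  cases s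
  · let e : Empty ⊕ Node ((k + 5 + 1) * n) → List Bool := Sum.elim Empty.elim Subtype.val
    have he : Injective e := by
      rintro (a | a) (b | b) h
      · exact a.elim
      · exact a.elim
      · exact b.elim
      · exact congrArg _ (Subtype.ext h)
    obtain ⟨θ', ξ', η', T, b1, b0, b4, b2, b3⟩ := key _ e (bitEncode (x, ([] : List Bool)))
      (fun A => gl A (k + 5 + 1) (bitEncode (x, ([] : List Bool)))) he
      (by simp only [length_enc_pair, PolyT.Poly.enc_bools_length, hxn, List.length_nil]; omega)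
      (by
        rw [Fintype.card_sum, Fintype.card_empty, zero_add]
        exact card_node _)
      (fun A A' h => by
        simp only [gl_enc, hxn]
        exact nv_congr fun i hi => h i (by simpa using hi.le))
      fun h => h31u.hard_nv e3 e4 hr.1 Nat.one_le_two_pow hN
        (h.mono (Set.singleton_subset_singleton.2 (funext fun z => by
          simp only [gl_enc, hxn]
          refine nv_congr fun i hi => ?_
          let J : Node ((k + 5 + 1) * n) := ⟨i, by simpa using hi.le⟩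
          exact ((ext_node _ _ J).trans (if_pos (mem_univ J))).trans
            ((show Injective fun v => ad x (e v) 0 from
              fun _ _ h => he (ad_inj h).2.1).extend_apply z θ (.inr J)).symm)))
    exact ⟨θ', ξ', η', T, b1, b0, b4, b2, fun θ'' ξ'' η'' h => ⟨_, b3 θ'' ξ'' η'' h⟩⟩
  · obtain ⟨ε⟩ : Nonempty ((Fin (k + 5 + 1) → Fin ρ → Bool) ↪ List.Vector Bool n) :=
      Embedding.nonempty_of_card_le (by
        simp only [card_vector, Fintype.card_fun, Fintype.card_bool, Fintype.card_fin, ← pow_mul]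
        exact Nat.pow_le_pow_right two_pos (by rw [mul_comm]; exact hr.2.1))
    have he : Injective fun v => (ε v).1 := Subtype.val_injective.comp ε.injective
    have he' : Injective fun v => ad x (ε v).1 0 := fun _ _ h => he (ad_inj h).2.1
    obtain ⟨θ', ξ', η', T, b1, b0, b4, b2, b3⟩ := key _ _ x (fun A => par A x (2 ^ x.length)) he
      (by omega)
      (by
        refine (Fintype.card_le_of_embedding ε).trans_lt ?_
        rw [card_vector, Fintype.card_bool]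
        exact Nat.pow_lt_pow_right (by norm_num) (by omega))
      (fun A A' h => par_congr (fun i hi => h i (by omega)) _)
      (h31u.hard_par e3 Nat.one_le_two_pow hN _ fun z z' v c1 c2 => par_flip (j₀ := (ε v).1)
        ((ε v).2.trans hxn.symm) (fun i hi => by
          by_cases h : ∃ v', ad x (ε v').1 0 = ad x i 0
          · obtain ⟨v', h⟩ := h
            rw [← h, he'.extend_apply, he'.extend_apply,
              c1 v' fun e => hi (e ▸ (ad_inj h).2.1.symm)]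
          · rw [extend_apply' _ _ _ h, extend_apply' _ _ _ h])
        (by rw [he'.extend_apply, he'.extend_apply, c2]))
    exact ⟨θ', ξ', η', T, b1, b0, b4, b2, fun θ'' ξ'' η'' h => ⟨_, b3 θ'' ξ'' η'' h⟩⟩

theorem fb_lim {r : ℕ → ℕ} (h0 : Ok r fun _ b _ => b) {η₀ : List Bool → Bool → Lang}
    (h0' : Ok2 r η₀) (mc : ℕ → OM) (nc : h31u.Enum) (P : ℕ → Lang → Prop)
    (hP : ∀ i, fb_Forces r mc nc (P i)) :
    ∃ θ ξ η, Ok r ξ ∧ Ok2 r η ∧ ∀ i, P i (orc2 mc nc θ ξ η) := by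
  let S := ℕ × Lang × {ξ : List Bool → Bool → Lang // Ok r ξ} ×
    {η : List Bool → Bool → Lang // Ok2 r η}
  let ag : S → S → Prop := fun a b =>
    Agr2 a.1 a.2.1 a.2.2.1.1 a.2.2.2.1 b.2.1 b.2.2.1.1 b.2.2.2.1
  have step : ∀ (i : ℕ) (a : S), ∃ b : S, a.1 < b.1 ∧ ag a b ∧ ∀ θ ξ η,
      Agr2 b.1 b.2.1 b.2.2.1.1 b.2.2.2.1 θ ξ η → P i (orc2 mc nc θ ξ η) := fun i a => by
    obtain ⟨θ, ξ, η, T, h1, h2, h3, h4, h5⟩ := hP i a.1 a.2.1 _ _ a.2.2.1.2 a.2.2.2.2
    exact ⟨(T, θ, ⟨ξ, h2⟩, ⟨η, h3⟩), h1, h4, h5⟩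
  choose F h1 h2 h3 using step
  let a : ℕ → S := fun i => Nat.rec (0, fun _ => false, ⟨_, h0⟩, ⟨_, h0'⟩) F i
  have hmono : StrictMono fun i => (a i).1 := strictMono_nat_of_lt_succ fun i => h1 i _
  have hag : ∀ i j, i ≤ j → ag (a i) (a j) := by
    intro i j hij
    induction j, hij using Nat.le_induction with
    | base => exact ⟨⟨fun _ _ => rfl, fun _ _ => rfl⟩, fun _ _ => rfl⟩
    | succ j hij ih =>
      have h6 := h2 j (a j)
      have h5 := hmono.monotone hij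
      exact ⟨⟨fun w hw => (ih.1.1 w hw).trans (h6.1.1 w (hw.trans_le h5)),
        fun w hw => (ih.1.2 w hw).trans (h6.1.2 w (hw.trans_le h5))⟩,
        fun w hw => (ih.2 w hw).trans (h6.2 w (hw.trans_le h5))⟩
  have key : ∀ (i : ℕ) (w : List Bool), w.length < (a i).1 →
      (a i).2.1 w = (a (w.length + 1)).2.1 w ∧ (a i).2.2.1.1 w = (a (w.length + 1)).2.2.1.1 w ∧
        (a i).2.2.2.1 w = (a (w.length + 1)).2.2.2.1 w := fun i w hw => by
    rcases le_total i (w.length + 1) with h | h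
    · exact ⟨(hag _ _ h).1.1 w hw, (hag _ _ h).1.2 w hw, (hag _ _ h).2 w hw⟩
    · have h4 := hmono.le_apply (x := w.length + 1)
      exact ⟨((hag _ _ h).1.1 w h4).symm, ((hag _ _ h).1.2 w h4).symm, ((hag _ _ h).2 w h4).symm⟩
  exact ⟨fun w => (a (w.length + 1)).2.1 w, fun w => (a (w.length + 1)).2.2.1.1 w,
    fun w => (a (w.length + 1)).2.2.2.1 w,
    fun i x y u e1 e2 => (a (u.length + 1)).2.2.1.2 i x y u e1 e2,
    fun i x y u e1 e2 => (a (u.length + 1)).2.2.2.2 i x y u e1 e2, fun i =>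
    h3 i (a i) _ _ _ ⟨⟨fun w hw => (key (i + 1) w hw).1, fun w hw => (key (i + 1) w hw).2.1⟩,
      fun w hw => (key (i + 1) w hw).2.2⟩⟩

theorem final2S (h1 : Stage2Stmt) (h2 : NPStmt) : Main2Stmt := by
  intro r hr1 hr2
  obtain ⟨mc, hmc⟩ := exists_surjective_nat OM
  obtain ⟨nc, hnc⟩ := exists_surjective_nat (OM × Polynomial ℕ × Polynomial ℕ)
  obtain ⟨τ, hτ⟩ := exists_surjective_nat
    (Bool × (OM × Polynomial ℕ) × List (OM × Polynomial ℕ × Polynomial ℕ))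
  obtain ⟨η₀, h0⟩ := h2.1 r
  obtain ⟨θ, ξ, η, hok, hok2, h⟩ := fb_lim (amS.1 r) h0 mc nc _ fun i =>
    fb_forces h1 hr1 hr2 mc nc (τ i).2.1 (τ i).2.2 (τ i).1
  refine ⟨_, ?_, h2.2 r mc nc θ ξ η hr2 hnc hok2,
    fun k => Set.not_subset.1 fun hk => ?_, _, par_mem _, fun k hk => ?_⟩
  · rw [← orc2_eq]
    exact Set.union_subset ((ar_dec _).trans (ar_main _ hmc hok)) (re_main _ hmc hok)
  · obtain ⟨b, l, rfl, e⟩ := exists_ev' (h31u.collapse hk 6 (gl_mem _ _))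
    obtain ⟨i, hi⟩ := hτ (false, b, l)
    obtain ⟨x, hx⟩ := h i
    rw [hi] at hx
    exact hx (congrFun e x).symm
  · obtain ⟨b, l, e⟩ := exists_ev hk
    obtain ⟨i, hi⟩ := hτ (true, b, l)
    obtain ⟨x, hx⟩ := h i
    rw [hi] at hx
    exact hx (congrFun e x).symm

end Pool.Agent.MP_a2d820_lc.h17
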