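import Pool.Agent.MP_a2d820_lc.h17.Spec2

/-!
The marked trees are one-sided gadgets.
-/

set_option autoImplicit false

namespace Pool.Agent.MP_a2d820_lc.h17

open Pool.Agent.MP_a2d820_lc.h69 Function Finset

theorem gb_union {α ι : Type} {c : ℝ} (hc : 0 ≤ c) (s : Finset ι) (p : ι → α → Prop) (f : ι → ℝ)
    (h2 : ∀ i ∈ s, ∀ B : Finset α, (∀ a ∈ B, p i a) → (B.card : ℝ) * c ≤ f i) (B : Finset α)
    (h1 : ∀ a ∈ B, ∃ i ∈ s, p i a) : (B.card : ℝ) * c ≤ ∑ i ∈ s, f i := by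
  classical
  have a1 : B.card ≤ ∑ i ∈ s, (B.filter (p i)).card :=
    (card_le_card fun a ha => by
      obtain ⟨i, b1, b2⟩ := h1 a ha
      exact mem_biUnion.2 ⟨i, b1, mem_filter.2 ⟨ha, b2⟩⟩).trans card_biUnion_le
  have a2 : (B.card : ℝ) ≤ ∑ i ∈ s, ((B.filter (p i)).card : ℝ) := by exact_mod_cast a1
  refine (mul_le_mul_of_nonneg_right a2 hc).trans ?_
  rw [sum_mul]
  exact sum_le_sum fun i hi => h2 i hi _ fun a ha => (mem_filter.1 ha).2

theorem gb_two {x : ℝ} {w n : ℕ} (h0 : 0 ≤ x) (h1 : x * w ≤ 1) (h2 : n ≤ w) :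
    (1 + x) ^ n - 1 ≤ 2 * (x * w) := by
  have h3 : (1 + x) ^ n ≤ Real.exp x ^ w :=
    (pow_le_pow_right₀ (by linarith) h2).trans
      (pow_le_pow_left₀ (by positivity) (by linarith [Real.add_one_le_exp x]) _)
  rw [← Real.exp_nat_mul, mul_comm] at h3
  have h4 : 0 ≤ x * w := by positivity
  have h5 := Real.abs_exp_sub_one_le (x := x * w) (by rwa [abs_of_nonneg h4])
  rw [abs_of_nonneg h4] at h5
  linarith [le_abs_self (Real.exp (x * w) - 1)]

theorem gb_small {α : Type} (Z : Finset α) {g w j : ℕ} (hw : 1 ≤ w) (hZ : Z.card ≤ w) :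
    ∑ U ∈ {U ∈ Z.powerset | U.card ≤ j}, (g + 1 : ℝ) ^ U.card ≤ ((g + 1) * w) ^ j * 3 := by
  have hw' : (1 : ℝ) ≤ w := by exact_mod_cast hw
  have c1 : ∀ U ∈ {U ∈ Z.powerset | U.card ≤ j}, (g + 1 : ℝ) ^ U.card ≤
      ((g + 1) * w) ^ j * (1 / w) ^ U.card := by
    intro U hU
    have c2 : (g + 1 : ℝ) ^ U.card = ((g + 1) * w) ^ U.card * (1 / w) ^ U.card := by
      rw [← mul_pow]
      congr 1
      field_simp
    rw [c2]
    refine mul_le_mul_of_nonneg_right (pow_le_pow_right₀ ?_ (mem_filter.1 hU).2) (by positivity)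
    have : (0 : ℝ) ≤ g := by positivity
    nlinarith
  refine (sum_le_sum c1).trans ?_
  rw [← mul_sum]
  refine mul_le_mul_of_nonneg_left ((sum_le_sum_of_subset_of_nonneg (filter_subset _ _)
    fun _ _ _ => by positivity).trans ?_) (by positivity)
  rw [ga_pow]
  exact ga_three (by positivity) (by field_simp; rfl) hZ

theorem gb_step (hd : DataStmt) (hp : PieceStmt) {m g j h w : ℕ} {θ : ℝ} (hw : 1 ≤ w)
    (h0 : (4 * w : ℝ) ≤ θ * g)
    (h1 : (54 * w * (g + 2) * ((g + 1) * w) ^ j : ℝ) ≤ θ * 2 ^ m) (h2 : θ * w ≤ 1)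
    (ih : ∀ D : Finset (List Bool × Bool), D.card ≤ w → Hall (gS m g j h D) (gE m g j h D) θ)
    (D : Finset (List Bool × Bool)) (hD : D.card ≤ w) :
    Hall (gS m g j (h + 1) D) (gE m g j (h + 1) D) θ := by
  classical
  intro B N b1 b2
  have hw' : (1 : ℝ) ≤ w := by exact_mod_cast hw
  have hθ : 0 ≤ θ := nonneg_of_mul_nonneg_left (le_trans (by positivity) h1) (by positivity)
  have hg : 1 ≤ g := Nat.pos_of_ne_zero fun e => by
    rw [e, Nat.cast_zero, mul_zero] at h0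
    linarith
  have hg' : (0 : ℝ) < g := by exact_mod_cast hg
  have hx : 1 / (g : ℝ) * w ≤ θ / 4 := by
    rw [one_div_mul_eq_div, div_le_iff₀ hg']
    linarith
  have hθ1 : θ ≤ 1 := by nlinarith
  have hx1 : 1 / (g : ℝ) * w ≤ 1 := by linarith
  have hN : (0 : ℝ) ≤ N.card := Nat.cast_nonneg _
  set Y := D.image fun d => (idx m d.1).1
  set Z := D.image fun d => (idx m d.1).2
  have hY : Y.card ≤ w := card_image_le.trans hD
  have hY' : (Y.card : ℝ) ≤ w := by exact_mod_cast hY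
  have hZ : Z.card ≤ w := card_image_le.trans hD
  let q : Om2 m g (h + 1) → Prop := fun ω =>
    ∃ O ∈ Y.powerset.erase ∅, ω ∈ B ∧ gP m g j h D ω O ∅ ∅ ∅
  have a1 : ((B.filter q).card : ℝ) * 1 ≤
      ∑ O ∈ Y.powerset.erase ∅, (1 / (g : ℝ)) ^ O.card * N.card :=
    gb_union zero_le_one _ (fun O ω => ω ∈ B ∧ gP m g j h D ω O ∅ ∅ ∅) _ (fun O _ B' hB => by
      rw [mul_one]
      exact (hp m g j h w θ hθ hg ih D hD O ∅ ∅ ∅ B' N (fun ω hω => (hB ω hω).2)
        fun ω hω => b2 ω (hB ω hω).1).1 rfl rfl rfl) _ fun ω hω => (mem_filter.1 hω).2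
  have a2 : ((B.filter fun ω => ¬q ω).card : ℝ) * 2 ^ m ≤
      ∑ y ∈ Y, ∑ O ∈ Y.powerset, ∑ I ∈ ({y} : Finset (Msg m)).powerset,
        ∑ U ∈ {U ∈ Z.powerset | U.card ≤ j}, ∑ R ∈ Z.powerset,
          (1 / (g : ℝ)) ^ O.card * (g + 1) ^ I.card * (g + 1) ^ U.card * θ ^ R.card * N.card := by
    have c0 : (0 : ℝ) ≤ 2 ^ m := by positivity
    refine gb_union c0 _ (fun y ω => ∃ O ∈ Y.powerset, ∃ I ∈ ({y} : Finset (Msg m)).powerset,
      ∃ U ∈ {U ∈ Z.powerset | U.card ≤ j}, ∃ R ∈ Z.powerset,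
        ω ∈ B ∧ ω.1.1 = y ∧ gP m g j h D ω O I U R) _ (fun y _ =>
      gb_union c0 _ _ _ fun O _ => gb_union c0 _ _ _ fun I _ => gb_union c0 _ _ _ fun U _ =>
        gb_union c0 _ _ _ fun R _ B' hB =>
          (hp m g j h w θ hθ hg ih D hD O I U R B' N (fun ω hω => (hB ω hω).2.2)
            fun ω hω => b2 ω (hB ω hω).1).2 y fun ω hω => (hB ω hω).2.1) _ fun ω hω => ?_
    obtain ⟨c1, c2⟩ := mem_filter.1 hω
    obtain ⟨c3, u, c4, c5⟩ := b1 ω c1
    obtain ⟨O, I, U, R, d1, d2, d3, d4, d5, d6⟩ := hd m g j h D ω u c4 c5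
    refine ⟨ω.1.1, d5 (nonempty_iff_ne_empty.2 fun e => ?_), O, mem_powerset.2 d1, I,
      mem_powerset.2 d6.2.2.1, U, mem_filter.2 ⟨mem_powerset.2 d2, d4⟩, R, mem_powerset.2 d3,
      c1, rfl, d6⟩
    obtain ⟨e1, e2⟩ := union_eq_empty.1 e
    obtain ⟨e3, e4⟩ := union_eq_empty.1 e1
    subst e2 e3 e4
    refine c2 ⟨O, mem_erase.2 ⟨?_, mem_powerset.2 d1⟩, c1, d6⟩
    rintro rfl
    exact c3 (d6.2.2.2.2.2 ω (fun _ _ => rfl) (by simp) (by simp) (fun _ _ => rfl) (by simp)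
      (by simp)).2
  have a3 : ((B.filter q).card : ℝ) + (B.filter fun ω => ¬q ω).card = B.card := by
    exact_mod_cast card_filter_add_card_filter_not q
  have a4 : ((B.filter q).card : ℝ) ≤ θ / 2 * N.card := by
    rw [mul_one, ← sum_mul, sum_erase_eq_sub (empty_mem_powerset Y), ga_pow, card_empty,
      pow_zero] at a1
    refine a1.trans (mul_le_mul_of_nonneg_right ?_ hN)
    linarith [gb_two (by positivity) hx1 hY]
  have a5 : ((B.filter fun ω => ¬q ω).card : ℝ) * 2 ^ m ≤ θ / 2 * N.card * 2 ^ m := by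
    refine a2.trans ?_
    simp only [← sum_mul, ← mul_sum]
    simp only [ga_pow, card_singleton, pow_one, sum_const, nsmul_eq_mul]
    have c1 := ga_three (by positivity) hx1 hY
    have c2 := ga_three hθ h2 hZ
    have c3 := gb_small (g := g) (j := j) Z hw hZ
    have c4 : 0 ≤ ∑ U ∈ {U ∈ Z.powerset | U.card ≤ j}, (g + 1 : ℝ) ^ U.card :=
      sum_nonneg fun _ _ => by positivity
    calc _ ≤ (3 : ℝ) * (w * (1 + (g + 1))) * (((g + 1) * w) ^ j * 3) * 3 * N.card := by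
          gcongr
      _ = 54 * w * (g + 2) * ((g + 1) * w) ^ j * (N.card / 2) := by ring
      _ ≤ θ * 2 ^ m * (N.card / 2) := mul_le_mul_of_nonneg_right h1 (by positivity)
      _ = _ := by ring
  have a6 := le_of_mul_le_mul_right a5 (by positivity)
  linarith

theorem gad2S (h1 : MixStmt) (h2 : DataStmt) (h3 : PieceStmt) : Gad2Stmt := by
  intro m g j w h θ hw a1 a2 a3 a4
  have hθ : 0 ≤ θ := nonneg_of_mul_nonneg_left (le_trans (by positivity) a3) (by positivity)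
  have key : ∀ h, ∀ D : Finset (List Bool × Bool), D.card ≤ w →
      Hall (gS m g j h D) (gE m g j h D) θ := by
    intro h
    induction h with
    | zero =>
      intro D _ B N b1 _
      have : B = ∅ := eq_empty_of_forall_notMem fun ω hω => by
        obtain ⟨c1, u, rfl, c2⟩ := b1 ω hω
        exact c1 c2
      simp only [this, card_empty, Nat.cast_zero]
      positivity
    | succ h ih => exact gb_step h2 h3 hw a2 a3 a4 ih
  exact ⟨h1.1 m g j h, fun ω D hD => h1.2 m g j h ω D (hD.trans_lt a1), key h⟩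

end Pool.Agent.MP_a2d820_lc.h17
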