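import Pool.Agent.MP_a2d820_lc.h17.Spec2

/-!
If the false tables meet no term of a family, few rows already show it.
-/

set_option autoImplicit false

namespace Pool.Agent.MP_a2d820_lc.h17

open Function Finset

namespace Ki

variable {ι P : Type} [DecidableEq ι] {Ω : ι → Type} {X : ∀ i, Ω i → Bool → P → Bool}
  {Mix : ∀ i, Ω i → (P → Bool) → Prop}

open Classical in
/-- The demands of a term on a row. -/
noncomputable def dem (C : Finset ((ι × P) × Bool)) (i : ι) : Finset (P × Bool) :=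
  (C.filter (·.1.1 = i)).image fun d => (d.1.2, d.2)

theorem card_dem (C : Finset ((ι × P) × Bool)) (i : ι) : (dem C i).card ≤ C.card := by
  classical
  unfold dem
  convert card_image_le.trans (card_filter_le _ _)

theorem cons_dem {C : Finset ((ι × P) × Bool)} {i : ι} {u : P → Bool} :
    Cons u (dem C i) ↔ ∀ p b, ((i, p), b) ∈ C → u p = b := by
  simp only [Cons, dem, mem_image, mem_filter]
  constructor
  · exact fun h p b hd => h _ ⟨_, ⟨hd, rfl⟩, rfl⟩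
  · rintro h _ ⟨⟨⟨_, p⟩, b⟩, ⟨h1, rfl⟩, rfl⟩
    exact h p b h1

/-- The first element with a property. -/
def First {α : Type} (r : α → α → Prop) (A : α → Prop) (C : α) : Prop :=
  A C ∧ ∀ C', r C' C → ¬A C'

variable (X Mix) (r : Finset ((ι × P) × Bool) → Finset ((ι × P) × Bool) → Prop)
  (Fam : (∀ i, Ω i) → Set (Finset ((ι × P) × Bool)))

/-- The canonical sequence of live terms has length at least `s`. -/
def Bad : ℕ → Finset ι → (∀ i, Ω i) → Prop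
  | 0, _, _ => True
  | s + 1, L, ω => ∃ C, First r (fun C => C ∈ Fam ω ∧ Lv X Mix ω (· ∈ L) C) C ∧
      Bad s (L ∪ C.image (·.1.1)) ω

/-- The neighbours of a sample. -/
def Nb (L : Finset ι) (ω ω' : ∀ i, Ω i) : Prop :=
  (∀ i ∈ L, ω' i = ω i) ∧ ∀ i, Mix i (ω i) (X i (ω' i) false)

variable {X Mix r Fam} [Fintype ι] {w : ℕ} {θ : ℝ}

theorem bad_of (wf : WellFounded r) {ω : ∀ i, Ω i} (hF : ∀ C ∈ Fam ω, C.card ≤ w) (J : Finset ι)
    (s : ℕ) (S₀ : Finset ι) (h0 : S₀ ⊆ J)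
    (h : ∀ S ⊆ J, S.card ≤ S₀.card + s * w → ∃ C ∈ Fam ω, Lv X Mix ω (fun i => i ∉ J ∨ i ∈ S) C) :
    Bad X Mix r Fam (s + 1) (Jᶜ ∪ S₀) ω := by
  have key : ∀ S ⊆ J, (∃ C ∈ Fam ω, Lv X Mix ω (fun i => i ∉ J ∨ i ∈ S) C) →
      ∃ C, First r (fun C => C ∈ Fam ω ∧ Lv X Mix ω (· ∈ Jᶜ ∪ S) C) C := by
    intro S _ hS
    have e : (fun i => i ∉ J ∨ i ∈ S) = (· ∈ Jᶜ ∪ S) := funext fun i => by simp
    rw [e] at hS
    obtain ⟨C, h1, h2⟩ := wf.has_min {C | C ∈ Fam ω ∧ Lv X Mix ω (· ∈ Jᶜ ∪ S) C} hS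
    exact ⟨C, h1, fun C' h3 h4 => h2 C' h4 h3⟩
  induction s generalizing S₀ with
  | zero =>
    obtain ⟨C, hC⟩ := key S₀ h0 (h S₀ h0 (by omega))
    exact ⟨C, hC, trivial⟩
  | succ s ih =>
    obtain ⟨C, hC⟩ := key S₀ h0 (h S₀ h0 (by omega))
    refine ⟨C, hC, ?_⟩
    have e : Jᶜ ∪ S₀ ∪ C.image (·.1.1) = Jᶜ ∪ (S₀ ∪ C.image (·.1.1) ∩ J) := by
      ext i
      by_cases c : i ∈ J <;> simp [c]
    rw [e]
    refine ih _ (union_subset h0 inter_subset_right) fun S h1 h2 => h S h1 (h2.trans ?_)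
    have a1 := card_union_le S₀ (C.image (·.1.1) ∩ J)
    have a2 := (card_le_card (inter_subset_left (s₁ := C.image (·.1.1)) (s₂ := J))).trans
      (card_image_le.trans (hF C hC.1.1))
    rw [Nat.succ_mul]
    omega

open Classical in
theorem one_term [∀ i, Fintype (Ω i)] (hG : ∀ i, Gad1 (X i) (Mix i) w θ) (hθ : 0 ≤ θ) {a : ℝ}
    (ha : 0 ≤ a) {L T : Finset ι} {C : Finset ((ι × P) × Bool)} (hw : C.card ≤ w)
    {S : (∀ i, Ω i) → Prop} (hS : Hall S (Nb X Mix (L ∪ C.image (·.1.1))) a)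
    (hT : T ⊆ C.image (·.1.1)) (B N : Finset (∀ i, Ω i))
    (hB : ∀ ω ∈ B, S ω ∧ (∀ i, i ∈ T ↔ ¬Cons (X i (ω i) false) (dem C i)) ∧
      (∀ ω' : ∀ i, Ω i, (∀ i ∈ L, ω' i = ω i) → Fam ω' = Fam ω) ∧
      First r (fun C => C ∈ Fam ω ∧ Lv X Mix ω (· ∈ L) C) C)
    (hN : ∀ ω ∈ B, ∀ ω', Nb X Mix L ω ω' → ω' ∈ N) :
    (B.card : ℝ) ≤ a * (θ ^ T.card * #{ω ∈ N | First r
      (fun C => C ∈ Fam ω ∧ ∀ i, Cons (X i (ω i) false) (dem C i)) C}) := by
  refine (hS B {ω₁ | ∃ ω ∈ B, Nb X Mix (L ∪ C.image (·.1.1)) ω ω₁} (fun ω hω => (hB ω hω).1)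
    fun ω hω ω₁ h => mem_filter.2 ⟨mem_univ _, ω, hω, h⟩).trans
      (mul_le_mul_of_nonneg_left ?_ ha)
  rw [← prod_const]
  refine hallS ι Ω _ _ (fun _ => θ) T (fun _ _ => hθ)
    (fun i _ => (hG i).a2 (dem C i) ((card_dem C i).trans hw)) _ _
    (fun ω₁ h₁ i hi => ?_) fun ω₁ h₁ ω₂ h₂ => ?_
  · obtain ⟨ω, hω, h1, -⟩ := (mem_filter.1 h₁).2
    obtain ⟨-, h2, -, h3⟩ := hB ω hω
    obtain ⟨u, -, h4, h5⟩ := h3.1.2 i
    rw [h1 i (mem_union_right _ (hT hi))]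
    exact ⟨(h2 i).1 hi, u, h4, cons_dem.2 h5⟩
  obtain ⟨ω, hω, h1, h2⟩ := (mem_filter.1 h₁).2
  obtain ⟨-, h3, h4, h5, h6⟩ := hB ω hω
  have e0 : ∀ i ∈ L, i ∉ T := fun i hi c => by
    obtain ⟨u, a1, -, a2⟩ := h5.2 i
    exact (h3 i).1 c (a1 hi ▸ cons_dem.2 a2)
  have e1 : ∀ i ∈ L, ω₂ i = ω i := fun i hi =>
    (h₂.1 i (e0 i hi)).trans (h1 i (mem_union_left _ hi))
  have e2 : ∀ i, Mix i (ω i) (X i (ω₂ i) false) := by
    intro i
    by_cases c : i ∈ T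
    · exact h1 i (mem_union_right _ (hT c)) ▸ (h₂.2 i c).1
    · exact h₂.1 i c ▸ h2 i
  refine mem_filter.2 ⟨hN ω hω ω₂ ⟨e1, e2⟩, ⟨h4 ω₂ e1 ▸ h5.1, fun i => ?_⟩, fun C' a1 a2 =>
    h6 C' a1 ⟨h4 ω₂ e1 ▸ a2.1, fun i => ⟨_, fun hi => by rw [e1 i hi], e2 i, cons_dem.1 (a2.2 i)⟩⟩⟩
  by_cases c : i ∈ T
  · exact (h₂.2 i c).2
  by_cases c' : i ∈ C.image (·.1.1)
  · rw [h₂.1 i c, h1 i (mem_union_right _ c')]
    exact not_not.1 fun a => c ((h3 i).2 a)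
  · exact cons_dem.2 fun p b hd => absurd (mem_image.2 ⟨_, hd, rfl⟩) c'

omit [Fintype ι] in
theorem sum_sub (D : Finset ι) (hD : D.card ≤ w) (hθ : 0 ≤ θ) :
    ∑ T ∈ D.powerset.erase ∅, θ ^ T.card ≤ (1 + θ) ^ w - 1 := by
  have h2 := sum_erase_eq_sub (f := fun T : Finset ι => θ ^ T.card) (empty_mem_powerset D)
  have h4 : (1 + θ) ^ D.card ≤ (1 + θ) ^ w := pow_le_pow_right₀ (by linarith) hD
  rw [h2, ga_pow]
  simp only [card_empty, pow_zero]
  linarith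

theorem hall_bad [∀ i, Fintype (Ω i)] (tri : ∀ a b, a ≠ b → r a b ∨ r b a)
    (hG : ∀ i, Gad1 (X i) (Mix i) w θ) (hθ : 0 ≤ θ) {α : ℝ} (hα : (1 + θ) ^ w - 1 ≤ α)
    (hF : ∀ ω, ∀ C ∈ Fam ω, C.card ≤ w) (s : ℕ) (L : Finset ι) :
    Hall (fun ω => ((∀ ω' : ∀ i, Ω i, (∀ i ∈ L, ω' i = ω i) → Fam ω' = Fam ω) ∧
      ∀ C ∈ Fam ω, ¬Lv X Mix ω (fun _ => True) C) ∧ Bad X Mix r Fam s L ω) (Nb X Mix L)
      (α ^ s) := by
  classical
  have h0 : 0 ≤ α := (sub_nonneg.2 (one_le_pow₀ (by linarith))).trans hα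
  induction s generalizing L with
  | zero =>
    intro B N _ hN
    rw [pow_zero, one_mul]
    exact_mod_cast card_le_card fun ω hω => hN ω hω ω ⟨fun _ _ => rfl, fun i => (hG i).m0 _⟩
  | succ s ih =>
    intro B N hB hN
    let Z : Finset ((ι × P) × Bool) → Finset (∀ i, Ω i) := fun C =>
      {ω ∈ N | First r (fun C => C ∈ Fam ω ∧ ∀ i, Cons (X i (ω i) false) (dem C i)) C}
    let Q : Finset ((ι × P) × Bool) → Finset ι → Finset (∀ i, Ω i) := fun C T =>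
      {ω ∈ B | Bad X Mix r Fam s (L ∪ C.image (·.1.1)) ω ∧
        (∀ i, i ∈ T ↔ ¬Cons (X i (ω i) false) (dem C i)) ∧
        First r (fun C => C ∈ Fam ω ∧ Lv X Mix ω (· ∈ L) C) C}
    have h5 : ∀ ω, ∃ C, ω ∈ B → First r (fun C => C ∈ Fam ω ∧ Lv X Mix ω (· ∈ L) C) C ∧
        Bad X Mix r Fam s (L ∪ C.image (·.1.1)) ω := fun ω => by
      by_cases c : ω ∈ B
      · obtain ⟨C, hC⟩ := (hB ω c).2
        exact ⟨C, fun _ => hC⟩
      · exact ⟨∅, fun h => absurd h c⟩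
    choose fc h5 using h5
    have hsub : B ⊆ (B.image fc).biUnion fun C =>
        ((C.image (·.1.1)).powerset.erase ∅).biUnion (Q C) := by
      intro ω hω
      refine mem_biUnion.2 ⟨fc ω, mem_image_of_mem _ hω, mem_biUnion.2
        ⟨univ.filter fun i => ¬Cons (X i (ω i) false) (dem (fc ω) i), mem_erase.2 ⟨fun e => ?_, mem_powerset.2
          fun i hi => ?_⟩, mem_filter.2 ⟨hω, (h5 ω hω).2, fun i => by simp, (h5 ω hω).1⟩⟩⟩
      · refine (hB ω hω).1.2 _ (h5 ω hω).1.1.1 fun i => ⟨_, fun _ => rfl, (hG i).m0 _,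
          cons_dem.1 (not_not.1 fun a => ?_)⟩
        exact notMem_empty i (e ▸ mem_filter.2 ⟨mem_univ i, a⟩)
      · by_contra c
        exact (mem_filter.1 hi).2 (cons_dem.2 fun p b hd => absurd (mem_image.2 ⟨_, hd, rfl⟩) c)
    have h1 : ∀ C ∈ B.image fc, ((((C.image (·.1.1)).powerset.erase ∅).biUnion (Q C)).card : ℝ) ≤
        α ^ (s + 1) * (Z C).card := by
      intro C hC
      obtain ⟨ω₀, a1, rfl⟩ := mem_image.1 hC
      have hw := hF _ _ (h5 ω₀ a1).1.1.1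
      generalize fc ω₀ = C at hw
      refine (Nat.cast_le.2 card_biUnion_le).trans ?_
      rw [Nat.cast_sum]
      refine (sum_le_sum (g := fun T => α ^ s * (Z C).card * θ ^ T.card) fun T hT => ?_).trans ?_
      · refine (one_term hG hθ (pow_nonneg h0 s) hw (ih _) (mem_powerset.1 (mem_erase.1 hT).2) _ N
          (fun ω hω => ?_) fun ω hω => hN ω (mem_filter.1 hω).1).trans_eq (by ring)
        obtain ⟨b1, b2, b3, b4⟩ := mem_filter.1 hω
        exact ⟨⟨⟨fun ω' h => (hB ω b1).1.1 ω' fun i hi => h i (mem_union_left _ hi),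
          (hB ω b1).1.2⟩, b2⟩, b3, (hB ω b1).1.1, b4⟩
      · rw [← mul_sum, pow_succ, mul_right_comm]
        exact mul_le_mul_of_nonneg_right (mul_le_mul_of_nonneg_left
          ((sum_sub _ (card_image_le.trans hw) hθ).trans hα) (pow_nonneg h0 s)) (Nat.cast_nonneg _)
    refine (Nat.cast_le.2 ((card_le_card hsub).trans card_biUnion_le)).trans ?_
    rw [Nat.cast_sum]
    refine (sum_le_sum h1).trans ?_
    rw [← mul_sum, ← Nat.cast_sum, ← card_biUnion]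
    · exact mul_le_mul_of_nonneg_left (Nat.cast_le.2 (card_le_card
        (biUnion_subset.2 fun C _ => filter_subset _ _))) (pow_nonneg h0 _)
    · refine fun C _ C' _ hne => disjoint_left.2 fun ω h2 h3 => ?_
      have a1 := (mem_filter.1 h2).2
      have a2 := (mem_filter.1 h3).2
      exact (tri C C' hne).elim (fun h => a2.2 C h a1.1) fun h => a1.2 C' h a2.1

end Ki

theorem killS : KillStmt := by
  intro ι P _ _ Ω _ X Mix w s θ α hθ hG hα J Fam hJ hF B hB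
  classical
  have h0 : 0 ≤ α := (sub_nonneg.2 (one_le_pow₀ (by linarith))).trans hα
  have wo : IsWellOrder (Finset ((ι × P) × Bool)) WellOrderingRel := inferInstance
  have key : ∀ J₀ : Finset ι, (#{ω ∈ B | J ω = J₀} : ℝ) ≤ α ^ (s + 1) * #{ω | J ω = J₀} := by
    intro J₀
    refine Ki.hall_bad (r := WellOrderingRel) (Fam := Fam)
      (fun a b h => (trichotomous_of WellOrderingRel a b).elim Or.inl fun h' =>
        h'.elim (fun e => absurd e h) Or.inr) hG hθ hα hF (s + 1) J₀ᶜ _ _ (fun ω hω => ?_)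
      fun ω hω ω' h => ?_
    · obtain ⟨a1, rfl⟩ := mem_filter.1 hω
      refine ⟨⟨fun ω' h => (hJ ω ω' fun i hi => h i (mem_compl.2 hi)).2, (hB ω a1).1⟩, ?_⟩
      simpa using Ki.bad_of wo.wf (hF ω) (J ω) s ∅ (empty_subset _)
        fun S a2 a3 => (hB ω a1).2 S a2 (by simpa using a3)
    · obtain ⟨-, rfl⟩ := mem_filter.1 hω
      exact mem_filter.2 ⟨mem_univ _, (hJ ω ω' fun i hi => h.1 i (mem_compl.2 hi)).1⟩
  rw [card_eq_sum_card_fiberwise (f := J) (t := univ) fun _ _ => mem_coe.2 (mem_univ _),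
    ← card_univ, card_eq_sum_card_fiberwise (f := J) (s := univ) (t := univ)
      fun _ _ => mem_coe.2 (mem_univ _), Nat.cast_sum, Nat.cast_sum, mul_sum]
  exact sum_le_sum fun J₀ _ => key J₀

end Pool.Agent.MP_a2d820_lc.h17
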