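import Pool.Agent.MP_a2d820_lc.h17.Spec2

/-!
The marked tables of one stage are simulated by circuits with three more layers.
-/

set_option autoImplicit false

namespace Pool.Agent.MP_a2d820_lc.h17

open Pool.Agent.MP_a2d820_lc.h69 Pool.Agent.PolyT Pool.Agent.H82 N487b59b3 Function Finset

open Classical in
/-- The row of a marked address. -/
noncomputable def la_loc (n T : ℕ) (s : List Bool) : Option (h31u.Reg n T) :=
  if h : IsN s ∧ n ≤ (row s).length ∧ (row s).length < T then some ⟨row s, h.2⟩ else none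

/-- The tables `τ` on top of `Z`. -/
noncomputable def la_mrg {n T : ℕ} (Z : Lang) (τ : h31u.Reg n T → Lang) : Lang :=
  fun s => (la_loc n T s).elim (Z s) fun i => τ i (mid s)

/-- The tables of all rows. -/
noncomputable def la_eta {n T : ℕ} (X : h31u.Reg n T → Bool → Lang) (u : List Bool) :
    Bool → Lang :=
  if h : n ≤ u.length ∧ u.length < T then X ⟨u, h⟩ else fun _ _ => false

theorem la_len {n T : ℕ} {s : List Bool} {i : h31u.Reg n T} (h : la_loc n T s = some i) :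
    i.1.length ^ 2 ≤ s.length := by
  unfold la_loc at h
  split_ifs at h with h'
  rw [← Option.some.inj h]
  exact h'.1.row_le

open Classical in
theorem la_nor (nc : h31u.Enum) {n T : ℕ} (X : h31u.Reg n T → Bool → Lang) (Z : Lang) :
    nor nc n T (la_eta X) Z =
      la_mrg Z fun i => X i (!decide (h31u.yes nc i.1 (nor nc n T (la_eta X) Z))) := by
  funext s
  rw [nor_eq, la_mrg, la_loc]
  split_ifs with h
  · rw [la_eta, dif_pos h.2]
    rfl
  · rfl

theorem la_sys (nc : h31u.Enum) {n T : ℕ} (hn : 1 < n) :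
    Sys2 (fun (R : h31u.Reg n T) (Z : Lang) (τ : h31u.Reg n T → Lang) =>
      h31u.yes nc R.1 (la_mrg Z τ)) (fun R => Nat.log n R.1.length) T := by
  classical
  intro R z τ h
  obtain ⟨D, h1, h2, h3⟩ := h31u.yes_cert h
  have h4 := R.2.2
  refine ⟨D, D.biUnion fun s => (la_loc n T s).elim ∅ fun i => {((i, mid s), τ i (mid s))},
    by omega, (card_biUnion_le_card_mul _ _ 1 fun s _ => ?_).trans (by omega), fun d hd => ?_,
    fun z' τ' e1 e2 => h3 _ fun s hs => ?_⟩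
  · cases la_loc n T s <;> simp
  · obtain ⟨s, hs, hd⟩ := mem_biUnion.1 hd
    cases e : la_loc n T s with
    | none => simp [e] at hd
    | some i =>
      rw [e] at hd
      obtain rfl := mem_singleton.1 hd
      have a1 := i.2.1
      have a2 := la_len e
      have a3 := h2 s hs
      have a4 : i.1.length * n ≤ i.1.length ^ 2 := by
        rw [sq]
        exact Nat.mul_le_mul_left _ a1
      have a5 : i.1.length ≠ 0 := by omega
      exact ⟨(Nat.log_mul_base hn a5).ge.trans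
        (Nat.log_mono_right (by omega : i.1.length * n ≤ R.1.length)), rfl⟩
  · unfold la_mrg
    cases e : la_loc n T s with
    | none => exact e1 s hs
    | some i =>
      exact e2 ((i, mid s), τ i (mid s))
        (mem_biUnion.2 ⟨s, hs, by rw [e]; exact mem_singleton_self _⟩)

theorem la_dt {n T : ℕ} (X : h31u.Reg n T → Bool → Lang) (s : List Bool) :
    DT 1 fun y : List Bool ⊕ h31u.Reg n T → Bool =>
      la_mrg (fun v => y (.inl v)) (fun i => X i (y (.inr i))) s := by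
  unfold la_mrg
  cases la_loc n T s with
  | none => exact dt_var _
  | some i =>
    exact (DTq.node (Set.mem_range_self (Sum.inr i)) (.const 0 (X i false (mid s)))
      (.const 0 (X i true (mid s)))).congr fun y => by
        simp only [Option.elim_some]
        cases y (.inr i) <;> rfl

theorem la_val (h5 : Val2Stmt) {n T g : ℕ} {η : List Bool → ℕ} (hn : 1 ≤ n) (hη : ∀ u, η u ≤ T)
    (hg : 6 * T ≤ g + 1) :
    hiSmall (fun ω : ∀ i : h31u.Reg n T, Om2 (i.1.length ^ 2) g (η i.1) =>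
      ∃ i, ¬Okr2 (tab2 _ _ _ (ω i)) (i.1.length ^ 2) (η i.1))
      (2 ^ (T + 1) * ((2 * 4 ^ T ^ 2) ^ T * Real.exp (-(2 ^ n ^ 2 / (3 * (g + 1)))))) := by
  refine hi_mono (hi_ex (a := (2 * 4 ^ T ^ 2) ^ T * Real.exp (-(2 ^ n ^ 2 / (3 * (g + 1)))))
    fun i => hi_pi i (hi_mono (h5.2 _ _ _ (Nat.pow_pos (hn.trans i.2.1))
      ((Nat.mul_le_mul_left _ (hη _)).trans hg)) (fun _ h => h) ?_)) (fun _ h => h) ?_
  · have a1 : i.1.length ^ 2 ≤ T ^ 2 := Nat.pow_le_pow_left i.2.2.le _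
    have a2 : n ^ 2 ≤ i.1.length ^ 2 := Nat.pow_le_pow_left i.2.1 _
    have a3 : (4 : ℝ) ^ i.1.length ^ 2 ≤ 4 ^ T ^ 2 := pow_le_pow_right₀ (by norm_num) a1
    have a4 : (2 : ℝ) ^ n ^ 2 ≤ 2 ^ i.1.length ^ 2 := pow_le_pow_right₀ (by norm_num) a2
    have a5 : (1 : ℝ) ≤ 4 ^ T ^ 2 := one_le_pow₀ (by norm_num)
    exact mul_le_mul ((pow_le_pow_left₀ (by positivity) (by linarith) _).trans
      (pow_le_pow_right₀ (by linarith) (hη _))) (Real.exp_le_exp.2 (neg_le_neg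
        (div_le_div_of_nonneg_right a4 (by positivity)))) (by positivity) (by positivity)
  · refine mul_le_mul_of_nonneg_right ?_ (by positivity)
    exact_mod_cast (h31u.card_reg (n := n) (T := T) (l := T) univ fun R _ => R.2.2.le).le

/-- The numbers. -/
theorem la_num {n T L b a : ℕ} (h1 : 4 * T ≤ 2 ^ b) (h2 : T ≤ n ^ L) (h3 : n ≤ T)
    (h4 : (L + 3) ^ 3 * b ≤ a) (h5 : 16 * (a + 2) ≤ n) (hb : 2 ≤ b) :
    b * (L + 1) < a ∧ b ≤ b * (L + 1) ∧ 1 + 4 * 2 ^ b * 2 ^ (b * (L + 1)) ≤ 2 ^ (b * (L + 5)) ∧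
    T * (2 * T) ^ L ≤ 2 ^ (b * (L + 1)) ∧ T ≤ (2 ^ (b * (L + 5))) ^ L ∧
    2 * (2 * (2 ^ (b * (L + 5))) ^ L) ^ L ≤ 2 ^ a ∧
    2 ^ b + 1 + 2 * ((2 ^ b + 1) * (2 * (2 ^ (b * (L + 5))) ^ L) ^ L) ≤ 2 ^ a - 1 ∧
    L * 2 ^ (T + 3) ≤ 2 ^ 2 ^ b := by
  have p2 : ∀ {b c : ℕ}, b ≤ c → 2 ^ b ≤ 2 ^ c := fun h => Nat.pow_le_pow_right two_pos h
  have hL : 1 ≤ L := Nat.pos_of_ne_zero fun h => by
    rw [h, pow_zero] at h2
    omega
  have e1 : (2 * (2 ^ (b * (L + 5))) ^ L) ^ L = 2 ^ ((b * (L + 5) * L + 1) * L) := by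
    rw [← pow_mul, ← pow_succ', ← pow_mul]
  have e2 : b + 3 + (b * (L + 5) * L + 1) * L ≤ a := by
    refine le_trans ?_ h4
    nlinarith [Nat.zero_le (b * L ^ 2), Nat.mul_le_mul_right L hb]
  have e3 : 1 ≤ 2 ^ b := Nat.one_le_two_pow
  refine ⟨lt_of_lt_of_le ?_ h4, Nat.le_mul_of_pos_right _ (by omega), ?_, ?_, ?_, ?_, ?_, ?_⟩
  · nlinarith [Nat.zero_le (b * L ^ 2), Nat.zero_le (b * L ^ 3), Nat.zero_le (b * L)]
  · have a1 : 1 ≤ 2 ^ b * 2 ^ (b * (L + 1)) := Nat.mul_pos e3 Nat.one_le_two_pow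
    have a2 : 2 ^ (3 + (b + b * (L + 1))) ≤ 2 ^ (b * (L + 5)) := p2 (by nlinarith)
    rw [pow_add, pow_add] at a2
    rw [mul_assoc]
    omega
  · rw [pow_mul, pow_succ']
    exact Nat.mul_le_mul (by omega) (Nat.pow_le_pow_left (by omega) _)
  · rw [← pow_mul]
    exact (by omega : T ≤ 2 ^ b).trans (p2 (by nlinarith [Nat.zero_le (b * L * L)]))
  · rw [e1, ← pow_succ']
    exact p2 (by omega)
  · have a1 := p2 e2
    have a2 : 1 ≤ 2 ^ ((b * (L + 5) * L + 1) * L) := Nat.one_le_two_pow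
    rw [pow_add, pow_add] at a1
    rw [e1]
    refine Nat.le_sub_one_of_lt (lt_of_lt_of_le ?_ a1)
    nlinarith
  · have a1 : L ≤ a := le_trans (by nlinarith [Nat.zero_le (L ^ 2), Nat.zero_le (L ^ 3)]) h4
    have a2 : T < 2 ^ T := Nat.lt_two_pow_self
    refine (Nat.mul_le_mul_right _ (by omega : L ≤ 2 ^ T)).trans ?_
    rw [← pow_add]
    exact p2 (by omega)

theorem layerS (h1 : Gad2Stmt) (h2 : BlkStmt) (h3 : WitStmt) (h4 : CirStmt) (h5 : Val2Stmt)
    (h6 : Num2Stmt) : LayerStmt := by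
  classical
  intro nc n T L a₀ a k H ht f b1 b2 b3 b4 b5 b6 b7 hf
  have p2 : ∀ {b c : ℕ}, b ≤ c → 2 ^ b ≤ 2 ^ c := fun h => Nat.pow_le_pow_right two_pos h
  have c0 : 4 * T ≤ 2 ^ (a₀ + 2) := by rw [pow_add]; omega
  obtain ⟨c1, c2, c3, c4, c5, c6, c7, c8⟩ := la_num c0 b2 b3 b4 b5 (by omega)
  generalize a₀ + 2 = b at *
  generalize 2 ^ (b * (L + 5)) = q at *
  generalize b * (L + 1) = A at *
  have c9 : T ≤ 2 ^ A := (by omega : T ≤ 2 ^ b).trans (p2 c2)
  obtain ⟨d1, d2, d3⟩ := h6 n T A c9 b3 (by omega)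
  have c10 : 2 * 2 ^ A ≤ 2 ^ a := by
    rw [← pow_succ']
    exact p2 c1
  have c11 : 2 * 2 ^ (2 ^ a - 1) = 2 ^ 2 ^ a := by
    rw [← pow_succ', Nat.sub_add_cancel Nat.one_le_two_pow]
  have hc : Fintype.card (h31u.Reg n T) < 2 ^ 2 ^ b :=
    (h31u.card_reg (l := T) univ fun R _ => R.2.2.le).trans_le (p2 (by omega))
  let Ω : h31u.Reg n T → Type := fun i => Om2 (i.1.length ^ 2) (16 * 4 ^ A) (ht i.1)
  let X : ∀ i, Ω i → Bool → Lang := fun i => tab2 _ _ _
  let Y : h31u.Reg n T → Lang → (h31u.Reg n T → Lang) → Prop := fun R Z τ =>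
    h31u.yes nc R.1 (la_mrg Z τ)
  let lev : h31u.Reg n T → ℕ := fun R => Nat.log n R.1.length
  let β : Lang → (∀ i, Ω i) → h31u.Reg n T → Bool := fun Z ω i =>
    !decide (h31u.yes nc i.1 (nor nc n T (la_eta fun i => X i (ω i)) Z))
  have sys : Sys2 Y lev T := la_sys nc (by omega)
  have hl : ∀ R, lev R < L := fun R => by
    have := R.2
    exact Nat.log_lt_of_lt_pow (by omega) (by omega)
  have fx : ∀ Z ω, Fx Y (fun i => X i (ω i)) Z (β Z ω) := fun Z ω R => by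
    simp only [Y, β]
    rw [← la_nor, Bool.not_eq_false', decide_eq_true_iff]
  have gad : ∀ i, Gad1 (X i) (mix2 _ _ n _) (2 ^ A) (1 / (4 * 2 ^ A)) := fun i => by
    refine h1 _ _ n _ _ _ Nat.one_le_two_pow ?_ (le_of_eq ?_) ?_ ?_
    · exact (Nat.pow_lt_pow_right (by norm_num) c1).trans_le (b6.trans
        ((Nat.pow_le_pow_left (by omega) _).trans (Nat.pow_le_pow_right (by omega) (b7 _).1)))
    · push_cast
      rw [show (4 : ℝ) ^ A = 2 ^ A * 2 ^ A by rw [← mul_pow]; norm_num]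
      field_simp
      norm_num
    · push_cast
      exact d1.trans (mul_le_mul_of_nonneg_left
        (pow_le_pow_right₀ (by norm_num) (Nat.pow_le_pow_left i.2.1 _)) (by positivity))
    · push_cast
      rw [show (1 / (4 * 2 ^ A) * 2 ^ A : ℝ) = 1 / 4 by field_simp]
      norm_num
  have wit := fun Z ω => h3 _ _ _ Y lev T (2 ^ A) L (q ^ L) (fun i => X i (ω i)) Z (β Z ω) sys hl
    (by omega) c4 c5 (fx Z ω)
  choose c bad G e1 e2 e3 e4 e5 e6 using fun ω : ∀ i, Ω i => h4 _ _ _ Y lev (2 ^ A)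
    ((2 * q ^ L) ^ L) (2 ^ b) (2 ^ a) (2 ^ (2 ^ a - 1)) (fun i => X i (ω i)) hc
    (Nat.pow_pos (by omega)) (by omega) c6 (p2 c7)
  refine ⟨∀ i, Ω i, inferInstance, ⟨fun i => (om2Inh _ _ _).default⟩,
    fun ω => la_eta fun i => X i (ω i), fun ω Z => f (la_mrg Z fun i => X i (ω i) (c ω i Z)), bad,
    fun ω => ⟨?_, ?_⟩, fun ω Z hz => ?_, fun Z => ?_⟩
  · have := h31u.ac_comp Nat.one_le_two_pow (e1 ω) (e2 ω)
      (Sum.elim (fun v (z : Lang) => z v) (c ω)) (by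
        rintro (v | R)
        · exact Or.inr (dt_var v)
        · exact Or.inl (e3 ω R)) k _
      (h31u.ac_up (hf _ _ (la_dt fun i => X i (ω i))) (by omega) (p2 (by omega)))
    rw [c11, show 2 + k + 1 = k + 3 by omega] at this
    exact this.mono (Set.singleton_subset_iff.2 (Or.inl ⟨_, rfl, rfl⟩))
  · have := h31u.ac_lift (G := {bad ω}) Nat.one_le_two_pow
      ((card_singleton _).trans_le Nat.one_le_two_pow) (by rw [coe_singleton]; exact e4 ω) k
    rw [add_comm, coe_singleton] at this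
    exact h31u.ac_up this le_rfl (p2 (by omega))
  · rw [la_nor]
    refine congrArg (fun γ : h31u.Reg n T → Bool => f (la_mrg Z fun i => X i (ω i) (γ i)))
      (funext fun R => (?_ : c ω R Z = β Z ω R))
    refine Bool.eq_iff_iff.2 ⟨fun h => ?_, fun h => ?_⟩
    · obtain ⟨P, Q, -, -, g1, g2⟩ := (e5 ω R Z).1 h
      exact ((wit Z ω).1 P Q g1).2 R g2
    · obtain ⟨P, Q, g1, g2, g3, g4 | g4⟩ := (e6 ω Z).1 hz R
      · exact absurd (h.symm.trans (((wit Z ω).1 P Q g3).1 R g4)) (by simp)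
      · exact (e5 ω R Z).2 ⟨P, Q, g1, g2, g3, g4⟩
  · have g1 := h2 _ _ _ Ω X (fun i => mix2 _ _ n _) Y lev T (2 ^ A) L (2 ^ b) q (1 / (4 * 2 ^ A))
      (by positivity) gad d3 sys hl hc c3 Z (β Z) (fx Z)
    have g2 := la_val h5 (n := n) (g := 16 * 4 ^ A) (by omega) (fun u => (b7 u).2) (by
      have : 2 ^ A ≤ 4 ^ A := Nat.pow_le_pow_left (by norm_num) _
      omega)
    refine hi_mono (hi_or g1 g2) (fun ω h => h.imp (fun h g3 => ?_) fun ⟨u, a1, a2, a3⟩ =>
      ⟨⟨u, a1, a2⟩, by simpa only [la_eta, dif_pos (And.intro a1 a2)] using a3⟩) ?_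
    · exact absurd (h.symm.trans ((e6 ω Z).2 ((wit Z ω).2 g3))) (by simp)
    · have g3 : (L / 2 ^ 2 ^ b : ℝ) ≤ (1 / 2) ^ (T + 3) := by
        rw [one_div_pow, div_le_div_iff₀ (by positivity) (by positivity), one_mul]
        exact_mod_cast c8
      push_cast
      rw [pow_succ _ (T + 2)] at g3 d2
      linarith

end Pool.Agent.MP_a2d820_lc.h17
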