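import Pool.Agent.MP_a2d820_lc.h17.Spec2

/-!
Project IP, second part: valid marked tables give games for the complements of the languages in
`NP`, with an honest prover in `NP`.
-/

set_option autoImplicit false

namespace Pool.Agent.MP_a2d820_lc.h17

open Pool.Agent.MP_a2d820_lc.h69 Pool.Agent.PolyT Pool.Agent.H82 N487b59b3 Function Finset

theorem np_query {Q : List Bool → List Bool} {g : List Bool × Bool → Bool} (hQ : PolyT.Poly Q)
    (hg : PolyT.Poly g) (O : Lang) : (fun x => g (x, O (Q x))) ∈ RelP O := by
  obtain ⟨M, hM⟩ := exists_om (ini := fun x => (x, [], [])) (Q := fun c => Q c.1)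
    (δ := fun p => p.1) (fin := fun _ => true) (out := fun p => g (p.1.1, p.2))
    (by fun_prop) (by fun_prop) (by fun_prop) (by fun_prop) (by fun_prop)
  refine ⟨M, 6 * Polynomial.X + 4, fun x => ⟨1, by simp, ?_⟩⟩
  exact hM O x 0 _ (fun _ => (x, [], [])) rfl (by simp) (by simp) rfl
    (fun _ _ => by simp [length_st]) (by simp; omega)

theorem np_code {nc : h31u.Enum} (hnc : Surjective nc) {A L : Lang} (hL : L ∈ RelNP A) :
    ∃ (i : ℕ) (y : List Bool → List Bool) (P : Polynomial ℕ), PolyT.Poly y ∧
      (∀ x : List Bool, (bitEncode (i, x, y x)).length = P.eval x.length) ∧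
      ∀ x : List Bool, h31u.yes nc (bitEncode (i, x, y x)) A ↔ L x = true := by
  obtain ⟨q, R, hR, hL⟩ := hL
  obtain ⟨M, p, rfl⟩ := exists_clk hR
  obtain ⟨i, hi⟩ := hnc (M, p, q)
  obtain ⟨r, hr⟩ := M.exists_qb
  set m₁ : Polynomial ℕ := p.comp (2 * Polynomial.X + 1 + q)
  obtain ⟨F, hF, hF'⟩ := exists_list_eval (l := fun x : List Bool => x) (by fun_prop)
    (m₁ + r.comp m₁)
  let u : List Bool → List Bool := fun x => bitEncode (i, x, (F x).map fun _ => false)
  have hlen : ∀ x, m₁.eval x.length + r.eval (m₁.eval x.length) < (u x).length := by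
    intro x
    have := hF' x
    simp only [Polynomial.eval_add, Polynomial.eval_comp] at this
    simp only [u, length_enc_pair, PolyT.Poly.enc_bools_length, List.length_map]
    omega
  have hm : ∀ x w : List Bool, w.length ≤ q.eval x.length →
      p.eval (delimit x ++ w).length ≤ m₁.eval x.length := by
    intro x w hw
    simp only [m₁, Polynomial.eval_comp]
    refine eval_mono p ?_
    simp
    omega
  have hc : ∀ x w : List Bool, w.length ≤ q.eval x.length →
      clk M p (trunc (u x).length A) (delimit x ++ w) = clk M p A (delimit x ++ w) := by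
    refine fun x w hw => clkF_congr (fun c hc => ?_) _ _
    have h1 := hr c _ (hc.trans (hm x w hw))
    have h2 := hlen x
    have h3 : (M.qry c).length < (u x).length := by omega
    simp [trunc, h3]
  refine ⟨i, fun x => (F x).map fun _ => false, Polynomial.C (2 * (bitEncode i).length + 2) +
    6 * Polynomial.X + 3 * (m₁ + r.comp m₁), by fun_prop, fun x => ?_, fun x => ?_⟩
  · have := hF' x
    simp only [length_enc_pair, PolyT.Poly.enc_bools_length, List.length_map, Polynomial.eval_add,
      Polynomial.eval_mul, Polynomial.eval_C, Polynomial.eval_X, Polynomial.eval_ofNat] at this ⊢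
    omega
  · rw [hL]
    constructor
    · rintro ⟨i', x', y', w, e, h1, -, h2⟩
      have e' := bitEncode_injective e
      simp only [Prod.mk.injEq] at e'
      obtain ⟨rfl, rfl, -⟩ := e'
      rw [hi] at h1 h2
      exact ⟨w, h1, (hc x w h1).symm.trans h2⟩
    · rintro ⟨w, h1, h2⟩
      refine ⟨i, x, _, w, rfl, by rwa [hi], ?_, ?_⟩
      · have h3 := hm x w h1
        have h4 := hlen x
        rw [hi]
        exact h3.trans (Nat.le_of_lt (lt_of_le_of_lt (Nat.le_add_right _ _) h4))
      · rw [hi]
        exact (hc x w h1).trans h2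

theorem np_gv {V V' : Lang} {m : ℕ} (hV : ∀ s : List Bool, m ≤ s.length → V s = V' s) (h : ℕ)
    (t : List Bool) (ht : h = 0 → m ≤ t.length) : gv V m h t = gv V' m h t := by
  induction h generalizing t with
  | zero => simp only [gv, hV t (ht rfl)]
  | succ h ih =>
    simp only [gv]
    refine congrArg _ (funext fun y => congrArg (· / _) (sum_congr rfl fun z _ => ih _ fun _ => ?_))
    simp only [List.length_append, List.length_ofFn]
    omega

theorem np_triv {V P : Lang} {c : List Bool} (hV : ∀ s, V (c ++ s) = true) (m h : ℕ)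
    (s : List Bool) : Wins V P m h (c ++ s) := by
  induction h generalizing s with
  | zero => exact hV s
  | succ h ih =>
    intro z
    rw [List.append_assoc c, List.append_assoc c]
    exact ih _

theorem np_wins {a V P : Lang} {m : ℕ} {c : List Bool}
    (hV : ∀ s : List Bool, m ≤ s.length → V (c ++ s) = a s)
    (hP : ∀ (s : List Bool) (i : ℕ), P (delimit (c ++ s) ++ List.replicate i true) = true ↔
      ∃ w : List Bool, w.length = m ∧ w.getD i false = true ∧ V (c ++ (s ++ w)) = true)
    (h : ℕ) (s : List Bool) (hs : h = 0 → m ≤ s.length) (hW : Wm a m h s) :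
    Wins V P m h (c ++ s) := by
  induction h generalizing s with
  | zero => exact (hV s (hs rfl)).trans hW
  | succ h ih =>
    obtain ⟨y, hy, hz⟩ := hW
    have hg : ∀ (y' : Msg m) (i : Fin m), (List.ofFn y').getD i false = y' i := fun y' i => by
      simp
    have e : (fun i : Fin m => P (delimit (c ++ s) ++ List.replicate i true)) = y := by
      funext i
      rw [Bool.eq_iff_iff, hP]
      constructor
      · rintro ⟨w, rfl, h1, h2⟩
        rw [hV _ (by simp), ← List.ofFn_get w] at h2
        rw [← (hy _).1 h2, ← hg w.get i, List.ofFn_get, h1]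
      · refine fun h1 => ⟨List.ofFn y, List.length_ofFn, (hg y i).trans h1, ?_⟩
        rw [hV _ (by simp)]
        exact (hy y).2 rfl
    intro z
    rw [e, List.append_assoc c, List.append_assoc c]
    refine ih _ (fun _ => ?_) (hz z)
    simp only [List.length_append, List.length_ofFn]
    omega

open Classical in
theorem np_prover {u : List Bool → List Bool} (hu : PolyT.Poly u) (A : Lang) :
    ∃ P ∈ RelNP A, ∀ (x s : List Bool) (i : ℕ),
      P (delimit (delimit x ++ s) ++ List.replicate i true) = true ↔ ∃ w : List Bool,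
        w.length = (u x).length ^ 2 ∧ w.getD i false = true ∧ A (ad (u x) (s ++ w) 2) = true := by
  let v : List Bool → List Bool := fun c => u (sel true (sel true c))
  have hv : PolyT.Poly v := by fun_prop
  obtain ⟨B, hB⟩ := hv.bd
  refine ⟨fun c => decide (∃ w : List Bool, w.length = (v c).length ^ 2 ∧
    w.getD (sel false c).length false = true ∧
      A (ad (v c) (sel false (sel true c) ++ w) 2) = true), ⟨B.comp (3 * Polynomial.X) ^ 2, _,
    np_query
      (Q := fun d => ad (v (sel true d)) (sel false (sel true (sel true d)) ++ sel false d) 2)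
      (g := fun p => eqB (sel false p.1).length ((v (sel true p.1)).length *
        (v (sel true p.1)).length) && ((sel false p.1).getD (sel false (sel true p.1)).length false
          && p.2)) (by fun_prop) (by fun_prop) A, fun c => ?_⟩, fun x s i => ?_⟩
  · simp only [sel_pair, if_true, Bool.false_eq_true, if_false, decide_eq_true_eq,
      Bool.and_eq_true, eqB_iff, ← pow_two]
    refine exists_congr fun w => ⟨fun h => ⟨?_, h⟩, fun h => h.2⟩
    have := hB c
    simp only [PolyT.Poly.enc_bools_length] at this
    simp only [h.1, Polynomial.eval_pow, Polynomial.eval_comp, Polynomial.eval_mul,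
      Polynomial.eval_ofNat, Polynomial.eval_X]
    exact Nat.pow_le_pow_left (by omega) 2
  · simp only [v, sel_pair, if_true, Bool.false_eq_true, if_false, decide_eq_true_eq,
      List.length_replicate]

theorem np_ok (h1 : Val2Stmt) (r : ℕ → ℕ) : ∃ η, Ok2 r η := by
  classical
  let ht : List Bool → ℕ := extend (fun p : ℕ × List Bool × List Bool => bitEncode p)
    (fun p => r p.2.1.length) fun _ => 0
  have e : ∀ p : ℕ × List Bool × List Bool, ht (bitEncode p) = r p.2.1.length := fun p =>
    Injective.extend_apply (fun _ _ h => bitEncode_injective h) _ _ p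
  refine ⟨fun u b => bif b then tab2 (u.length ^ 2) 0 (ht u) default true else fun _ => false, ?_⟩
  rintro i x y u rfl -
  rw [← e (i, x, y)]
  refine ⟨h1.1 _ _ _ _ (Nat.one_le_pow _ _ ?_), by simp [ar_const]⟩
  rw [length_enc_pair]
  omega

theorem npS (h1 : Val2Stmt) : NPStmt := by
  classical
  refine ⟨np_ok h1, fun r mc nc θ ξ η hr hnc hη L hL => ?_⟩
  obtain ⟨i, y, P, hy, hP, hL⟩ := np_code hnc hL
  set A := orc2 mc nc θ ξ η with hA
  let u : List Bool → List Bool := fun x => bitEncode (i, x, y x)
  have hu : PolyT.Poly u := by fun_prop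
  obtain ⟨n, hn⟩ := Filter.eventually_atTop.1
    ((poly_le_two_pow P 1 one_pos).and (hr.eventually_ge_atTop 1))
  let l := ((List.finite_length_lt Bool n).toFinset.filter (L · = false)).toList
  have hl : ∀ x : List Bool, x.length < n → l.any (eqB x) = !L x := fun x hx => by
    rw [Bool.eq_iff_iff]
    simp [l, hx]
  obtain ⟨Q, hQ, hQ'⟩ := np_prover hu A
  refine ⟨P ^ 2, _, np_query (Q := fun c => ad (u (sel true c)) (sel false c) 2)
    (g := fun p => bif ltB (sel true p.1).length n then l.any (eqB (sel true p.1)) else p.2)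
    (by fun_prop) (by fun_prop) A, Q, hQ, fun x => ?_⟩
  rw [← List.append_nil (delimit x), ar_shift, Polynomial.eval_pow, ← hP]
  simp only [sel_pair, if_true, Bool.false_eq_true, if_false]
  by_cases hx : x.length < n
  · simp only [ltB_iff.2 hx, hl x hx, cond_true]
    refine ⟨fun h => np_triv (fun s => ?_) _ _ _, fun h => by simp [h, ar_const]⟩
    simp only [sel_pair, if_true, ltB_iff.2 hx, hl x hx, cond_true, h]
  · obtain ⟨h2, h3⟩ := hn x.length (by omega)
    have h4 : ltB x.length n = false := ltB_false_iff.2 (by omega)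
    have h5 : ∀ s : List Bool, (u x).length ^ 2 ≤ s.length →
        A (ad (u x) s 2) = η (u x) (!L x) s := fun s hs => by
      rw [hA, orc2_two _ _ _ _ _ ⟨_, _, rfl, hs⟩, row_ad, mid_ad, ← hA]
      exact congrArg (fun b => η (u x) (!b) s)
        (Bool.eq_iff_iff.2 (decide_eq_true_iff.trans (hL x)))
    obtain ⟨h6, h7⟩ := hη i x _ (u x) rfl (by rw [hP]; simpa using h2)
    simp only [h4, cond_false]
    refine ⟨fun h => np_wins (a := η (u x) true) (fun s hs => ?_) (fun s j => ?_) _ _
      (by omega) h6, fun h => ?_⟩
    · simp only [sel_pair, if_true, Bool.false_eq_true, if_false, h4, cond_false, h5 s hs, h]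
    · simp only [hQ', sel_pair, if_true, Bool.false_eq_true, if_false, h4, cond_false]
      rfl
    · rw [np_gv (V' := η (u x) false) (fun s hs => by rw [h5 s hs, h]) _ _ (by omega)]
      exact h7

end Pool.Agent.MP_a2d820_lc.h17
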