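import Pool.Agent.MP_a2d820_lc.h17.Spec2

/-! The numbers of the marked tables. -/

set_option autoImplicit false

namespace Pool.Agent.MP_a2d820_lc.h17

theorem nb_q (A : ℕ) : 16 * 4 ^ A + 2 ≤ 2 ^ (2 * A + 5) := by
  have h : 1 ≤ 4 ^ A := Nat.one_le_pow _ _ (by norm_num)
  rw [pow_add, pow_mul, show 2 ^ 2 = 4 from rfl]
  omega

theorem nb_one {n A : ℕ} (h : 16 * (A + 2) ≤ n) :
    54 * 2 ^ A * (16 * 4 ^ A + 2) * ((16 * 4 ^ A + 1) * 2 ^ A) ^ n * (4 * 2 ^ A) ≤ 2 ^ n ^ 2 := by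
  have h1 := nb_q A
  have h2 : ((16 * 4 ^ A + 1) * 2 ^ A) ^ n ≤ 2 ^ ((2 * A + 5 + A) * n) := by
    rw [pow_mul, pow_add 2 (2 * A + 5)]
    exact Nat.pow_le_pow_left (Nat.mul_le_mul_right _ (by omega)) n
  calc 54 * 2 ^ A * (16 * 4 ^ A + 2) * ((16 * 4 ^ A + 1) * 2 ^ A) ^ n * (4 * 2 ^ A)
      ≤ 2 ^ 6 * 2 ^ A * 2 ^ (2 * A + 5) * 2 ^ ((2 * A + 5 + A) * n) * (2 ^ 2 * 2 ^ A) :=
        Nat.mul_le_mul_right _ (Nat.mul_le_mul
          (Nat.mul_le_mul (Nat.mul_le_mul_right _ (by norm_num)) h1) h2)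
    _ = 2 ^ (6 + A + (2 * A + 5) + (2 * A + 5 + A) * n + (2 + A)) := by
        rw [← pow_add, ← pow_add, ← pow_add, ← pow_add, ← pow_add]
    _ ≤ 2 ^ n ^ 2 := by
        refine Nat.pow_le_pow_right (by norm_num) ?_
        have h4 : (1 + (2 * A + 5 + A)) * n ≤ n * n := Nat.mul_le_mul_right _ (by omega)
        rw [add_mul, one_mul, ← pow_two] at h4
        omega

theorem nb_two {n T A : ℕ} (hT : T ≤ 2 ^ A) (hn : n ≤ T) (h : 16 * (A + 2) ≤ n) :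
    (3 * T + 4 + 2 * T ^ 3) * (3 * (16 * 4 ^ A + 1)) ≤ 2 ^ n ^ 2 := by
  have h4 : T ≤ T ^ 3 := Nat.le_self_pow (by norm_num) T
  have h6 : T ^ 3 ≤ 2 ^ (A * 3) := by rw [pow_mul]; exact Nat.pow_le_pow_left hT 3
  have h7 : 3 * T + 4 + 2 * T ^ 3 ≤ 2 ^ (A * 3 + 4) := by
    rw [pow_add]; omega
  have h8 : 3 * (16 * 4 ^ A + 1) ≤ 2 ^ (2 * A + 5 + 2) := by
    have := nb_q A
    rw [pow_add 2 (2 * A + 5) 2]; omega
  calc (3 * T + 4 + 2 * T ^ 3) * (3 * (16 * 4 ^ A + 1))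
      ≤ 2 ^ (A * 3 + 4) * 2 ^ (2 * A + 5 + 2) := Nat.mul_le_mul h7 h8
    _ = 2 ^ (A * 3 + 4 + (2 * A + 5 + 2)) := by rw [← pow_add]
    _ ≤ 2 ^ n ^ 2 := by
        refine Nat.pow_le_pow_right (by norm_num) ?_
        have h9 : n ≤ n ^ 2 := Nat.le_self_pow (by norm_num) n
        omega

theorem nb_exp (m : ℕ) : (2 : ℝ) ^ m ≤ Real.exp m := by
  rw [← Real.exp_one_pow]
  refine pow_le_pow_left₀ (by norm_num) ?_ m
  have := Real.add_one_le_exp (1 : ℝ)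
  linarith

theorem num2S : Num2Stmt := by
  intro n T A hT hn h
  refine ⟨?_, ?_, ?_⟩
  · rw [one_div, inv_mul_eq_div, le_div_iff₀ (by positivity)]
    exact_mod_cast nb_one h
  · have h1 : (((3 * T + 4 + 2 * T ^ 3 : ℕ) : ℝ)) * (3 * (16 * 4 ^ A + 1)) ≤ 2 ^ n ^ 2 := by
      exact_mod_cast nb_two hT hn h
    have h2 : (((3 * T + 4 + 2 * T ^ 3 : ℕ) : ℝ)) ≤ 2 ^ n ^ 2 / (3 * (16 * 4 ^ A + 1)) :=
      (le_div_iff₀ (by positivity)).2 h1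
    have h3 := (nb_exp _).trans (Real.exp_le_exp.2 h2)
    have e : (2 : ℝ) ^ (T + 3) * (2 ^ (T + 1) * (2 * 4 ^ T ^ 2) ^ T) =
        2 ^ (3 * T + 4 + 2 * T ^ 3) := by
      rw [show (4 : ℝ) = 2 ^ 2 by norm_num, ← pow_mul, ← pow_succ', ← pow_mul, ← pow_add,
        ← pow_add]
      exact congrArg ((2 : ℝ) ^ ·) (by ring)
    rw [one_div, inv_pow, Real.exp_neg, ← mul_assoc, ← div_eq_mul_inv,
      div_le_iff₀ (Real.exp_pos _), le_inv_mul_iff₀ (by positivity), e]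
    exact h3
  · have h1 : (1 + 1 / (4 * 2 ^ A) : ℝ) ^ 2 ^ A ≤ Real.exp (1 / (4 * 2 ^ A)) ^ 2 ^ A :=
      pow_le_pow_left₀ (by positivity) (by rw [add_comm]; exact Real.add_one_le_exp _) _
    have e : ((2 ^ A : ℕ) : ℝ) * (1 / (4 * 2 ^ A)) = 1 / 4 := by
      push_cast
      field_simp
    rw [← Real.exp_nat_mul, e] at h1
    have h2 := Real.exp_bound_div_one_sub_of_interval (x := 1 / 4) (by norm_num) (by norm_num)
    norm_num at h2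
    linarith

end Pool.Agent.MP_a2d820_lc.h17
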