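import Pool.Agent.MP_a2d820_lc.h17.Spec2

/-!
The count for fixed data in a marked tree.
-/

set_option autoImplicit false

namespace Pool.Agent.MP_a2d820_lc.h17

open Pool.Agent.MP_a2d820_lc.h69 Function Finset

theorem pc_off {g : ℕ} (hg : 1 ≤ g) :
    Hall (fun c : Fin (g + 1) => c = 0) (fun _ c' => c' ≠ 0) (1 / g) := by
  intro B N h1 h2
  rcases B.eq_empty_or_nonempty with rfl | ⟨c, hc⟩
  · simp only [card_empty, Nat.cast_zero]
    positivity
  have a1 : B.card ≤ 1 := card_le_one.2 fun a ha b hb => (h1 a ha).trans (h1 b hb).symm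
  have a2 : g ≤ N.card := by
    simpa using card_le_card (s := univ.erase (0 : Fin (g + 1))) (t := N)
      fun a ha => h2 c hc a (mem_erase.1 ha).1
  have a3 : (0 : ℝ) < g := by exact_mod_cast hg
  rw [one_div, ← div_eq_inv_mul, le_div_iff₀ a3]
  exact_mod_cast (Nat.mul_le_mul_right g a1).trans ((one_mul g).trans_le a2)

theorem pc_on (g : ℕ) : Hall (fun _ : Fin (g + 1) => True) (fun _ c' => c' = 0) (g + 1) := by
  intro B N _ h2
  rcases B.eq_empty_or_nonempty with rfl | ⟨c, hc⟩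
  · simp only [card_empty, Nat.cast_zero]
    positivity
  have a1 : B.card ≤ g + 1 := by simpa using card_le_univ B
  have a2 : 1 ≤ N.card := card_pos.2 ⟨0, h2 c hc 0 rfl⟩
  exact_mod_cast a1.trans (Nat.le_mul_of_pos_right _ a2)

theorem pc_marks {Y : Type} [Fintype Y] [DecidableEq Y] {g : ℕ} (hg : 1 ≤ g) {O I : Finset Y}
    (hd : Disjoint O I) : Hall (fun μ : Y → Fin (g + 1) => ∀ y ∈ O, μ y = 0)
      (fun μ μ' => (∀ y, y ∉ O ∪ I → μ' y = μ y) ∧ (∀ y ∈ O, μ' y ≠ 0) ∧ ∀ y ∈ I, μ' y = 0)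
      ((1 / g) ^ O.card * (g + 1) ^ I.card) := by
  intro B N h1 h2
  have a := hallS Y (fun _ => Fin (g + 1)) (fun y c => y ∈ O → c = 0)
    (fun y _ c' => (y ∈ O → c' ≠ 0) ∧ (y ∉ O → c' = 0))
    (fun y => if y ∈ O then (1 / g : ℝ) else g + 1) (O ∪ I)
    (fun y _ => by split_ifs <;> positivity) (fun y _ => by
      by_cases hy : y ∈ O
      · simpa [hy] using pc_off hg
      · simpa [hy] using pc_on g) B N (fun μ hμ y _ => h1 μ hμ y) fun μ hμ μ' hE =>
      h2 μ hμ μ' ⟨hE.1, fun y hy => (hE.2 y (mem_union_left _ hy)).1 hy,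
        fun y hy => (hE.2 y (mem_union_right _ hy)).2 (disjoint_right.1 hd hy)⟩
  rwa [prod_union hd, prod_congr rfl fun z hz => if_pos hz,
    prod_congr (s₂ := I) rfl fun z hz => if_neg (disjoint_right.1 hd hz), prod_const,
    prod_const] at a

theorem pc_two {Y K M : Type} [Fintype Y] [Fintype K] [Fintype M] {S : K → Prop}
    {E : K → K → Prop} {t : ℝ} {S' : M → Prop} {E' : M → M → Prop} {t' : ℝ} (h : Hall S E t)
    (h' : Hall S' E' t') (t0 : 0 ≤ t) (t1 : 0 ≤ t') (y : Y) (B N : Finset ((Y × K) × M))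
    (b1 : ∀ ω ∈ B, ω.1.1 = y ∧ S ω.1.2 ∧ S' ω.2)
    (b2 : ∀ ω ∈ B, ∀ y' κ μ, E ω.1.2 κ → E' ω.2 μ → ((y', κ), μ) ∈ N) :
    (B.card : ℝ) * Fintype.card Y ≤ t' * t * N.card := by
  classical
  let L : Finset ((Y × K) × M) := {a | ∃ ω ∈ B, a.1 = ω.1 ∧ E' ω.2 a.2}
  let N' : Finset (M × K) := {a | ∀ y', ((y', a.2), a.1) ∈ N}
  have a1 := ga_hallR (C := Y × K) h' B L (fun ω hω => (b1 ω hω).2.2)
    fun ω hω a ha => mem_filter.2 ⟨mem_univ _, ω, hω, ha⟩
  have a2 := ga_hallR (C := M) h (L.image fun a => (a.2, a.1.2)) N' (fun x hx => by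
      obtain ⟨a, ha, rfl⟩ := mem_image.1 hx
      obtain ⟨ω, c1, c2, -⟩ := (mem_filter.1 ha).2
      exact c2 ▸ (b1 ω c1).2.1) fun x hx x' hE => by
    obtain ⟨a, ha, rfl⟩ := mem_image.1 hx
    obtain ⟨ω, c1, c2, c3⟩ := (mem_filter.1 ha).2
    exact mem_filter.2 ⟨mem_univ _, fun y' => b2 ω c1 y' _ _ (c2 ▸ hE.2) (hE.1 ▸ c3)⟩
  rw [card_image_of_injOn fun a ha a' ha' e => by
    obtain ⟨ω, c1, c2, -⟩ := (mem_filter.1 ha).2
    obtain ⟨ω', d1, d2, -⟩ := (mem_filter.1 ha').2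
    exact Prod.ext (Prod.ext (by rw [c2, d2, (b1 ω c1).1, (b1 ω' d1).1]) (Prod.mk.inj e).2)
      (Prod.mk.inj e).1] at a2
  have a3 : (Fintype.card Y * N'.card : ℝ) ≤ N.card := by
    have := card_le_card_of_injOn (s := (univ : Finset Y) ×ˢ N') (t := N)
      (fun a => ((a.1, a.2.2), a.2.1)) (fun a ha => (mem_filter.1 (mem_product.1 ha).2).2 a.1)
      fun a _ a' _ e => by
        simp only [Prod.mk.injEq] at e
        exact Prod.ext e.1.1 (Prod.ext e.2 e.1.2)
    rw [card_product, card_univ] at this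
    exact_mod_cast this
  calc (B.card : ℝ) * Fintype.card Y ≤ t' * (t * N'.card) * Fintype.card Y :=
        mul_le_mul_of_nonneg_right (a1.trans (mul_le_mul_of_nonneg_left a2 t1)) (by positivity)
    _ = t' * t * (Fintype.card Y * N'.card) := by ring
    _ ≤ _ := mul_le_mul_of_nonneg_left a3 (by positivity)

theorem pieceS : PieceStmt := by
  intro m g j h w θ hθ hg ih D hD O I U R B N h1 h2
  classical
  rcases B.eq_empty_or_nonempty with rfl | ⟨ω₀, h0⟩
  · simp only [card_empty, Nat.cast_zero, zero_mul]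
    exact ⟨fun _ _ _ => by positivity, fun _ _ => by positivity⟩
  have hm := pc_marks hg (h1 ω₀ h0).1
  have hd : Disjoint U R := (h1 ω₀ h0).2.1
  refine ⟨?_, fun y hy => ?_⟩
  · rintro rfl rfl rfl
    have a := ga_hallR (C := Msg m × (Msg m × Msg m → Fin (g + 1) × Om2 m g h)) hm B N
      (fun ω hω => (h1 ω hω).2.2.2.1) fun ω hω ω' hE => h2 ω hω ω'
        ((h1 ω hω).2.2.2.2.2 ω' hE.2.1 hE.2.2.1 hE.2.2.2 (fun q _ => congrArg (·.2 q) hE.1)
          (fun _ hz => absurd hz (notMem_empty _)) fun _ hz => absurd hz (notMem_empty _))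
    rwa [card_empty, pow_zero, mul_one] at a
  have a2 := hallS (Msg m × Msg m) (fun _ => Fin (g + 1) × Om2 m g h)
    (fun q a => q.2 ∉ U → gS m g j h (sub2 m D q) a.2)
    (fun q a a' => (q.2 ∈ U → a' = (0, a.2)) ∧
      (q.2 ∉ U → a'.1 = a.1 ∧ gE m g j h (sub2 m D q) a.2 a'.2))
    (fun q => if q.2 ∈ U then (g + 1 : ℝ) else θ) ((U ∪ R).image (Prod.mk y))
    (fun q _ => by split_ifs <;> positivity) fun q _ => by
      by_cases hq : q.2 ∈ U
      · simpa [hq] using ga_hallU (C := Fin (g + 1)) (Ω := Om2 m g h) 0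
      · simpa [hq] using ga_hallR (C := Fin (g + 1))
          (ih (sub2 m D q) (card_image_le.trans ((card_filter_le _ _).trans hD)))
  rw [prod_image fun z _ z' _ e => (Prod.mk.inj e).2, prod_union hd,
    prod_congr rfl fun z hz => if_pos hz,
    prod_congr (s₂ := R) rfl fun z hz => if_neg (disjoint_right.1 hd hz), prod_const,
    prod_const] at a2
  have a := pc_two a2 hm (by positivity) (by positivity) y B N (fun ω hω =>
    ⟨hy ω hω, fun q hq hq' => by
      obtain ⟨z, b2, rfl⟩ := mem_image.1 hq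
      obtain rfl := hy ω hω
      exact (h1 ω hω).2.2.2.2.1 z ((mem_union.1 b2).resolve_left hq'), (h1 ω hω).2.2.2.1⟩)
    fun ω hω y' κ μ hE hE' => by
      obtain rfl := hy ω hω
      refine h2 ω hω _ ((h1 ω hω).2.2.2.2.2 ((y', κ), μ) hE'.1 hE'.2.1 hE'.2.2 hE.1
        (fun z hz => ?_) fun z hz => ?_)
      · exact (hE.2 _ (mem_image_of_mem _ (mem_union_left _ hz))).1 hz
      · exact (hE.2 _ (mem_image_of_mem _ (mem_union_right _ hz))).2 (disjoint_right.1 hd hz)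
  rw [Fintype.card_fun, Fintype.card_bool, Fintype.card_fin, Nat.cast_pow, Nat.cast_ofNat,
    ← mul_assoc] at a
  exact a

end Pool.Agent.MP_a2d820_lc.h17
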