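import Pool.Agent.MP_a2d820_lc.h17.Spec2

/-! Project IP, second part: most marked trees are valid. -/

set_option autoImplicit false

namespace Pool.Agent.MP_a2d820_lc.h17

open Pool.Agent.MP_a2d820_lc.h69 N487b59b3 Finset

/-- Few coins of children are zero at every node. -/
def vb_Val (m g : ℕ) : ∀ h, Om2 m g h → Prop
  | 0, _ => True
  | h + 1, ω => (∀ y : Msg m, #{z : Msg m | (ω.1.2 (y, z)).1 = 0} * (g + 1) ≤ 2 * 2 ^ m) ∧
      ∀ q, vb_Val m g h (ω.1.2 q).2

theorem vb_long {m g h : ℕ} (ω : Om2 m g (h + 1)) (b : Bool) (y z : Msg m)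
    (s : List Bool) : tab2 m g (h + 1) ω b (List.ofFn y ++ List.ofFn z ++ s) =
      tab2 m g h (ω.1.2 (y, z)).2 ((b && decide (y = ω.1.1)) || decide ((ω.1.2 (y, z)).1 = 0)) s := by
  rw [tab2, if_neg (by simp only [List.length_append, List.length_ofFn]; omega), gd_idx, gd_drop]

theorem vb_short {m g h : ℕ} (hm : 1 ≤ m) (ω : Om2 m g (h + 1)) (y : Msg m) :
    tab2 m g (h + 1) ω true (List.ofFn y) = decide (y = ω.1.1) := by
  have e : (idx m (List.ofFn y)).1 = y := funext fun i => by
    simp only [idx]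
    rw [List.getD_eq_getElem _ _ (by simp)]
    simp
  rw [tab2, if_pos (by rw [List.length_ofFn]; omega), e]
  rfl

theorem vb_wm {m g : ℕ} (hm : 1 ≤ m) (a : Lang) : ∀ h (ω : Om2 m g h) (t : List Bool),
    (∀ s : List Bool, a (t ++ s) = tab2 m g h ω true s) → Wm a m h t := by
  intro h
  induction h with
  | zero =>
    intro ω t H
    have := H []
    rw [List.append_nil] at this
    exact this
  | succ h ih =>
    intro ω t H
    refine ⟨ω.1.1, fun y => by rw [H, vb_short hm, decide_eq_true_iff], fun z => ?_⟩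
    refine ih (ω.1.2 (ω.1.1, z)).2 _ fun s => ?_
    have := H (List.ofFn ω.1.1 ++ List.ofFn z ++ s)
    rw [vb_long] at this
    simpa only [List.append_assoc, decide_true, Bool.and_self, Bool.true_or] using this

theorem vb_gd (m g : ℕ) (a : Lang) : ∀ h (ω : Om2 m g h) (t : List Bool), vb_Val m g h ω →
    (∀ s : List Bool, a (t ++ s) = tab2 m g h ω false s) → Gd m g a h false t := by
  intro h
  induction h with
  | zero =>
    intro ω t _ H
    have := H []
    rw [List.append_nil] at this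
    exact this
  | succ h ih =>
    intro ω t hv H
    refine fun y => ⟨_, hv.1 y, fun z c => ?_⟩
    have c' : ¬ (ω.1.2 (y, z)).1 = 0 := fun e => c (mem_filter.2 ⟨mem_univ _, e⟩)
    refine ih (ω.1.2 (y, z)).2 _ (hv.2 _) fun s => ?_
    have := H (List.ofFn y ++ List.ofFn z ++ s)
    rw [vb_long, decide_eq_false c'] at this
    simpa only [List.append_assoc, Bool.false_and, Bool.or_self] using this

theorem vb_count (m g h : ℕ) : hiSmall (fun ω => ¬vb_Val m g h ω)
    ((2 * 4 ^ m) ^ h * Real.exp (-(2 ^ m / (3 * (g + 1))))) := by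
  induction h with
  | zero =>
    intro B hB
    rw [eq_empty_of_forall_notMem fun ω hω => hB ω hω trivial, card_empty, Nat.cast_zero]
    positivity
  | succ h ih =>
    refine hi_mono (hi_fst (Y := Msg m → Fin (g + 1)) (va_step m g (vb_Val m g h) _ ih))
      (fun _ q => q) ?_
    have h1 : (2 : ℝ) ^ m ≤ 4 ^ m := by gcongr; norm_num
    have h2 : (1 : ℝ) ≤ 4 ^ m := one_le_pow₀ (by norm_num)
    have h3 : (1 : ℝ) ≤ (2 * 4 ^ m) ^ h := one_le_pow₀ (by linarith)
    have h4 : (2 : ℝ) ^ m ≤ 4 ^ m * (2 * 4 ^ m) ^ h :=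
      h1.trans (le_mul_of_one_le_right (by positivity) h3)
    have h5 := mul_le_mul_of_nonneg_right h4 (Real.exp_nonneg (-(2 ^ m / (3 * (g + 1)))))
    rw [pow_succ]
    linarith

theorem val2S : Val2Stmt := by
  refine ⟨fun m g h ω hm => vb_wm hm _ h ω [] fun _ => rfl, fun m g h hm hg => ?_⟩
  refine hi_mono (vb_count m g h) (fun ω q v => q ⟨vb_wm hm _ h ω [] fun _ => rfl, ?_⟩) le_rfl
  refine (gd_false m g _ h [] (vb_gd m g _ h ω [] v fun _ => rfl)).trans ?_
  have : (6 * h : ℝ) ≤ g + 1 := by exact_mod_cast hg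
  rw [div_le_iff₀ (by positivity)]
  linarith

end Pool.Agent.MP_a2d820_lc.h17
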