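import Pool.Agent.MP_a2d820_lc.h17.Spec2

/-!
Project IP, second part: witnesses are sound, and small witnesses exist.
-/

set_option autoImplicit false

namespace Pool.Agent.MP_a2d820_lc.h17

open Finset

section
variable {V ι P : Type} {Y : ι → (V → Bool) → (ι → P → Bool) → Prop} {lev : ι → ℕ} {t w L : ℕ}
  {tb : ι → Bool → P → Bool} {z : V → Bool} {β : ι → Bool}

theorem wi_mono {E E' : Finset V} {T T' : Finset ((ι × P) × Bool)} {R : ι} (h : Force Y z E T R)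
    (h1 : E ⊆ E') (h2 : T ⊆ T') : Force Y z E' T' R :=
  fun z' τ' a b => h z' τ' (fun v hv => a v (h1 hv)) fun d hd => b d (h2 hd)

theorem wi_cert (hs : Sys2 Y lev t) (hf : Fx Y tb z β) (R : ι) :
    ∃ (E : Finset V) (T : Finset ((ι × P) × Bool)), E.card ≤ t ∧ T.card ≤ t ∧
      (∀ d ∈ T, lev d.1.1 < lev R ∧ tb d.1.1 (β d.1.1) d.1.2 = d.2) ∧
      (β R = false → Force Y z E T R) := by
  by_cases h : β R = false
  · obtain ⟨E, T, a1, a2, a3, a4⟩ := hs R z _ ((hf R).1 h)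
    exact ⟨E, T, a1, a2, a3, fun _ => a4⟩
  · exact ⟨∅, ∅, by simp, by simp, by simp, fun k => absurd k h⟩

theorem wi_opt (hs : Sys2 Y lev t) (hL : ∀ R, lev R < L) (ht : 1 ≤ t) (hw : t * (2 * t) ^ L ≤ w)
    (hf : Fx Y tb z β) {A : Finset ι} (hA : ∀ i ∈ A, β i = false) {R : ι} (hR : β R = false) :
    Opt Y lev w tb z A R := by
  classical
  choose E T a1 a2 a3 a4 using wi_cert hs hf
  obtain ⟨U, u1, u2, u3⟩ := h31u.exists_closed (lev := lev) ht (fun R => (T R).image (·.1.1))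
    (fun R => card_image_le.trans (a2 R)) (fun R R' h => by
      obtain ⟨d, hd, rfl⟩ := mem_image.1 h
      exact (a3 R d hd).1) L R (hL R)
  have c : (U.filter (lev · ≤ lev R)).card * t ≤ w :=
    ((Nat.mul_le_mul_right t ((card_filter_le _ _).trans u2)).trans (mul_comm _ _).le).trans hw
  have f : ∀ d ∈ U.filter (lev · ≤ lev R), β d = false → Force Y z
      ((U.filter (lev · ≤ lev R)).biUnion E) ((U.filter (lev · ≤ lev R)).biUnion T) d :=
    fun d hd k => wi_mono (a4 d k) (subset_biUnion_of_mem E hd) (subset_biUnion_of_mem T hd)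
  refine ⟨β, _, _, (card_biUnion_le_card_mul _ _ _ fun d _ => a1 d).trans c,
    (card_biUnion_le_card_mul _ _ _ fun d _ => a2 d).trans c, hA,
    f R (mem_filter.2 ⟨u1, le_rfl⟩) hR, fun d hd => ?_⟩
  obtain ⟨R', b1, b2⟩ := mem_biUnion.1 hd
  obtain ⟨b3, b4⟩ := mem_filter.1 b1
  have l := (a3 R' d b2).1.trans_le b4
  exact ⟨l, (a3 R' d b2).2, fun _ =>
    f _ (mem_filter.2 ⟨u3 R' b3 (mem_image_of_mem _ b2), l.le⟩)⟩

theorem wi_sound (hs : Sys2 Y lev t) (hL : ∀ R, lev R < L) (ht : 1 ≤ t)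
    (hw : t * (2 * t) ^ L ≤ w) (hf : Fx Y tb z β) {A Q : Finset ι} (h : Wit2 Y lev w tb z A Q)
    (R : ι) : (R ∈ A → β R = false) ∧ (R ∈ Q → β R = true) := by
  induction hn : lev R using Nat.strong_induction_on generalizing R with
  | _ n ih =>
    subst hn
    refine ⟨fun hR => ?_, fun hR => ?_⟩
    · obtain ⟨E, T, -, a2, a3⟩ := h.1 R hR
      refine (hf R).2 (a2 z _ (fun _ _ => rfl) fun d hd => ?_)
      obtain ⟨b1, ⟨b2, b3⟩ | ⟨b2, b3⟩⟩ := a3 d hd
      · rw [(ih _ b1 _ rfl).1 b2, b3]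
      · rw [(ih _ b1 _ rfl).2 b2, b3]
    · obtain ⟨A', a1, a2, a3⟩ := h.2 R hR
      by_contra k
      exact a3 (wi_opt hs hL ht hw hf (fun i hi => (ih _ (a2 i hi) _ rfl).1 (a1 hi))
        (Bool.eq_false_iff.2 k))

end

theorem witS : WitStmt := by
  intro V ι P _ _ Y lev t w L K tb z β hs hL ht hw hK hf
  refine ⟨fun A Q h => ⟨fun R => (wi_sound hs hL ht hw hf h R).1,
    fun R => (wi_sound hs hL ht hw hf h R).2⟩, fun hB R => ?_⟩
  have tw : t ≤ w := (Nat.le_mul_of_pos_right t (Nat.pow_pos (by omega))).trans hw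
  choose E T a1 a2 a3 a4 using wi_cert hs hf
  have h1 : ∀ R, ∃ N : Finset ι, N.card ≤ K ∧ (∀ R' ∈ N, lev R' < lev R) ∧
      (β R = false → ∀ d ∈ T R, d.1.1 ∈ N) ∧
      (β R = true → (∀ i ∈ N, β i = false) ∧ ¬Opt Y lev w tb z N R) := fun R => by
    cases k : β R
    · refine ⟨(T R).image (·.1.1), card_image_le.trans ((a2 R).trans hK), fun R' h => ?_,
        fun _ d hd => mem_image_of_mem _ hd, fun e => absurd e (by simp)⟩
      obtain ⟨d, hd, rfl⟩ := mem_image.1 h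
      exact (a3 R d hd).1
    · obtain ⟨N, b1, b2, b3⟩ := hB R k
      exact ⟨N, b1, fun i hi => (b2 i hi).2, fun e => absurd e (by simp),
        fun _ => ⟨fun i hi => (b2 i hi).1, b3⟩⟩
  choose nb h1 h2 h3 h4 using h1
  obtain ⟨U, u1, u2, u3⟩ := h31u.exists_closed (lev := lev) (ht.trans hK) nb h1 h2 L R (hL R)
  refine ⟨U.filter (β · = false), U.filter (β · = true), (card_filter_le _ _).trans u2,
    (card_filter_le _ _).trans u2, ⟨fun R' hR' => ?_, fun R' hR' => ?_⟩, ?_⟩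
  · obtain ⟨b1, b2⟩ := mem_filter.1 hR'
    refine ⟨E R', T R', (a1 R').trans tw, a4 R' b2, fun d hd => ⟨(a3 R' d hd).1, ?_⟩⟩
    have b3 := u3 R' b1 (h3 R' b2 d hd)
    have b4 := (a3 R' d hd).2
    cases k : β d.1.1
    · exact Or.inl ⟨mem_filter.2 ⟨b3, k⟩, k ▸ b4⟩
    · exact Or.inr ⟨mem_filter.2 ⟨b3, k⟩, k ▸ b4⟩
  · obtain ⟨b1, b2⟩ := mem_filter.1 hR'
    exact ⟨nb R', fun i hi => mem_filter.2 ⟨u3 R' b1 hi, (h4 R' b2).1 i hi⟩, h2 R', (h4 R' b2).2⟩
  · cases k : β R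
    · exact Or.inl (mem_filter.2 ⟨u1, k⟩)
    · exact Or.inr (mem_filter.2 ⟨u1, k⟩)

end Pool.Agent.MP_a2d820_lc.h17
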