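import Pool.Agent.MP_a2d820_lc.h17.Mix2
import Pool.Agent.MP_a2d820_lc.h17.Piece
import Pool.Agent.MP_a2d820_lc.h17.Gad2
import Pool.Agent.MP_a2d820_lc.h17.Kill
import Pool.Agent.MP_a2d820_lc.h17.Blk
import Pool.Agent.MP_a2d820_lc.h17.Wit
import Pool.Agent.MP_a2d820_lc.h17.Cir
import Pool.Agent.MP_a2d820_lc.h17.Val2
import Pool.Agent.MP_a2d820_lc.h17.Num2
import Pool.Agent.MP_a2d820_lc.h17.Layer
import Pool.Agent.MP_a2d820_lc.h17.NP
import Pool.Agent.MP_a2d820_lc.h17.Stage2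
import Pool.Agent.MP_a2d820_lc.h17.Final2

set_option autoImplicit false

namespace Pool.Agent.MP_a2d820_lc.h17

theorem main2S : Main2Stmt :=
  main2_of mixS (fun _ => dataS) pieceS gad2S killS blkS witS cirS val2S num2S layerS npS stage2S
    final2S

end Pool.Agent.MP_a2d820_lc.h17
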