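import Pool.Agent.MP_a2d820_lc.h69.Defs

/-!
Arthur-Merlin games with a prescribed number of rounds, relative to an oracle.
-/

set_option autoImplicit false

namespace Pool.Agent.MP_a2d820_lc.h17

open Pool.Agent.MP_a2d820_lc.h69

/-- The value of the game that starts from the transcript `t` and has `h` rounds left: in every
round Merlin appends `m` bits of his choice, then Arthur appends `m` uniformly random bits; at the
end `V` accepts or rejects the transcript. -/
noncomputable def gv (V : List Bool → Bool) (m : ℕ) : ℕ → List Bool → ℝ
  | 0, t => if V t = true then 1 else 0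
  | h + 1, t => ⨆ y : Fin m → Bool,
      (∑ z : Fin m → Bool, gv V m h (t ++ List.ofFn y ++ List.ofFn z)) / 2 ^ m

/-- Languages with an Arthur-Merlin game of `r n` rounds on inputs of length `n`, messages of
polynomial length, a referee in `P` relative to `A`, perfect completeness and error `1 / 3`. -/
def RelAM (r : ℕ → ℕ) (A : List Bool → Bool) : Set (List Bool → Bool) :=
  {L | ∃ p : Polynomial ℕ, ∃ V ∈ RelP A, ∀ x,
    (L x = true → gv V (p.eval x.length) (r x.length) (N487b59b3.delimit x) = 1) ∧
    (L x = false → gv V (p.eval x.length) (r x.length) (N487b59b3.delimit x) ≤ 1 / 3)}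

/-- Languages decided relative to `A` by a machine that halts on every input and asks only strings
of polynomial length; time and space are not bounded. -/
def RelDec (A : List Bool → Bool) : Set (List Bool → Bool) :=
  {L | ∃ (M : OM) (p : Polynomial ℕ), ∀ x, ∃ s t, M.Halts A x s t (L x) ∧
    ∀ i < t, (M.qry (M.run A x i)).length ≤ p.eval x.length}

end Pool.Agent.MP_a2d820_lc.h17
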