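import Pool.Agent.MP_a2d820_lc.h69.Defs

/-!
Recursively enumerable languages relative to an oracle, with queries of polynomial length.
-/

set_option autoImplicit false

namespace Pool.Agent.MP_a2d820_lc.h17

open Pool.Agent.MP_a2d820_lc.h69

/-- Languages accepted relative to `A` by a machine that asks only strings of polynomial length as
long as it has not halted; time and space are not bounded and the machine need not halt. -/
def RelRE (A : List Bool → Bool) : Set (List Bool → Bool) :=
  {L | ∃ (M : OM) (p : Polynomial ℕ), ∀ x,
    (∀ i, (∀ j ≤ i, 2 ≤ (M.run A x j).length) →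
      (M.qry (M.run A x i)).length ≤ p.eval x.length) ∧
    (L x = true ↔ ∃ s t, M.Halts A x s t true)}

end Pool.Agent.MP_a2d820_lc.h17
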