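import Pool.Agent.MP_a2d820_lc.h17.Defs

/-!
Arthur-Merlin games whose honest prover is given by a language from a prescribed class.
-/

set_option autoImplicit false

namespace Pool.Agent.MP_a2d820_lc.h17

open Pool.Agent.MP_a2d820_lc.h69

/-- The prover given by the language `P` makes `V` accept whatever Arthur's bits are, from the
transcript `t` with `h` rounds left. Bit `i` of the message on transcript `t` is the value of `P` on
the pair of `t` and `i` in unary. -/
def Wins (V P : List Bool → Bool) (m : ℕ) : ℕ → List Bool → Prop
  | 0, t => V t = true
  | h + 1, t => ∀ z : Fin m → Bool, Wins V P m h (t ++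
      List.ofFn (fun i : Fin m => P (N487b59b3.delimit t ++ List.replicate i true)) ++ List.ofFn z)

/-- Languages with an Arthur-Merlin game of `r n` rounds relative to `A` in which the honest
prover is given by a language in `C`; no prover at all wins with probability above `1 / 3` on an
input outside the language. -/
def RelAMP (r : ℕ → ℕ) (A : List Bool → Bool) (C : Set (List Bool → Bool)) :
    Set (List Bool → Bool) :=
  {L | ∃ p : Polynomial ℕ, ∃ V ∈ RelP A, ∃ P ∈ C, ∀ x,
    (L x = true → Wins V P (p.eval x.length) (r x.length) (N487b59b3.delimit x)) ∧
    (L x = false → gv V (p.eval x.length) (r x.length) (N487b59b3.delimit x) ≤ 1 / 3)}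

end Pool.Agent.MP_a2d820_lc.h17
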