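import Pool.Agent.MP_a2d820_lc.h17.Spec

/-!
The stages are put together.
-/

set_option autoImplicit false

namespace Pool.Agent.MP_a2d820_lc.h17

open Pool.Agent.MP_a2d820_lc.h69 Pool.Agent.PolyT Pool.Agent.H82 N487b59b3 Function Finset

theorem fi_params (B : Polynomial ℕ) (k : ℕ) : ∃ H : ℕ, ∀ m : ℕ, ∃ n a ρ : ℕ, m ≤ n ∧
    B.eval n + 1 < 2 ^ a ∧ (2 * (k + 2) + 1) * (a + 2) + 5 ≤ ρ ∧ (k + 2 + 1) * n + 2 ≤ 2 ^ ρ ∧
    16 * ((k + 3) * ρ) ≤ n ∧ 2 ^ ((2 * k + 1) * a) ≤ n ^ H := by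
  obtain ⟨c, hc⟩ := poly_le_pow (B + 1)
  refine ⟨(2 * k + 1) * (2 * c + 1), fun m => ?_⟩
  obtain ⟨ν, e1, e2⟩ := ((poly_le_two_pow (16 * (((k : Polynomial ℕ) + 3) *
    ((2 * ((k : Polynomial ℕ) + 2) + 1) * ((Polynomial.X + 1) * (c : Polynomial ℕ) + 1 + 2) + 5 +
      Polynomial.X + (k : Polynomial ℕ) + 4))) 1 one_pos).and
    (Filter.eventually_ge_atTop (m + 1))).exists
  refine ⟨2 ^ ν, (ν + 1) * c + 1, (2 * (k + 2) + 1) * ((ν + 1) * c + 1 + 2) + 5 + ν + k + 4,
    by have := Nat.lt_two_pow_self (n := ν); omega, ?_, by omega, ?_, by simpa using e1, ?_⟩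
  · have h1 := hc (2 ^ ν)
    have h2 : 2 ^ 1 ≤ 2 ^ ν := Nat.pow_le_pow_right two_pos (by omega)
    have h3 : (2 ^ ν + 2) ^ c ≤ (2 ^ (ν + 1)) ^ c :=
      Nat.pow_le_pow_left (by rw [pow_succ]; omega) _
    have h4 : 0 < (2 ^ (ν + 1)) ^ c := by positivity
    simp only [Polynomial.eval_add, Polynomial.eval_one] at h1
    rw [pow_succ, pow_mul]
    omega
  · have h1 : (k + 2 + 1) * 2 ^ ν ≤ 2 ^ (k + 2) * 2 ^ ν :=
      Nat.mul_le_mul_right _ Nat.lt_two_pow_self
    have h2 : 0 < 2 ^ (k + 2) * 2 ^ ν := by positivity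
    refine le_trans ?_ (Nat.pow_le_pow_right two_pos (show k + 2 + ν + 2 ≤ _ by omega))
    rw [pow_add, pow_add _ (k + 2)]
    omega
  · rw [← pow_mul]
    refine Nat.pow_le_pow_right two_pos ?_
    have h1 : (ν + 1) * c + 1 ≤ ν * (2 * c + 1) := by
      have := Nat.mul_le_mul_right c (show 1 ≤ ν by omega)
      have h2 : ν * (2 * c + 1) = ν * c + ν * c + ν := by ring
      rw [h2, add_mul]
      omega
    calc _ ≤ (2 * k + 1) * (ν * (2 * c + 1)) := Nat.mul_le_mul_left _ h1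
      _ = _ := by ring

/-- The requirement can be forced after any finite part of the construction. -/
def fi_Forces (r : ℕ → ℕ) (mc : ℕ → OM) (P : Lang → Prop) : Prop :=
  ∀ m θ ξ, Ok r ξ → ∃ θ' ξ', ∃ T > m, Ok r ξ' ∧ Agr m θ ξ θ' ξ' ∧
    ∀ θ'' ξ'', Agr T θ' ξ' θ'' ξ'' → P (orc mc θ'' ξ'')

theorem fi_forces (hS : StageStmt) {r : ℕ → ℕ} (hr1 : ∀ n, r n ≤ n)
    (hr2 : Filter.Tendsto r Filter.atTop Filter.atTop) (mc : ℕ → OM) (b : OM × Polynomial ℕ)
    (l : List (OM × Polynomial ℕ × Polynomial ℕ)) (s : Bool) :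
    fi_Forces r mc fun A => ∃ x, ev b l A x ≠
      bif s then par A x (2 ^ x.length) else gl A (l.length + 3) x := by
  intro m θ ξ hok
  obtain ⟨B₀, h1, h2⟩ := ev_bound b l
  set k := l.length with hk
  obtain ⟨H, hH⟩ := fi_params (B₀.comp (6 * Polynomial.X + 1) +
    6 * (((k : Polynomial ℕ) + 2 + 1) * Polynomial.X) + 6 * Polynomial.X + 2 +
      ((bitEncode (0 : ℕ)).length : Polynomial ℕ)) k
  obtain ⟨l₀, hl₀⟩ := Filter.eventually_atTop.1 (hr2.eventually_ge_atTop ((k + 1) * H))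
  obtain ⟨n, a, ρ, e1, e2, e3, e4, e5, e6⟩ := hH (m + 2 ^ l₀)
  simp only [Polynomial.eval_add, Polynomial.eval_comp, Polynomial.eval_mul, Polynomial.eval_ofNat,
    Polynomial.eval_X, Polynomial.eval_one, Polynomial.eval_natCast, Nat.cast_id] at e2
  set B := B₀.eval (6 * n + 1) + 6 * ((k + 2 + 1) * n) + 6 * n + 2 + (bitEncode (0 : ℕ)).length
  set x := List.replicate n false with hx
  have hxn : x.length = n := by simp [hx]
  have hkn : n ≤ (k + 2 + 1) * n := Nat.le_mul_of_pos_left _ (by omega)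
  have hmn : m ≤ n := (Nat.le_add_right _ _).trans e1
  have hr : 3 * ρ ≤ n ∧ (k + 2 + 1) * ρ ≤ n ∧ 16 * ((k + 2) * (a + 2)) ≤ n := by
    have a1 := Nat.le_mul_of_pos_left (a + 2) (show 0 < 2 * (k + 2) + 1 by omega)
    have a2 := Nat.mul_le_mul_right ρ (show 3 ≤ k + 3 by omega)
    have a3 := Nat.mul_le_mul (show k + 2 ≤ k + 3 by omega) (show a + 2 ≤ ρ by omega)
    have a4 : (k + 2 + 1) * ρ = (k + 3) * ρ := rfl
    omega
  have had : ∀ i : List Bool, i.length ≤ (k + 2 + 1) * n → (ad x i 0).length ≤ B := by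
    intro i hi
    simp only [ad, length_enc_pair, PolyT.Poly.enc_bools_length, hxn]
    omega
  have hN : 2 ^ (3 * 2 ^ a) < 2 ^ 2 ^ (a + 2) := Nat.pow_lt_pow_right (by norm_num) (by
    have : 0 < 2 ^ a := by positivity
    rw [pow_add]
    omega)
  have key : ∀ (V : Type) [Fintype V] [DecidableEq V] (e : V → List Bool) (y : List Bool)
      (G : Lang → Bool), Injective e → y.length ≤ 6 * n + 1 →
      Fintype.card V < 2 ^ ((k + 2 + 1) * n + 1) →
      (∀ A A' : Lang, (∀ i : List Bool, i.length ≤ (k + 2 + 1) * n →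
        A (ad x i 0) = A' (ad x i 0)) → G A = G A') →
      (¬AC (2 ^ (a + 2)) (2 ^ (3 * 2 ^ a)) (k + 2)
        {fun z => G (extend (fun v => ad x (e v) 0) z θ)}) →
      ∃ θ' ξ', ∃ T > m, Ok r ξ' ∧ Agr m θ ξ θ' ξ' ∧ ∀ θ'' ξ'', Agr T θ' ξ' θ'' ξ'' →
        ev b l (orc mc θ'' ξ'') y ≠ G (orc mc θ'' ξ'') := by
    intro V _ _ e y G a1 a2 a3 a4 a5
    obtain ⟨θ', ξ', b0, b1, b2⟩ := hS r mc V (fun A => ev b l A y) G x e k B a H hr1 a1
      (fun A A' h => h1 A A' y _ a2 fun v hv => h v (by omega))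
      (fun V' σ hσ => (h2 V' σ _ _ _ hσ (by omega) (Nat.pow_le_pow_right two_pos (by omega))).mono
        (Set.singleton_subset_iff.2 ⟨y, a2, rfl⟩))
      (fun A A' h => a4 A A' fun i hi => h i (had i hi)) e2 (by omega) (by rw [hxn]; exact a3)
      (by
        rw [hxn, show (k + 3) * n = (k + 2 + 1) * n from rfl]
        omega) (by rw [hxn]; exact hr.2.2) (by rw [hxn]; exact e6)
      (fun j hj => hl₀ j ((Nat.pow_le_pow_iff_right (by norm_num : 1 < 2)).1 (by omega))) θ ξ hok a5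
    exact ⟨θ', ξ', B + 1, by omega, b0,
      ⟨fun s hs => b1.1 s (by omega), fun s hs => b1.2 s (by omega)⟩, b2⟩
  cases s
  · let e : Empty ⊕ Node ((k + 2 + 1) * n) → List Bool := Sum.elim Empty.elim Subtype.val
    have he : Injective e := by
      rintro (a | a) (b | b) h
      · exact a.elim
      · exact a.elim
      · exact b.elim
      · exact congrArg _ (Subtype.ext h)
    obtain ⟨θ', ξ', T, b1, b0, b2, b3⟩ := key _ e (bitEncode (x, ([] : List Bool)))
      (fun A => gl A (k + 2 + 1) (bitEncode (x, ([] : List Bool)))) he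
      (by simp only [length_enc_pair, PolyT.Poly.enc_bools_length, hxn, List.length_nil]; omega)
      (by
        rw [Fintype.card_sum, Fintype.card_empty, zero_add]
        exact card_node _)
      (fun A A' h => by
        simp only [gl_enc, hxn]
        exact nv_congr fun i hi => h i (by simpa using hi.le))
      fun h => h31u.hard_nv e3 e4 hr.1 Nat.one_le_two_pow hN
        (h.mono (Set.singleton_subset_singleton.2 (funext fun z => by
          simp only [gl_enc, hxn]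
          refine nv_congr fun i hi => ?_
          let J : Node ((k + 2 + 1) * n) := ⟨i, by simpa using hi.le⟩
          exact ((ext_node _ _ J).trans (if_pos (mem_univ J))).trans
            ((show Injective fun v => ad x (e v) 0 from
              fun _ _ h => he (ad_inj h).2.1).extend_apply z θ (.inr J)).symm)))
    exact ⟨θ', ξ', T, b1, b0, b2, fun θ'' ξ'' h => ⟨_, b3 θ'' ξ'' h⟩⟩
  · obtain ⟨ε⟩ : Nonempty ((Fin (k + 2 + 1) → Fin ρ → Bool) ↪ List.Vector Bool n) :=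
      Embedding.nonempty_of_card_le (by
        simp only [card_vector, Fintype.card_fun, Fintype.card_bool, Fintype.card_fin, ← pow_mul]
        exact Nat.pow_le_pow_right two_pos (by rw [mul_comm]; exact hr.2.1))
    have he : Injective fun v => (ε v).1 := Subtype.val_injective.comp ε.injective
    have he' : Injective fun v => ad x (ε v).1 0 := fun _ _ h => he (ad_inj h).2.1
    obtain ⟨θ', ξ', T, b1, b0, b2, b3⟩ := key _ _ x (fun A => par A x (2 ^ x.length)) he (by omega)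
      (by
        refine (Fintype.card_le_of_embedding ε).trans_lt ?_
        rw [card_vector, Fintype.card_bool]
        exact Nat.pow_lt_pow_right (by norm_num) (by omega))
      (fun A A' h => par_congr (fun i hi => h i (by omega)) _)
      (h31u.hard_par e3 Nat.one_le_two_pow hN _ fun z z' v c1 c2 => par_flip (j₀ := (ε v).1)
        ((ε v).2.trans hxn.symm) (fun i hi => by
          by_cases h : ∃ v', ad x (ε v').1 0 = ad x i 0
          · obtain ⟨v', h⟩ := h
            rw [← h, he'.extend_apply, he'.extend_apply,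
              c1 v' fun e => hi (e ▸ (ad_inj h).2.1.symm)]
          · rw [extend_apply' _ _ _ h, extend_apply' _ _ _ h])
        (by rw [he'.extend_apply, he'.extend_apply, c2]))
    exact ⟨θ', ξ', T, b1, b0, b2, fun θ'' ξ'' h => ⟨_, b3 θ'' ξ'' h⟩⟩

theorem fi_lim {r : ℕ → ℕ} (h0 : Ok r fun _ b _ => b) (mc : ℕ → OM) (P : ℕ → Lang → Prop)
    (hP : ∀ i, fi_Forces r mc (P i)) : ∃ θ ξ, Ok r ξ ∧ ∀ i, P i (orc mc θ ξ) := by
  choose F₁ F₂ F₃ h1 h4 h2 h3 using hP
  let a : ℕ → ℕ × Lang × {ξ : List Bool → Bool → Lang // Ok r ξ} := fun i =>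
    Nat.rec (0, fun _ => false, ⟨_, h0⟩)
      (fun i a => (F₃ i a.1 a.2.1 a.2.2.1 a.2.2.2, F₁ i a.1 a.2.1 a.2.2.1 a.2.2.2,
        ⟨F₂ i a.1 a.2.1 a.2.2.1 a.2.2.2, h4 i a.1 a.2.1 a.2.2.1 a.2.2.2⟩)) i
  have hmono : StrictMono fun i => (a i).1 := strictMono_nat_of_lt_succ fun i => h1 i _ _ _ _
  have hag : ∀ i j, i ≤ j → Agr (a i).1 (a i).2.1 (a i).2.2.1 (a j).2.1 (a j).2.2.1 := by
    intro i j hij
    induction j, hij using Nat.le_induction with
    | base => exact ⟨fun _ _ => rfl, fun _ _ => rfl⟩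
    | succ j hij ih =>
      have h6 := h2 j (a j).1 (a j).2.1 (a j).2.2.1 (a j).2.2.2
      have h5 := hmono.monotone hij
      exact ⟨fun w hw => (ih.1 w hw).trans (h6.1 w (hw.trans_le h5)),
        fun w hw => (ih.2 w hw).trans (h6.2 w (hw.trans_le h5))⟩
  refine ⟨fun w => (a (w.length + 1)).2.1 w, fun w => (a (w.length + 1)).2.2.1 w,
    fun i x y u e1 e2 => (a (u.length + 1)).2.2.2 i x y u e1 e2, fun i =>
    h3 i (a i).1 (a i).2.1 (a i).2.2.1 (a i).2.2.2 _ _ ⟨fun w hw => ?_, fun w hw => ?_⟩⟩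
  · rcases le_total (i + 1) (w.length + 1) with h | h
    · exact (hag _ _ h).1 w hw
    · exact ((hag _ _ h).1 w (hmono.le_apply (x := w.length + 1))).symm
  · rcases le_total (i + 1) (w.length + 1) with h | h
    · exact (hag _ _ h).2 w hw
    · exact ((hag _ _ h).2 w (hmono.le_apply (x := w.length + 1))).symm

theorem finalS (h1 : StageStmt) (h2 : AMStmt) : MainStmt := by
  intro r hr1 hr2
  obtain ⟨mc, hmc⟩ := exists_surjective_nat OM
  obtain ⟨τ, hτ⟩ := exists_surjective_nat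
    (Bool × (OM × Polynomial ℕ) × List (OM × Polynomial ℕ × Polynomial ℕ))
  obtain ⟨θ, ξ, hok, h⟩ := fi_lim (h2.1 r) mc _ fun i =>
    fi_forces h1 hr1 hr2 mc (τ i).2.1 (τ i).2.2 (τ i).1
  refine ⟨_, h2.2 r mc θ ξ hmc hok, fun k => Set.not_subset.1 fun hk => ?_, _, par_mem _,
    fun k hk => ?_⟩
  · obtain ⟨b, l, rfl, e⟩ := exists_ev' (h31u.collapse hk 3 (gl_mem _ _))
    obtain ⟨i, hi⟩ := hτ (false, b, l)
    obtain ⟨x, hx⟩ := h i
    rw [hi] at hx
    exact hx (congrFun e x).symm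
  · obtain ⟨b, l, e⟩ := exists_ev hk
    obtain ⟨i, hi⟩ := hτ (true, b, l)
    obtain ⟨x, hx⟩ := h i
    rw [hi] at hx
    exact hx (congrFun e x).symm

end Pool.Agent.MP_a2d820_lc.h17
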