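import Pool.Agent.MP_a2d820_lc.h17.Spec

/-!
Project IP: expansion in some coordinates gives expansion in the product.
-/

set_option autoImplicit false

namespace Pool.Agent.MP_a2d820_lc.h17

open Finset

open Classical in
theorem ha_card {I : Type} [Fintype I] [DecidableEq I] {Ω : I → Type} [∀ i, Fintype (Ω i)] (i : I)
    (A : Finset (∀ j, Ω j)) : (A.card : ℝ) = ∑ r : ∀ j : {j // j ≠ i}, Ω j,
      ((univ.filter fun a : Ω i => (Equiv.piSplitAt i Ω).symm (a, r) ∈ A).card : ℝ) := by
  have h : A.card = ∑ ω : ∀ j, Ω j, if ω ∈ A then 1 else 0 := by simp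
  rw [h, ← Equiv.sum_comp (Equiv.piSplitAt i Ω).symm, Fintype.sum_prod_type_right]
  simp only [card_filter]
  push_cast
  rfl

theorem hallS : HallStmt := by
  classical
  intro I _ _ Ω _ S E θ T
  induction T using Finset.induction_on with
  | empty =>
    intro _ _ B N _ h2
    rw [prod_empty, one_mul]
    exact_mod_cast card_le_card fun a ha => h2 a ha a ⟨fun _ _ => rfl, by simp⟩
  | insert i T hi ih =>
    intro h0 h1 B N hB hN
    have t0 := h0 i (mem_insert_self _ _)
    set B1 := univ.filter fun ω1 : ∀ j, Ω j =>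
      ∃ ω ∈ B, (∀ j, j ≠ i → ω1 j = ω j) ∧ E i (ω i) (ω1 i) with hB1
    have a1 : (B.card : ℝ) ≤ θ i * B1.card := by
      rw [ha_card i B, ha_card i B1, mul_sum]
      refine sum_le_sum fun r _ => h1 i (mem_insert_self _ _) _ _ (fun a ha => ?_)
        fun a ha a' he => ?_
      · simpa using hB _ (mem_filter.1 ha).2 i (mem_insert_self _ _)
      · refine mem_filter.2 ⟨mem_univ _, mem_filter.2 ⟨mem_univ _, _, (mem_filter.1 ha).2,
          fun j hj => ?_, ?_⟩⟩
        · simp [hj]
        · simpa using he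
    have a2 := ih (fun j hj => h0 j (mem_insert_of_mem hj)) (fun j hj => h1 j (mem_insert_of_mem hj))
      B1 N (fun ω1 h j hj => by
        obtain ⟨ω, b1, b2, -⟩ := (mem_filter.1 h).2
        rw [b2 j fun e => hi (e ▸ hj)]
        exact hB ω b1 j (mem_insert_of_mem hj)) fun ω1 h ω' he => by
        obtain ⟨ω, b1, b2, b3⟩ := (mem_filter.1 h).2
        refine hN ω b1 ω' ⟨fun j hj => ?_, fun j hj => ?_⟩
        · rw [mem_insert, not_or] at hj
          rw [he.1 j hj.2, b2 j hj.1]
        · rcases mem_insert.1 hj with rfl | hj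
          · rwa [he.1 j hi]
          · rw [← b2 j fun e => hi (e ▸ hj)]
            exact he.2 j hj
    rw [prod_insert hi, mul_assoc]
    exact a1.trans (mul_le_mul_of_nonneg_left a2 t0)

end Pool.Agent.MP_a2d820_lc.h17
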