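import Pool.Agent.MP_a2d820_lc.h17.Spec2

/-!
Mixtures for marked trees, and the data that describe a change.
-/

set_option autoImplicit false

namespace Pool.Agent.MP_a2d820_lc.h17

open Function Finset

theorem mx_cons {m : ℕ} {u : List Bool → Bool} {k : Msg m → Bool}
    {v : Msg m × Msg m → List Bool → Bool}
    (h : ∀ p, u p = if p.length < 2 * m then k (idx m p).1 else v (idx m p) (p.drop (2 * m)))
    (D : Finset (List Bool × Bool)) :
    Cons u D ↔ (∀ d ∈ D, d.1.length < 2 * m → k (idx m d.1).1 = d.2) ∧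
      ∀ q, Cons (v q) (sub2 m D q) := by
  constructor
  · refine fun hD => ⟨fun d hd c => ?_, fun q d hd => ?_⟩
    · rw [← hD d hd, h, if_pos c]
    · obtain ⟨d', h1, rfl⟩ := mem_image.1 hd
      obtain ⟨h2, h3, rfl⟩ := mem_filter.1 h1
      rw [← hD d' h2, h, if_neg h3]
  · intro hD d hd
    rw [h]
    split_ifs with c
    · exact hD.1 d hd c
    · exact hD.2 _ _ (mem_image_of_mem _ (mem_filter.2 ⟨hd, c, rfl⟩))

theorem mx_card (m : ℕ) (D : Finset (List Bool × Bool)) (q : Msg m × Msg m) :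
    (sub2 m D q).card ≤ D.card := card_image_le.trans (card_filter_le _ _)

theorem mx_false {m g h : ℕ} (ω : Om2 m g (h + 1)) (p : List Bool) : tab2 m g (h + 1) ω false p =
    if p.length < 2 * m then decide (ω.2 (idx m p).1 = 0) else
      tab2 m g h (ω.1.2 (idx m p)).2 (decide ((ω.1.2 (idx m p)).1 = 0)) (p.drop (2 * m)) := by
  simp [tab2]

theorem mx_m0 (m g j : ℕ) : ∀ h ω, mix2 m g j h ω (tab2 m g h ω false)
  | 0, _ => rfl
  | h + 1, ω => ⟨∅, fun y => decide (ω.2 y = 0),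
      fun q => tab2 m g h (ω.1.2 q).2 (decide ((ω.1.2 q).1 = 0)), by simp, mx_false ω,
      fun y hy => Or.inr (of_decide_eq_true hy), fun q => ⟨by simp, fun _ h2 _ => by
        simpa [h2] using mx_m0 m g j h (ω.1.2 q).2, fun _ => rfl⟩⟩

theorem mx_a1 (m g j : ℕ) : ∀ h ω (D : Finset (List Bool × Bool)), D.card < (j + 1) ^ h →
    Cons (tab2 m g h ω true) D → ∃ u, mix2 m g j h ω u ∧ Cons u D
  | 0, _, D, h1, _ => ⟨_, rfl, by
      obtain rfl : D = ∅ := by simpa using h1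
      simp [Cons]⟩
  | h + 1, ω, D, h1, h2 => by
    classical
    let tb : Msg m × Msg m → List Bool → Bool := fun q =>
      tab2 m g h (ω.1.2 q).2 ((true && decide (q.1 = ω.1.1)) || decide ((ω.1.2 q).1 = 0))
    obtain ⟨h0, h3⟩ := (mx_cons (u := tab2 m g (h + 1) ω true) (k := fun y => decide (y = ω.1.1))
      (v := tb) (fun p => rfl) D).1 h2
    let U : Finset (Msg m) := {z | (j + 1) ^ h ≤ (sub2 m D (ω.1.1, z)).card}
    have hU : U.card ≤ j := by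
      have a1 : ∑ z ∈ U, #{d ∈ D | idx m d.1 = (ω.1.1, z)} ≤ D.card := by
        rw [← card_biUnion]
        · exact card_le_card (biUnion_subset.2 fun z _ => filter_subset _ _)
        · intro z _ z' _ hz
          exact disjoint_filter.2 fun d _ e e' => hz (Prod.mk.inj (e.symm.trans e')).2
      have a2 := card_nsmul_le_sum U (fun z => #{d ∈ D | idx m d.1 = (ω.1.1, z)}) ((j + 1) ^ h)
        fun z hz => (mem_filter.1 hz).2.trans (card_image_le.trans (card_le_card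
          fun d hd => mem_filter.2 ⟨(mem_filter.1 hd).1, (mem_filter.1 hd).2.2⟩))
      rw [smul_eq_mul] at a2
      have a3 : U.card * (j + 1) ^ h < (j + 1) * (j + 1) ^ h := by
        rw [pow_succ'] at h1
        omega
      exact Nat.lt_succ_iff.1 (lt_of_mul_lt_mul_right a3 (Nat.zero_le _))
    have h4 : ∀ q : Msg m × Msg m, ∃ v, Cons v (sub2 m D q) ∧
        (q.1 = ω.1.1 → (ω.1.2 q).1 ≠ 0 → q.2 ∈ U → v = tab2 m g h (ω.1.2 q).2 true) ∧
        (q.1 = ω.1.1 → (ω.1.2 q).1 ≠ 0 → q.2 ∉ U → mix2 m g j h (ω.1.2 q).2 v) ∧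
        (¬(q.1 = ω.1.1 ∧ (ω.1.2 q).1 ≠ 0) →
          v = tab2 m g h (ω.1.2 q).2 (decide ((ω.1.2 q).1 = 0))) := by
      intro q
      by_cases hc : q.1 = ω.1.1 ∧ (ω.1.2 q).1 ≠ 0 ∧ q.2 ∉ U
      · have a1 : (sub2 m D q).card < (j + 1) ^ h := by
          by_contra a2
          refine hc.2.2 (mem_filter.2 ⟨mem_univ _, ?_⟩)
          rw [← hc.1]
          exact not_lt.1 a2
        obtain ⟨v, a2, a3⟩ := mx_a1 m g j h (ω.1.2 q).2 _ a1 (by simpa [tb, hc.1] using h3 q)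
        exact ⟨v, a3, fun _ _ a4 => absurd a4 hc.2.2, fun _ _ _ => a2,
          fun a4 => absurd ⟨hc.1, hc.2.1⟩ a4⟩
      · refine ⟨tb q, h3 q, fun a1 _ _ => by simp [tb, a1], fun a1 a2 a3 => absurd ⟨a1, a2, a3⟩ hc,
          fun a1 => ?_⟩
        by_cases a2 : (ω.1.2 q).1 = 0
        · simp [tb, a2]
        · have a3 : q.1 ≠ ω.1.1 := fun e => a1 ⟨e, a2⟩
          simp [tb, a3]
    choose v h5 h6 using h4
    exact ⟨fun p => if p.length < 2 * m then decide ((idx m p).1 = ω.1.1)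
      else v (idx m p) (p.drop (2 * m)), ⟨U, fun y => decide (y = ω.1.1), v, hU, fun _ => rfl,
        fun y hy => Or.inl (of_decide_eq_true hy), h6⟩,
      (mx_cons (k := fun y => decide (y = ω.1.1)) (fun _ => rfl) D).2 ⟨h0, h5⟩⟩

theorem mixS : MixStmt := ⟨mx_m0, mx_a1⟩

theorem dataS : DataStmt := by
  intro m g j h D ω u h1 h2
  classical
  obtain ⟨U, k, v, a1, a2, a0, a3⟩ := h1
  obtain ⟨a5, a4⟩ := (mx_cons a2 D).1 h2
  have hne : ∀ z, (sub2 m D (ω.1.1, z)).Nonempty → ∃ d ∈ D, idx m d.1 = (ω.1.1, z) := by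
    rintro z ⟨d, hd⟩
    obtain ⟨d', b1, -⟩ := mem_image.1 hd
    exact ⟨d', (mem_filter.1 b1).1, (mem_filter.1 b1).2.2⟩
  have hn1 : ∀ z, (sub2 m D (ω.1.1, z)).Nonempty → ω.1.1 ∈ D.image fun d => (idx m d.1).1 :=
    fun z hz => (hne z hz).elim fun d hd => mem_image.2 ⟨d, hd.1, congrArg Prod.fst hd.2⟩
  have hn2 : ∀ z, (sub2 m D (ω.1.1, z)).Nonempty → z ∈ D.image fun d => (idx m d.1).2 :=
    fun z hz => (hne z hz).elim fun d hd => mem_image.2 ⟨d, hd.1, congrArg Prod.snd hd.2⟩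
  have hem : ∀ (z) (t : List Bool → Bool), ¬Cons t (sub2 m D (ω.1.1, z)) →
      (sub2 m D (ω.1.1, z)).Nonempty := fun z t ht =>
    nonempty_iff_ne_empty.2 fun e => ht (by simp [e, Cons])
  obtain ⟨O, hO⟩ : ∃ O : Finset (Msg m), ∀ y, y ∈ O ↔
      y ∈ D.image (fun d => (idx m d.1).1) ∧ k y = false ∧ ω.2 y = 0 :=
    ⟨(D.image fun d => (idx m d.1).1).filter fun y => k y = false ∧ ω.2 y = 0, fun _ => mem_filter⟩
  obtain ⟨I, hI⟩ : ∃ I : Finset (Msg m), ∀ y, y ∈ I ↔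
      y ∈ D.image (fun d => (idx m d.1).1) ∧
        (∃ d ∈ D, d.1.length < 2 * m ∧ (idx m d.1).1 = y) ∧ k y = true ∧ ω.2 y ≠ 0 :=
    ⟨(D.image fun d => (idx m d.1).1).filter fun y =>
      (∃ d ∈ D, d.1.length < 2 * m ∧ (idx m d.1).1 = y) ∧ k y = true ∧ ω.2 y ≠ 0,
      fun _ => mem_filter⟩
  have hI' : ∀ y ∈ I, y = ω.1.1 := fun y hy =>
    (a0 y ((hI y).1 hy).2.2.1).resolve_right ((hI y).1 hy).2.2.2
  refine ⟨O, I, {z ∈ U | (sub2 m D (ω.1.1, z)).Nonempty ∧ (ω.1.2 (ω.1.1, z)).1 ≠ 0},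
    univ.filter fun z => z ∉ U ∧ (ω.1.2 (ω.1.1, z)).1 ≠ 0 ∧
      ¬Cons (tab2 m g h (ω.1.2 (ω.1.1, z)).2 false) (sub2 m D (ω.1.1, z)),
    fun y hy => ((hO y).1 hy).1, fun z hz => hn2 z (mem_filter.1 hz).2.1,
    fun z hz => hn2 z (hem z _ (mem_filter.1 hz).2.2.2), (card_filter_le _ _).trans a1, ?_,
    disjoint_left.2 fun y b1 b2 => ((hI y).1 b2).2.2.2 ((hO y).1 b1).2.2,
    disjoint_left.2 fun z b1 b2 => (mem_filter.1 b2).2.1 (mem_filter.1 b1).1,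
    fun y hy => mem_singleton.2 (hI' y hy), fun y hy => ((hO y).1 hy).2.2,
    fun z hz => ⟨(mem_filter.1 hz).2.2.2, _,
      (a3 (ω.1.1, z)).2.1 rfl (mem_filter.1 hz).2.2.1 (mem_filter.1 hz).2.1, a4 _⟩, ?_⟩
  · rintro ⟨y, hy⟩
    rcases mem_union.1 hy with hy | hy
    · rcases mem_union.1 hy with hy | hy
      · exact hI' y hy ▸ ((hI y).1 hy).1
      · exact hn1 y (mem_filter.1 hy).2.1
    · exact hn1 y (hem y _ (mem_filter.1 hy).2.2.2)
  set U₀ : Finset (Msg m) := {z ∈ U | (sub2 m D (ω.1.1, z)).Nonempty ∧ (ω.1.2 (ω.1.1, z)).1 ≠ 0}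
  set R₀ : Finset (Msg m) := univ.filter fun z => z ∉ U ∧ (ω.1.2 (ω.1.1, z)).1 ≠ 0 ∧
      ¬Cons (tab2 m g h (ω.1.2 (ω.1.1, z)).2 false) (sub2 m D (ω.1.1, z))
  intro ω' f1 f2 f3 b1 b2 b3
  let v' : Msg m × Msg m → List Bool → Bool := fun q =>
    tab2 m g h (ω'.1.2 q).2 (decide ((ω'.1.2 q).1 = 0))
  have c2 : ∀ q : Msg m × Msg m, ¬(q.1 = ω.1.1 ∧ (q.2 ∈ U₀ ∨ q.2 ∈ R₀)) → ω'.1.2 q = ω.1.2 q :=
    fun q hq => b1 q fun e => by
      obtain ⟨z, e1, rfl⟩ := mem_image.1 e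
      exact hq ⟨rfl, mem_union.1 e1⟩
  have c3 : ∀ q : Msg m × Msg m, Cons (v' q) (sub2 m D q) ∧
      (q.1 = ω.1.1 → (ω.1.2 q).1 ≠ 0 → q.2 ∈ U₀ → v' q = tab2 m g h (ω.1.2 q).2 true) ∧
      (q.1 = ω.1.1 → (ω.1.2 q).1 ≠ 0 → q.2 ∉ U₀ → mix2 m g j h (ω.1.2 q).2 (v' q)) ∧
      (¬(q.1 = ω.1.1 ∧ (ω.1.2 q).1 ≠ 0) →
        v' q = tab2 m g h (ω.1.2 q).2 (decide ((ω.1.2 q).1 = 0))) := by
    rintro ⟨y, z⟩
    by_cases d1 : y = ω.1.1 ∧ (ω.1.2 (y, z)).1 ≠ 0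
    · obtain ⟨rfl, d1⟩ := d1
      by_cases d2 : z ∈ U₀
      · have d3 : v' (ω.1.1, z) = tab2 m g h (ω.1.2 (ω.1.1, z)).2 true := by simp [v', b2 z d2]
        refine ⟨?_, fun _ _ _ => d3, fun _ _ d4 => absurd d2 d4, fun d4 => absurd ⟨rfl, d1⟩ d4⟩
        rw [d3, ← (a3 (ω.1.1, z)).1 rfl d1 (mem_filter.1 d2).1]
        exact a4 _
      by_cases d3 : z ∈ R₀
      · obtain ⟨e1, e2, e3⟩ := b3 z d3
        have d4 : v' (ω.1.1, z) = tab2 m g h (ω'.1.2 (ω.1.1, z)).2 false := by simp [v', e1, d1]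
        rw [d4]
        exact ⟨e3, fun _ _ d5 => absurd d5 d2, fun _ _ _ => e2, fun d5 => absurd ⟨rfl, d1⟩ d5⟩
      · have d4 : v' (ω.1.1, z) = tab2 m g h (ω.1.2 (ω.1.1, z)).2 false := by
          simp [v', c2 (ω.1.1, z) fun e => e.2.elim d2 d3, d1]
        rw [d4]
        refine ⟨?_, fun _ _ d5 => absurd d5 d2, fun _ _ _ => mx_m0 _ _ _ _ _,
          fun d5 => absurd ⟨rfl, d1⟩ d5⟩
        by_contra d5
        by_cases d6 : z ∈ U
        · exact d2 (mem_filter.2 ⟨d6, hem z _ d5, d1⟩)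
        · exact d3 (mem_filter.2 ⟨mem_univ _, d6, d1, d5⟩)
    · have d2 : v' (y, z) = tab2 m g h (ω.1.2 (y, z)).2 (decide ((ω.1.2 (y, z)).1 = 0)) := by
        have := c2 (y, z) fun e => d1 ⟨e.1, by
          obtain ⟨rfl, e⟩ := e
          exact e.elim (fun e => (mem_filter.1 e).2.2) fun e => (mem_filter.1 e).2.2.1⟩
        simp only [v', this]
      refine ⟨?_, fun e1 e2 => absurd ⟨e1, e2⟩ d1, fun e1 e2 => absurd ⟨e1, e2⟩ d1, fun _ => d2⟩
      rw [d2, ← (a3 (y, z)).2.2 d1]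
      exact a4 _
  refine ⟨⟨U₀, fun y => decide (ω'.2 y = 0), v', (card_filter_le _ _).trans a1, mx_false ω',
    fun y hy => ?_, fun q => (c3 q).2⟩, (mx_cons (k := fun y => decide (ω'.2 y = 0)) (v := v')
      (mx_false ω') D).2 ⟨fun d hd c => ?_, fun q => (c3 q).1⟩⟩
  · have e := of_decide_eq_true hy
    by_cases c : y ∈ O ∪ I
    · exact Or.inl (hI' y ((mem_union.1 c).resolve_left fun c => f2 y c e))
    · exact Or.inr (f1 y c ▸ e)
  · rw [← a5 d hd c]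
    have e0 : (idx m d.1).1 ∈ D.image fun d => (idx m d.1).1 := mem_image_of_mem _ hd
    by_cases c1 : (idx m d.1).1 ∈ O
    · rw [((hO _).1 c1).2.1]
      exact decide_eq_false (f2 _ c1)
    by_cases c4 : (idx m d.1).1 ∈ I
    · rw [((hI _).1 c4).2.2.1]
      exact decide_eq_true (f3 _ c4)
    · rw [f1 _ fun e => (mem_union.1 e).elim c1 c4]
      rcases e : k (idx m d.1).1 with _ | _
      · exact decide_eq_false fun e' => c1 ((hO _).2 ⟨e0, e, e'⟩)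
      · exact decide_eq_true (not_not.1 fun e' => c4 ((hI _).2 ⟨e0, ⟨d, hd, c, rfl⟩, e, e'⟩))

end Pool.Agent.MP_a2d820_lc.h17
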