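import Pool.Agent.MP_a2d820_lc.h17.All
import Pool.Agent.MP_a2d820_lc.h17.Defs2

/-!
The same oracle puts all recursively enumerable languages with short queries into `AM[r]`.
-/

set_option autoImplicit false

namespace Pool.Agent.MP_a2d820_lc.h17

open Pool.Agent.MP_a2d820_lc.h69 Pool.Agent.PolyT Pool.Agent.H82 N487b59b3 Function Finset

theorem re_ans {mc : ℕ → OM} {A : Lang} {i : ℕ} {x y : List Bool}
    (hq : ∀ j, (∀ j' ≤ j, 2 ≤ ((mc i).run A x j').length) →
      ((mc i).qry ((mc i).run A x j)).length ≤ y.length) :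
    ans mc (true :: bitEncode (i, x, y)) A = true ↔ ∃ s t, (mc i).Halts A x s t true := by
  classical
  refine ⟨fun h => ?_, fun ⟨s, t, h⟩ =>
    ar_ans h fun j hj => hq j fun j' hj' => (h.2 j' (by omega)).1⟩
  rw [ans, decide_eq_true_eq] at h
  obtain ⟨i', x', y', s, t, e, h⟩ := h
  have e' := bitEncode_injective (List.cons.inj e).2
  simp only [Prod.mk.injEq] at e'
  obtain ⟨rfl, rfl, -⟩ := e'
  set O := trunc (true :: bitEncode (i, x, y)).length A with hO
  have key : ∀ r ≤ t, ∀ j ≤ r, (mc i).run A x j = (mc i).run O x j := by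
    intro r hr
    induction r with
    | zero =>
      intro j hj
      obtain rfl : j = 0 := by omega
      rfl
    | succ r ih =>
      intro j hj
      rcases hj.lt_or_eq with hj | rfl
      · exact ih (by omega) j (by omega)
      · have h1 := hq r fun j' hj' => by
          rw [ih (by omega) j' hj']
          exact (h.2 j' (by omega)).1
        have h2 : ((mc i).qry ((mc i).run A x r)).length <
            (true :: bitEncode (i, x, y)).length := by
          simp only [List.length_cons, length_enc_pair, PolyT.Poly.enc_bools_length]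
          omega
        rw [OM.run, OM.run, ← ih (by omega) r le_rfl]
        simp only [hO, trunc, h2, decide_true, Bool.true_and]
  exact ⟨s, t, (key t le_rfl t le_rfl).trans h.1, fun r hr => by
    rw [key t le_rfl r hr.le]
    exact h.2 r hr⟩

theorem re_main {r : ℕ → ℕ} {mc : ℕ → OM} (θ : Lang) {ξ : List Bool → Bool → Lang}
    (hmc : Surjective mc) (hξ : Ok r ξ) : RelRE (orc mc θ ξ) ⊆ RelAM r (orc mc θ ξ) := by
  classical
  rintro L ⟨M, p, hL⟩
  obtain ⟨i, rfl⟩ := hmc M
  obtain ⟨F, hF, hF'⟩ := exists_list_eval (l := fun x : List Bool => x) (by fun_prop) p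
  let u : List Bool → List Bool := fun x => true :: bitEncode (i, x, (F x).map fun _ => false)
  have hu : PolyT.Poly u := by fun_prop
  let P : Polynomial ℕ := Polynomial.C (2 * (bitEncode i).length + 3) + 6 * Polynomial.X + 3 * p
  have hP : ∀ x, (u x).length = P.eval x.length := fun x => by
    simp only [u, P, List.length_cons, length_enc_pair, PolyT.Poly.enc_bools_length,
      List.length_map, hF', Polynomial.eval_add, Polynomial.eval_mul, Polynomial.eval_C,
      Polynomial.eval_X, Polynomial.eval_ofNat]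
    omega
  obtain ⟨n, hn⟩ := Filter.eventually_atTop.1 (poly_le_two_pow P 1 one_pos)
  let l := ((List.finite_length_lt Bool n).toFinset.filter (L · = true)).toList
  have hl : ∀ x : List Bool, x.length < n → l.any (eqB x) = L x := fun x hx => by
    rw [Bool.eq_iff_iff]
    simp [l, hx]
  refine ⟨P ^ 2, _, ar_ref hu n l _, fun x => ?_⟩
  rw [← List.append_nil (delimit x), ar_shift, Polynomial.eval_pow, ← hP]
  simp only [sel_pair, if_true, Bool.false_eq_true, if_false, orc_code]
  have key : ∃ X : Bool → Lang, Okr X ((u x).length ^ 2) (r x.length) ∧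
      (fun s => bif ltB x.length n then l.any (eqB x)
        else ξ (u x) (ans mc (u x) (orc mc θ ξ)) s) = X (L x) := by
    by_cases hx : x.length < n
    · exact ⟨_, ar_okr _ _, by rw [ltB_iff.2 hx, hl x hx]; rfl⟩
    · obtain ⟨h1, h2⟩ := hL x
      refine ⟨ξ (u x), hξ i x _ _ rfl ?_, ?_⟩
      · rw [hP]
        simpa using hn x.length (by omega)
      · rw [ltB_false_iff.2 (by omega), Bool.eq_iff_iff.2 ((re_ans fun j hj => by
          rw [List.length_map, hF']
          exact h1 j hj).trans h2.symm)]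
        rfl
  obtain ⟨X, h1, h2⟩ := key
  rw [h2]
  exact ⟨fun h => by rw [h]; exact h1.1, fun h => by rw [h]; exact h1.2⟩

theorem mainRE (r : ℕ → ℕ) (hr1 : ∀ n, r n ≤ n)
    (hr2 : Filter.Tendsto r Filter.atTop Filter.atTop) :
    ∃ A : List Bool → Bool, RelPSPACE A ∪ RelRE A ⊆ RelAM r A ∧
      (∀ k, ∃ L ∈ RelSigma A (k + 1), L ∉ RelSigma A k) ∧
      ∃ L ∈ RelPSPACE A, ∀ k, L ∉ RelSigma A k := by
  have h1 := stageS (hideS (gadS hallS) (swS hallS) rndS gdS valS) ampS numS
  obtain ⟨mc, hmc⟩ := exists_surjective_nat OM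
  obtain ⟨τ, hτ⟩ := exists_surjective_nat
    (Bool × (OM × Polynomial ℕ) × List (OM × Polynomial ℕ × Polynomial ℕ))
  obtain ⟨θ, ξ, hok, h⟩ := fi_lim (amS.1 r) mc _ fun i =>
    fi_forces h1 hr1 hr2 mc (τ i).2.1 (τ i).2.2 (τ i).1
  refine ⟨_, Set.union_subset ((ar_dec _).trans (ar_main θ hmc hok)) (re_main θ hmc hok),
    fun k => Set.not_subset.1 fun hk => ?_, _, par_mem _, fun k hk => ?_⟩
  · obtain ⟨b, l, rfl, e⟩ := exists_ev' (h31u.collapse hk 3 (gl_mem _ _))
    obtain ⟨i, hi⟩ := hτ (false, b, l)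
    obtain ⟨x, hx⟩ := h i
    rw [hi] at hx
    exact hx (congrFun e x).symm
  · obtain ⟨b, l, e⟩ := exists_ev hk
    obtain ⟨i, hi⟩ := hτ (true, b, l)
    obtain ⟨x, hx⟩ := h i
    rw [hi] at hx
    exact hx (congrFun e x).symm

end Pool.Agent.MP_a2d820_lc.h17
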