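import Pool.Agent.MP_a2d820_lc.h31u.Final
import Pool.Agent.MP_a2d820_lc.h17.Defs

/-!
Project IP (helper17): an oracle with `PSPACE` inside `AM[r]` and an infinite hierarchy.
Definitions and the statements of the parts.
-/

set_option autoImplicit false

namespace Pool.Agent.MP_a2d820_lc.h17

open Pool.Agent.MP_a2d820_lc.h69 Pool.Agent.PolyT Pool.Agent.H82 N487b59b3 Function Finset

/-! ### Gadgets -/

/-- The assignment `u` meets the demands `D`. -/
def Cons {P : Type} (u : P → Bool) (D : Finset (P × Bool)) : Prop := ∀ d ∈ D, u d.1 = d.2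

/-- The expansion property of a relation `E` on the set `S`. -/
def Hall {Ω : Type} (S : Ω → Prop) (E : Ω → Ω → Prop) (θ : ℝ) : Prop :=
  ∀ B N : Finset Ω, (∀ a ∈ B, S a) → (∀ a ∈ B, ∀ a', E a a' → a' ∈ N) →
    (B.card : ℝ) ≤ θ * N.card

/-- A gadget: `X ω b` is the table that codes the bit `b` with randomness `ω`, and `Mix ω` is a
set of mixtures of the two tables. -/
structure Gad {P Ω : Type} (X : Ω → Bool → P → Bool) (Mix : Ω → (P → Bool) → Prop) (w : ℕ)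
    (θ : ℝ) : Prop where
  m0 : ∀ ω, Mix ω (X ω false)
  m1 : ∀ ω u p, Mix ω u → X ω false p = X ω true p → u p = X ω false p
  a1 : ∀ ω (D : Finset (P × Bool)), D.card ≤ w → Cons (X ω true) D → ∃ u, Mix ω u ∧ Cons u D
  a2 : ∀ D : Finset (P × Bool), D.card ≤ w →
    Hall (fun ω => (∃ d ∈ D, X ω false d.1 ≠ X ω true d.1) ∧ ∃ u, Mix ω u ∧ Cons u D)
      (fun ω ω' => Mix ω (X ω' false) ∧ Cons (X ω' false) D) θ

/-- Expansion in some coordinates gives expansion in the product. -/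
def HallStmt : Prop :=
  ∀ (I : Type) [Fintype I] [DecidableEq I] (Ω : I → Type) [∀ i, Fintype (Ω i)]
    (S : ∀ i, Ω i → Prop) (E : ∀ i, Ω i → Ω i → Prop) (θ : I → ℝ) (T : Finset I),
    (∀ i ∈ T, 0 ≤ θ i) → (∀ i ∈ T, Hall (S i) (E i) (θ i)) →
    Hall (fun ω : ∀ i, Ω i => ∀ i ∈ T, S i (ω i))
      (fun ω ω' => (∀ i, i ∉ T → ω' i = ω i) ∧ ∀ i ∈ T, E i (ω i) (ω' i)) (∏ i ∈ T, θ i)

/-- Messages. -/
abbrev Msg (m : ℕ) : Type := Fin m → Bool

/-- The randomness of a tree of height `h`: a pointer, and a coin and a subtree for every pair of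
messages. -/
def Om (m g : ℕ) : ℕ → Type
  | 0 => Unit
  | h + 1 => Msg m × (Msg m × Msg m → Fin (g + 1) × Om m g h)

instance omFin (m g : ℕ) : ∀ h, Fintype (Om m g h)
  | 0 => inferInstanceAs (Fintype Unit)
  | h + 1 =>
    letI := omFin m g h
    inferInstanceAs (Fintype (Msg m × (Msg m × Msg m → Fin (g + 1) × Om m g h)))

instance omInh (m g : ℕ) : ∀ h, Inhabited (Om m g h)
  | 0 => ⟨()⟩
  | h + 1 => ⟨(fun _ => false, fun _ => (0, (omInh m g h).default))⟩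

/-- The first two messages of a string. -/
def idx (m : ℕ) (p : List Bool) : Msg m × Msg m :=
  (fun i => p.getD i false, fun i => p.getD (m + i) false)

/-- The leaves of the tree with root value `b`. -/
def tab (m g : ℕ) : ∀ h, Om m g h → Bool → List Bool → Bool
  | 0, _, b, _ => b
  | h + 1, ω, b, p => tab m g h (ω.2 (idx m p)).2
      ((b && decide ((idx m p).1 = ω.1)) || decide ((ω.2 (idx m p)).1 = 0)) (p.drop (2 * m))

/-- The trees are gadgets. -/
def GadStmt : Prop :=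
  ∀ (m g j w h : ℕ) (θ : ℝ), 1 ≤ h → 1 ≤ w → w < (j + 1) ^ h →
    (9 * w * ((g + 1) * w) ^ j : ℝ) ≤ θ * 2 ^ m → θ * w ≤ 1 →
    ∃ Mix, Gad (tab m g h) Mix w θ

/-! ### The switching lemma and its iteration -/

/-- One round: the substitution `ρ ω` turns narrow disjunctions into shallow trees. -/
def Round {V W : Type} [DecidableEq V] [Fintype W] (ρ : W → (V → Bool) → V → Bool) (w : ℕ)
    (α : ℝ) : Prop :=
  (∀ ω v, DT 1 fun b => ρ ω b v) ∧
    ∀ w' ≤ w, ∀ F : List (Term V), (∀ C ∈ F, C.1.card ≤ w') → ∀ (s : ℕ) (B : Finset W),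
      (∀ ω ∈ B, ¬DT (s * w') fun b => F.any (sat (ρ ω b))) →
      (B.card : ℝ) ≤ α ^ (s + 1) * Fintype.card W

/-- The substitution given by one gadget for every block. -/
def prj {V P : Type} {Ω : V → Type} (blk : V → V) (loc : V → P) (X : ∀ i, Ω i → Bool → P → Bool)
    (ω : ∀ i, Ω i) (b : V → Bool) (v : V) : Bool := X (blk v) (ω (blk v)) (b (blk v)) (loc v)

/-- The switching lemma for gadgets. -/
def SwStmt : Prop :=
  ∀ (V P : Type) [Fintype V] [DecidableEq V] (Ω : V → Type) [∀ i, Fintype (Ω i)]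
    (blk : V → V) (loc : V → P) (X : ∀ i, Ω i → Bool → P → Bool)
    (Mix : ∀ i, Ω i → (P → Bool) → Prop) (w : ℕ) (θ α : ℝ), 0 ≤ θ →
    (∀ i, Gad (X i) (Mix i) w θ) → (1 + 2 * θ) ^ w - 1 ≤ α → Round (prj blk loc X) w α

/-- `k` independent samples. -/
def Pw (W : Type) : ℕ → Type
  | 0 => Unit
  | k + 1 => Pw W k × W

instance pwFin (W : Type) [Fintype W] : ∀ k, Fintype (Pw W k)
  | 0 => inferInstanceAs (Fintype Unit)
  | k + 1 =>
    letI := pwFin W k
    inferInstanceAs (Fintype (Pw W k × W))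

instance pwInh (W : Type) [Inhabited W] : ∀ k, Inhabited (Pw W k)
  | 0 => ⟨()⟩
  | k + 1 => ⟨((pwInh W k).default, default)⟩

/-- The composition of `k` rounds. -/
def cmp {V W : Type} (ρ : W → (V → Bool) → V → Bool) : ∀ k, Pw W k → (V → Bool) → V → Bool
  | 0, _, z => z
  | k + 1, a, z => cmp ρ k a.1 (ρ a.2 z)

/-- After `k + 1` rounds a circuit with `k` layers is constant. -/
def RndStmt : Prop :=
  ∀ (V W W' : Type) [Fintype V] [DecidableEq V] [Fintype W] [Fintype W']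
    (ρ : W → (V → Bool) → V → Bool) (ρ' : W' → (V → Bool) → V → Bool) (w N s k : ℕ) (α : ℝ),
    1 ≤ w → 1 ≤ s → 1 ≤ N → N ≤ 2 ^ s → 0 ≤ α → α ≤ 1 / 2 →
    Round ρ ((s * w) ^ k * w) α → Round ρ' ((s * w) ^ k * w) α →
    ∀ f : (V → Bool) → Bool, AC w N k {f} → ∀ B : Finset (Pw W k × W'),
      (∀ a ∈ B, ∃ b b', f (cmp ρ k a.1 (ρ' a.2 b)) ≠ f (cmp ρ k a.1 (ρ' a.2 b'))) →
      (B.card : ℝ) ≤ (k + 1) * α * Fintype.card (Pw W k × W')

/-! ### Valid trees -/

/-- The leaves `a` below the transcript `t` form a tree of height `h` with robust value `b`. -/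
def Gd (m g : ℕ) (a : Lang) : ℕ → Bool → List Bool → Prop
  | 0, b, t => a t = b
  | h + 1, true, t => ∃ y : Msg m, ∀ z : Msg m, Gd m g a h true (t ++ List.ofFn y ++ List.ofFn z)
  | h + 1, false, t => ∀ y : Msg m, ∃ U : Finset (Msg m), U.card * (g + 1) ≤ 2 * 2 ^ m ∧
      ∀ z, z ∉ U → Gd m g a h false (t ++ List.ofFn y ++ List.ofFn z)

/-- Few coins are zero at every node. -/
def Val (m g : ℕ) : ∀ h, Om m g h → Prop
  | 0, _ => True
  | h + 1, ω => (∀ y : Msg m, #{z : Msg m | (ω.2 (y, z)).1 = 0} * (g + 1) ≤ 2 * 2 ^ m) ∧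
      ∀ q, Val m g h (ω.2 q).2

/-- Both tables have the right game value. -/
def Okr (X : Bool → Lang) (m h : ℕ) : Prop :=
  gv (X true) m h [] = 1 ∧ gv (X false) m h [] ≤ 1 / 3

/-- Properties of robust values. -/
def GdStmt : Prop :=
  (∀ m g a h t, Gd m g a h true t → gv a m h t = 1) ∧
  (∀ m g a h t, Gd m g a h false t → gv a m h t ≤ 2 * h / (g + 1)) ∧
  (∀ m g a a' h h' b t, Gd m g a h b t →
    (∀ t' : List Bool, t'.length = t.length + 2 * m * h → Gd m g a' h' (a t') t') →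
    Gd m g a' (h + h') b t) ∧
  ∀ m g a h ω b (t : List Bool), Val m g h ω →
    (∀ s : List Bool, s.length = 2 * m * h → a (t ++ s) = tab m g h ω b s) → Gd m g a h b t

/-- Most trees are valid. -/
def ValStmt : Prop :=
  ∀ (m g h : ℕ) (B : Finset (Om m g h)), (∀ ω ∈ B, ¬Val m g h ω) →
    (B.card : ℝ) ≤ (2 * 4 ^ m) ^ h * Real.exp (-(2 ^ m / (3 * (g + 1)))) *
      Fintype.card (Om m g h)

/-- The combinatorial core: valid tables whose roots are hidden from small circuits. -/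
def HideStmt : Prop :=
  ∀ (n T k H w s N j : ℕ) (ht : List Bool → ℕ) (α : ℝ), 1 ≤ w → 1 ≤ s → 1 ≤ N → N ≤ 2 ^ s →
    1 ≤ H → (s * w) ^ k * w < (j + 1) ^ H → α ≤ 1 / 2 →
    (36 * ((s * w) ^ k * w) ^ 2 * ((6 * T + 1) * ((s * w) ^ k * w)) ^ j : ℝ) ≤ α * 2 ^ n ^ 2 →
    (2 ^ (T + 2 * T ^ 3 + 2) * (2 * 4 ^ T ^ 2) ^ T * Real.exp (-(2 ^ n ^ 2 / (3 * (6 * T + 1)))) : ℝ)
      ≤ α →
    (∀ u, (k + 1) * H ≤ ht u ∧ ht u ≤ T) →
    ∃ (W : Type) (_ : Fintype W) (_ : Nonempty W) (ξ : W → List Bool → Bool → Lang),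
      ∀ φ : (List Bool → Lang) → Bool,
        (∀ (V : Type) (σ : (V → Bool) → List Bool → Lang), (∀ u t, DT 1 fun z => σ z u t) →
          AC w N k {fun z => φ (σ z)}) →
        ∀ B : Finset W, (∀ ω ∈ B,
          (∃ u : List Bool, n ≤ u.length ∧ u.length < T ∧ ¬Okr (ξ ω u) (u.length ^ 2) (ht u)) ∨
          ∃ β : List Bool → Bool, φ (fun u => ξ ω u (β u)) ≠ φ fun u => ξ ω u false) →
        (B.card : ℝ) ≤ 2 * (k + 1) * α * Fintype.card W

/-- A probabilistic circuit with small error is a circuit with two more layers. -/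
def AmpStmt : Prop :=
  ∀ (V W : Type) [Fintype V] [DecidableEq V] [Fintype W] [Nonempty W]
    (F : W → (V → Bool) → Bool) (S : (V → Bool) → Bool) (w N k : ℕ), 1 ≤ w → 1 ≤ N →
    (∀ ω, AC w N k {F ω}) →
    (∀ z, #{ω | F ω z ≠ S z} * (4 * (Fintype.card V + 1)) ≤ Fintype.card W) →
    AC w ((Fintype.card V + 1) ^ 2 * N) (k + 2) {S}

/-! ### The oracle -/

/-- The middle part of an address. -/
def mid (s : List Bool) : List Bool := third (sel true (sel false s))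

open Classical in
/-- The oracle with background `θ` and tables `ξ`. -/
noncomputable def orc (mc : ℕ → OM) (θ : Lang) (ξ : List Bool → Bool → Lang) : Lang :=
  fix fun s O => if ∃ u t, s = ad u t 1 then ξ (row s) (ans mc (row s) O) (mid s) else θ s

/-- All tables that are used are valid. -/
def Ok (r : ℕ → ℕ) (ξ : List Bool → Bool → Lang) : Prop :=
  ∀ (i : ℕ) (x y u : List Bool), u = true :: bitEncode (i, x, y) → u.length ≤ 2 ^ x.length →
    Okr (ξ u) (u.length ^ 2) (r x.length)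

/-- Two pairs of parameters agree below length `l`. -/
def Agr (l : ℕ) (θ : Lang) (ξ : List Bool → Bool → Lang) (θ' : Lang)
    (ξ' : List Bool → Bool → Lang) : Prop :=
  (∀ s, s.length < l → θ s = θ' s) ∧ ∀ u, u.length < l → ξ u = ξ' u

theorem mid_ad (u t : List Bool) (b : ℕ) : mid (ad u t b) = t := by
  simp [mid, ad, enc_pair, sel_pair, third_enc]

theorem ans_loc (mc : ℕ → OM) (u : List Bool) {A A' : Lang}
    (h : ∀ v, v.length < u.length → A v = A' v) : ans mc u A = ans mc u A' := by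
  rw [ans, ans, h31u.trunc_congr h]

theorem orc_base (mc : ℕ → OM) (θ : Lang) (ξ : List Bool → Bool → Lang) {s : List Bool}
    (h : ¬∃ u t, s = ad u t 1) : orc mc θ ξ s = θ s := by
  rw [orc, fix, if_neg h]

theorem orc_row (mc : ℕ → OM) (θ : Lang) (ξ : List Bool → Bool → Lang) (x j : List Bool) :
    orc mc θ ξ (ad x j 0) = θ (ad x j 0) :=
  orc_base mc θ ξ fun ⟨_, _, h⟩ => by simpa using (ad_inj h).2.2

theorem orc_code (mc : ℕ → OM) (θ : Lang) (ξ : List Bool → Bool → Lang) (u t : List Bool) :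
    orc mc θ ξ (ad u t 1) = ξ u (ans mc u (orc mc θ ξ)) t := by
  classical
  rw [orc, fix, if_pos ⟨u, t, rfl⟩, row_ad, mid_ad]
  refine congrArg (fun b => ξ u b t) (ans_loc mc u fun v hv => if_pos ?_)
  have := le_length_ad u t 1
  omega

theorem Agr.orc {l : ℕ} {θ θ' : Lang} {ξ ξ' : List Bool → Bool → Lang} (h : Agr l θ ξ θ' ξ')
    (mc : ℕ → OM) (s : List Bool) (hs : s.length < l) : orc mc θ ξ s = orc mc θ' ξ' s := by
  induction hn : s.length using Nat.strong_induction_on generalizing s with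
  | _ n ih =>
    by_cases hc : ∃ u t, s = ad u t 1
    · obtain ⟨u, t, rfl⟩ := hc
      have h1 := le_length_ad u t 1
      rw [orc_code, orc_code, h.2 u (by omega),
        ans_loc mc u fun v hv => ih _ (by omega) v (by omega) rfl]
    · rw [orc_base _ _ _ hc, orc_base _ _ _ hc, h.1 s hs]

/-- Valid tables put `PSPACE` into `AM[r]`; the open tables are valid. -/
def AMStmt : Prop :=
  (∀ r, Ok r fun _ b _ => b) ∧
  ∀ (r : ℕ → ℕ) (mc : ℕ → OM) (θ : Lang) (ξ : List Bool → Bool → Lang), Surjective mc → Ok r ξ →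
    RelPSPACE (orc mc θ ξ) ∪ RelDec (orc mc θ ξ) ⊆ RelAM r (orc mc θ ξ)

/-- The numbers of one stage. -/
def NumStmt : Prop :=
  ∀ n T k a : ℕ, T ≤ 2 ^ a → n ≤ T → 16 * ((k + 2) * (a + 2)) ≤ n →
    (36 * ((2 ^ a * 2 ^ a) ^ k * 2 ^ a) ^ 2 * ((6 * T + 1) * ((2 ^ a * 2 ^ a) ^ k * 2 ^ a)) ^ n : ℝ)
      ≤ (1 / 2) ^ ((k + 6) * n) * 2 ^ n ^ 2 ∧
    (2 ^ (T + 2 * T ^ 3 + 2) * (2 * 4 ^ T ^ 2) ^ T * Real.exp (-(2 ^ n ^ 2 / (3 * (6 * T + 1)))) : ℝ)
      ≤ (1 / 2) ^ ((k + 6) * n)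

/-- One stage of the construction. -/
def StageStmt : Prop :=
  ∀ (r : ℕ → ℕ) (mc : ℕ → OM) (V : Type) [Fintype V] [DecidableEq V] (f G : Lang → Bool)
    (x : List Bool) (e : V → List Bool) (k B a H : ℕ), (∀ l, r l ≤ l) → Injective e →
    (∀ A A' : Lang, (∀ v, v.length ≤ B → A v = A' v) → f A = f A') →
    (∀ (V' : Type) (σ : (V' → Bool) → Lang), (∀ v, DT 1 fun z => σ z v) →
      AC B (2 ^ B) k {fun z => f (σ z)}) →
    (∀ A A' : Lang, (∀ i, (ad x i 0).length ≤ B → A (ad x i 0) = A' (ad x i 0)) → G A = G A') →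
    B + 1 < 2 ^ a → x.length ≤ B → Fintype.card V < 2 ^ ((k + 3) * x.length + 1) →
    (k + 3) * x.length + 1 ≤ B → 16 * ((k + 2) * (a + 2)) ≤ x.length →
    2 ^ ((2 * k + 1) * a) ≤ x.length ^ H → (∀ l, x.length ≤ 2 ^ l → (k + 1) * H ≤ r l) →
    ∀ (θ : Lang) (ξ : List Bool → Bool → Lang), Ok r ξ →
    (¬AC (2 ^ (a + 2)) (2 ^ (3 * 2 ^ a)) (k + 2)
      {fun z => G (extend (fun v => ad x (e v) 0) z θ)}) →
    ∃ θ' ξ', Ok r ξ' ∧ Agr x.length θ ξ θ' ξ' ∧ ∀ θ'' ξ'', Agr (B + 1) θ' ξ' θ'' ξ'' →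
      f (orc mc θ'' ξ'') ≠ G (orc mc θ'' ξ'')

/-- The theorem. -/
def MainStmt : Prop :=
  ∀ r : ℕ → ℕ, (∀ n, r n ≤ n) → Filter.Tendsto r Filter.atTop Filter.atTop →
    ∃ A : List Bool → Bool, RelPSPACE A ∪ RelDec A ⊆ RelAM r A ∧
      (∀ k, ∃ L ∈ RelSigma A (k + 1), L ∉ RelSigma A k) ∧
      ∃ L ∈ RelPSPACE A, ∀ k, L ∉ RelSigma A k

end Pool.Agent.MP_a2d820_lc.h17
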