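import Pool.Agent.MP_a2d820_lc.h17.RE
import Pool.Agent.MP_a2d820_lc.h17.Defs3

/-!
Project IP, second part (helper17): the same oracle gives `coNP` games whose honest prover is a
language in `NP`. Definitions and the statements of the parts.
-/

set_option autoImplicit false

namespace Pool.Agent.MP_a2d820_lc.h17

open Pool.Agent.MP_a2d820_lc.h69 Pool.Agent.PolyT Pool.Agent.H82 N487b59b3 Function Finset

/-! ### One-sided gadgets -/

/-- A one-sided gadget: few positions of the true table look like a mixture, and mixtures rarely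
meet demands that the false table misses. -/
structure Gad1 {P Ω : Type} (X : Ω → Bool → P → Bool) (Mix : Ω → (P → Bool) → Prop) (w : ℕ)
    (θ : ℝ) : Prop where
  m0 : ∀ ω, Mix ω (X ω false)
  a1 : ∀ ω (D : Finset (P × Bool)), D.card ≤ w → Cons (X ω true) D → ∃ u, Mix ω u ∧ Cons u D
  a2 : ∀ D : Finset (P × Bool), D.card ≤ w →
    Hall (fun ω => ¬Cons (X ω false) D ∧ ∃ u, Mix ω u ∧ Cons u D)
      (fun ω ω' => Mix ω (X ω' false) ∧ Cons (X ω' false) D) θ

/-- The randomness of a marked tree: a pointer, a coin and a subtree for every pair of messages,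
and a second coin for every message. -/
def Om2 (m g : ℕ) : ℕ → Type
  | 0 => Unit
  | h + 1 => (Msg m × (Msg m × Msg m → Fin (g + 1) × Om2 m g h)) × (Msg m → Fin (g + 1))

instance om2Fin (m g : ℕ) : ∀ h, Fintype (Om2 m g h)
  | 0 => inferInstanceAs (Fintype Unit)
  | h + 1 =>
    letI := om2Fin m g h
    inferInstanceAs (Fintype
      ((Msg m × (Msg m × Msg m → Fin (g + 1) × Om2 m g h)) × (Msg m → Fin (g + 1))))

instance om2Inh (m g : ℕ) : ∀ h, Inhabited (Om2 m g h)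
  | 0 => ⟨()⟩
  | h + 1 => ⟨((fun _ => false, fun _ => (0, (om2Inh m g h).default)), fun _ => 0)⟩

/-- The marks (short positions) and the leaves of the tree with root value `b`. -/
def tab2 (m g : ℕ) : ∀ h, Om2 m g h → Bool → List Bool → Bool
  | 0, _, b, _ => b
  | h + 1, ω, b, p =>
    if p.length < 2 * m then
      bif b then decide ((idx m p).1 = ω.1.1) else decide (ω.2 (idx m p).1 = 0)
    else tab2 m g h (ω.1.2 (idx m p)).2
      ((b && decide ((idx m p).1 = ω.1.1)) || decide ((ω.1.2 (idx m p)).1 = 0)) (p.drop (2 * m))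

/-- Cheap mixtures for a marked tree. -/
def mix2 (m g j : ℕ) : ∀ h, Om2 m g h → (List Bool → Bool) → Prop
  | 0, _, u => u = fun _ => false
  | h + 1, ω, u => ∃ (U : Finset (Msg m)) (k : Msg m → Bool)
      (v : Msg m × Msg m → List Bool → Bool), U.card ≤ j ∧
      (∀ p, u p = if p.length < 2 * m then k (idx m p).1 else v (idx m p) (p.drop (2 * m))) ∧
      (∀ y, k y = true → y = ω.1.1 ∨ ω.2 y = 0) ∧ ∀ q : Msg m × Msg m,
        (q.1 = ω.1.1 → (ω.1.2 q).1 ≠ 0 → q.2 ∈ U → v q = tab2 m g h (ω.1.2 q).2 true) ∧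
        (q.1 = ω.1.1 → (ω.1.2 q).1 ≠ 0 → q.2 ∉ U → mix2 m g j h (ω.1.2 q).2 (v q)) ∧
        (¬(q.1 = ω.1.1 ∧ (ω.1.2 q).1 ≠ 0) →
          v q = tab2 m g h (ω.1.2 q).2 (decide ((ω.1.2 q).1 = 0)))

/-- The demands on one subtree. -/
def sub2 (m : ℕ) (D : Finset (List Bool × Bool)) (q : Msg m × Msg m) :
    Finset (List Bool × Bool) :=
  (D.filter fun d => ¬d.1.length < 2 * m ∧ idx m d.1 = q).image fun d => (d.1.drop (2 * m), d.2)

/-- The demands are missed by the false table and met by a mixture. -/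
def gS (m g j h : ℕ) (D : Finset (List Bool × Bool)) (ω : Om2 m g h) : Prop :=
  ¬Cons (tab2 m g h ω false) D ∧ ∃ u, mix2 m g j h ω u ∧ Cons u D

/-- The false table of `ω'` is a mixture for `ω` and meets the demands. -/
def gE (m g j h : ℕ) (D : Finset (List Bool × Bool)) (ω ω' : Om2 m g h) : Prop :=
  mix2 m g j h ω (tab2 m g h ω' false) ∧ Cons (tab2 m g h ω' false) D

/-- The data that describe how a tree is changed: marks in `O` are switched off, marks in `I`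
(at most the pointer) are switched on, coins in `U` become zero, subtrees in `R` are changed. -/
def gP (m g j h : ℕ) (D : Finset (List Bool × Bool)) (ω : Om2 m g (h + 1))
    (O I U R : Finset (Msg m)) : Prop :=
  Disjoint O I ∧ Disjoint U R ∧ I ⊆ {ω.1.1} ∧ (∀ y ∈ O, ω.2 y = 0) ∧
    (∀ z ∈ R, gS m g j h (sub2 m D (ω.1.1, z)) (ω.1.2 (ω.1.1, z)).2) ∧
    ∀ ω' : Om2 m g (h + 1), (∀ y, y ∉ O ∪ I → ω'.2 y = ω.2 y) → (∀ y ∈ O, ω'.2 y ≠ 0) →
      (∀ y ∈ I, ω'.2 y = 0) → (∀ q, q ∉ (U ∪ R).image (Prod.mk ω.1.1) → ω'.1.2 q = ω.1.2 q) →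
      (∀ z ∈ U, ω'.1.2 (ω.1.1, z) = (0, (ω.1.2 (ω.1.1, z)).2)) →
      (∀ z ∈ R, (ω'.1.2 (ω.1.1, z)).1 = (ω.1.2 (ω.1.1, z)).1 ∧
        gE m g j h (sub2 m D (ω.1.1, z)) (ω.1.2 (ω.1.1, z)).2 (ω'.1.2 (ω.1.1, z)).2) →
      gE m g j (h + 1) D ω ω'

/-- The false table is a mixture; few positions of the true table look like a mixture. -/
def MixStmt : Prop :=
  (∀ m g j h ω, mix2 m g j h ω (tab2 m g h ω false)) ∧
  ∀ m g j h ω (D : Finset (List Bool × Bool)), D.card < (j + 1) ^ h →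
    Cons (tab2 m g h ω true) D → ∃ u, mix2 m g j h ω u ∧ Cons u D

/-- Every mixture that meets the demands gives data. -/
def DataStmt : Prop :=
  ∀ (m g j h : ℕ) (D : Finset (List Bool × Bool)) (ω : Om2 m g (h + 1)) (u : List Bool → Bool),
    mix2 m g j (h + 1) ω u → Cons u D →
    ∃ O I U R : Finset (Msg m), O ⊆ D.image (fun d => (idx m d.1).1) ∧
      U ⊆ D.image (fun d => (idx m d.1).2) ∧ R ⊆ D.image (fun d => (idx m d.1).2) ∧ U.card ≤ j ∧
      ((I ∪ U ∪ R).Nonempty → ω.1.1 ∈ D.image fun d => (idx m d.1).1) ∧ gP m g j h D ω O I U R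

/-- The count for fixed data. -/
def PieceStmt : Prop :=
  ∀ (m g j h w : ℕ) (θ : ℝ), 0 ≤ θ → 1 ≤ g →
    (∀ D : Finset (List Bool × Bool), D.card ≤ w → Hall (gS m g j h D) (gE m g j h D) θ) →
    ∀ D : Finset (List Bool × Bool), D.card ≤ w → ∀ (O I U R : Finset (Msg m))
      (B N : Finset (Om2 m g (h + 1))), (∀ ω ∈ B, gP m g j h D ω O I U R) →
      (∀ ω ∈ B, ∀ ω', gE m g j (h + 1) D ω ω' → ω' ∈ N) →
      (I = ∅ → U = ∅ → R = ∅ → (B.card : ℝ) ≤ (1 / g) ^ O.card * N.card) ∧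
      ∀ y : Msg m, (∀ ω ∈ B, ω.1.1 = y) → (B.card : ℝ) * 2 ^ m ≤
        (1 / g) ^ O.card * (g + 1) ^ I.card * (g + 1) ^ U.card * θ ^ R.card * N.card

/-- The marked trees are one-sided gadgets. -/
def Gad2Stmt : Prop :=
  ∀ (m g j w h : ℕ) (θ : ℝ), 1 ≤ w → w < (j + 1) ^ h → (4 * w : ℝ) ≤ θ * g →
    (54 * w * (g + 2) * ((g + 1) * w) ^ j : ℝ) ≤ θ * 2 ^ m → θ * w ≤ 1 →
    Gad1 (tab2 m g h) (mix2 m g j h) w θ

/-! ### Killing a family of terms -/

/-- The term `C` is met by the false tables on the rows in `L` and by mixtures elsewhere. -/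
def Lv {ι P : Type} {Ω : ι → Type} (X : ∀ i, Ω i → Bool → P → Bool)
    (Mix : ∀ i, Ω i → (P → Bool) → Prop) (ω : ∀ i, Ω i) (L : ι → Prop)
    (C : Finset ((ι × P) × Bool)) : Prop :=
  ∀ i, ∃ u, (L i → u = X i (ω i) false) ∧ Mix i (ω i) u ∧ ∀ p b, ((i, p), b) ∈ C → u p = b

/-- If the false tables meet no term, few rows already show it. -/
def KillStmt : Prop :=
  ∀ (ι P : Type) [Fintype ι] [DecidableEq ι] (Ω : ι → Type) [∀ i, Fintype (Ω i)]
    (X : ∀ i, Ω i → Bool → P → Bool) (Mix : ∀ i, Ω i → (P → Bool) → Prop) (w s : ℕ) (θ α : ℝ),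
    0 ≤ θ → (∀ i, Gad1 (X i) (Mix i) w θ) → (1 + θ) ^ w - 1 ≤ α →
    ∀ (J : (∀ i, Ω i) → Finset ι) (Fam : (∀ i, Ω i) → Set (Finset ((ι × P) × Bool))),
    (∀ ω ω', (∀ i, i ∉ J ω → ω' i = ω i) → J ω' = J ω ∧ Fam ω' = Fam ω) →
    (∀ ω, ∀ C ∈ Fam ω, C.card ≤ w) →
    hiSmall (fun ω => (∀ C ∈ Fam ω, ¬Lv X Mix ω (fun _ => True) C) ∧
      ∀ S ⊆ J ω, S.card ≤ s * w → ∃ C ∈ Fam ω, Lv X Mix ω (fun i => i ∉ J ω ∨ i ∈ S) C)
      (α ^ (s + 1))

/-! ### Self-referential systems -/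

section
variable {V ι P : Type} (Y : ι → (V → Bool) → (ι → P → Bool) → Prop) (lev : ι → ℕ)

/-- The bits of `z` in `E` and the demands `T` force row `R` to accept. -/
def Force (z : V → Bool) (E : Finset V) (T : Finset ((ι × P) × Bool)) (R : ι) : Prop :=
  ∀ z' τ', (∀ v ∈ E, z' v = z v) → (∀ d ∈ T, τ' d.1.1 d.1.2 = d.2) → Y R z' τ'

/-- Acceptance has small certificates that read rows of lower levels only. -/
def Sys2 (t : ℕ) : Prop :=
  ∀ R z τ, Y R z τ → ∃ (E : Finset V) (T : Finset ((ι × P) × Bool)), E.card ≤ t ∧ T.card ≤ t ∧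
    (∀ d ∈ T, lev d.1.1 < lev R ∧ τ d.1.1 d.1.2 = d.2) ∧ Force Y z E T R

/-- The values of the rows: a row shows its false table if and only if it accepts. -/
def Fx (tb : ι → Bool → P → Bool) (z : V → Bool) (β : ι → Bool) : Prop :=
  ∀ R, β R = false ↔ Y R z fun i => tb i (β i)

/-- An optimistic certificate: rows in `A` show their false table, rows guessed true need no
proof, the other rows are forced to accept. -/
def Opt (w : ℕ) (tb : ι → Bool → P → Bool) (z : V → Bool) (A : Finset ι) (R : ι) : Prop :=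
  ∃ (γ : ι → Bool) (E : Finset V) (T : Finset ((ι × P) × Bool)), E.card ≤ w ∧ T.card ≤ w ∧
    (∀ i ∈ A, γ i = false) ∧ Force Y z E T R ∧ ∀ d ∈ T, lev d.1.1 < lev R ∧
      tb d.1.1 (γ d.1.1) d.1.2 = d.2 ∧ (d.1.1 ∉ A → γ d.1.1 = false → Force Y z E T d.1.1)

/-- Every rejecting row is blocked by few accepting rows. -/
def Blk (w K : ℕ) (tb : ι → Bool → P → Bool) (z : V → Bool) (β : ι → Bool) : Prop :=
  ∀ R, β R = true → ∃ A : Finset ι, A.card ≤ K ∧ (∀ i ∈ A, β i = false ∧ lev i < lev R) ∧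
    ¬Opt Y lev w tb z A R

/-- A direct certificate that reads rows in `A` (false tables) and in `Q` (true tables). -/
def Dir (w : ℕ) (tb : ι → Bool → P → Bool) (z : V → Bool) (A Q : Finset ι) (R : ι) : Prop :=
  ∃ (E : Finset V) (T : Finset ((ι × P) × Bool)), E.card ≤ w ∧ Force Y z E T R ∧
    ∀ d ∈ T, lev d.1.1 < lev R ∧ (d.1.1 ∈ A ∧ tb d.1.1 false d.1.2 = d.2 ∨
      d.1.1 ∈ Q ∧ tb d.1.1 true d.1.2 = d.2)

/-- A witness that the rows in `A` accept and the rows in `Q` reject. -/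
def Wit2 (w : ℕ) (tb : ι → Bool → P → Bool) (z : V → Bool) (A Q : Finset ι) : Prop :=
  (∀ R ∈ A, Dir Y lev w tb z A Q R) ∧
    ∀ R ∈ Q, ∃ A' ⊆ A, (∀ i ∈ A', lev i < lev R) ∧ ¬Opt Y lev w tb z A' R

end

/-- For most tables all rejecting rows are blocked. -/
def BlkStmt : Prop :=
  ∀ (V ι P : Type) [Fintype ι] [DecidableEq ι] (Ω : ι → Type) [∀ i, Fintype (Ω i)]
    (X : ∀ i, Ω i → Bool → P → Bool) (Mix : ∀ i, Ω i → (P → Bool) → Prop)
    (Y : ι → (V → Bool) → (ι → P → Bool) → Prop) (lev : ι → ℕ) (t w L m q : ℕ) (θ : ℝ),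
    0 ≤ θ → (∀ i, Gad1 (X i) (Mix i) w θ) → (1 + θ) ^ w - 1 ≤ 1 / 2 → Sys2 Y lev t →
    (∀ R, lev R < L) → Fintype.card ι < 2 ^ m → 1 + 4 * m * w ≤ q →
    ∀ (z : V → Bool) (β : (∀ i, Ω i) → ι → Bool), (∀ ω, Fx Y (fun i => X i (ω i)) z (β ω)) →
    hiSmall (fun ω => ¬Blk Y lev w (q ^ L) (fun i => X i (ω i)) z (β ω)) (L / 2 ^ m)

/-- Witnesses are sound, and small witnesses exist if all rejecting rows are blocked. -/
def WitStmt : Prop :=
  ∀ (V ι P : Type) [Fintype ι] [DecidableEq ι] (Y : ι → (V → Bool) → (ι → P → Bool) → Prop)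
    (lev : ι → ℕ) (t w L K : ℕ) (tb : ι → Bool → P → Bool) (z : V → Bool) (β : ι → Bool),
    Sys2 Y lev t → (∀ R, lev R < L) → 1 ≤ t → t * (2 * t) ^ L ≤ w → t ≤ K → Fx Y tb z β →
    (∀ A Q, Wit2 Y lev w tb z A Q → (∀ R ∈ A, β R = false) ∧ ∀ R ∈ Q, β R = true) ∧
    (Blk Y lev w K tb z β → ∀ R, ∃ A Q : Finset ι, A.card ≤ (2 * K) ^ L ∧ Q.card ≤ (2 * K) ^ L ∧
      Wit2 Y lev w tb z A Q ∧ (R ∈ A ∨ R ∈ Q))

/-- Small witnesses are found by circuits with two layers. -/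
def CirStmt : Prop :=
  ∀ (V ι P : Type) [Fintype ι] [DecidableEq ι] (Y : ι → (V → Bool) → (ι → P → Bool) → Prop)
    (lev : ι → ℕ) (w S m W N : ℕ) (tb : ι → Bool → P → Bool), Fintype.card ι < 2 ^ m → 1 ≤ S →
    w ≤ W → 2 * S ≤ W → 2 ^ (m + 1 + 2 * ((m + 1) * S)) ≤ N →
    ∃ (c : ι → (V → Bool) → Bool) (bad : (V → Bool) → Bool) (G : Finset ((V → Bool) → Bool)),
      G.card ≤ N ∧ AC W N 2 (G : Set ((V → Bool) → Bool)) ∧ (∀ R, c R ∈ G) ∧ AC W N 3 {bad} ∧
      (∀ R z, c R z = true ↔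
        ∃ A Q : Finset ι, A.card ≤ S ∧ Q.card ≤ S ∧ Wit2 Y lev w tb z A Q ∧ R ∈ Q) ∧
      ∀ z, bad z = false ↔ ∀ R,
        ∃ A Q : Finset ι, A.card ≤ S ∧ Q.card ≤ S ∧ Wit2 Y lev w tb z A Q ∧ (R ∈ A ∨ R ∈ Q)

/-! ### Valid marked trees -/

/-- Exactly one message is marked at every position that is reached, and all plays accept. -/
def Wm (a : Lang) (m : ℕ) : ℕ → List Bool → Prop
  | 0, t => a t = true
  | h + 1, t => ∃ y : Msg m, (∀ y' : Msg m, a (t ++ List.ofFn y') = true ↔ y' = y) ∧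
      ∀ z : Msg m, Wm a m h (t ++ List.ofFn y ++ List.ofFn z)

/-- The true table guides the prover, the false table has small value. -/
def Okr2 (X : Bool → Lang) (m h : ℕ) : Prop :=
  Wm (X true) m h [] ∧ gv (X false) m h [] ≤ 1 / 3

/-- Most marked trees are valid. -/
def Val2Stmt : Prop :=
  (∀ m g h ω, 1 ≤ m → Wm (tab2 m g h ω true) m h []) ∧
  ∀ m g h : ℕ, 1 ≤ m → 6 * h ≤ g + 1 → hiSmall (fun ω => ¬Okr2 (tab2 m g h ω) m h)
    ((2 * 4 ^ m) ^ h * Real.exp (-(2 ^ m / (3 * (g + 1)))))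

/-! ### The oracle -/

/-- The addresses of the marked tables. -/
def IsN (s : List Bool) : Prop := ∃ u t, s = ad u t 2 ∧ u.length ^ 2 ≤ t.length

open Classical in
/-- The marked tables of the rows with lengths in `[n, T)` on top of `Z`. -/
noncomputable def nor (nc : h31u.Enum) (n T : ℕ) (η : List Bool → Bool → Lang) (Z : Lang) : Lang :=
  fix fun s O => if IsN s ∧ n ≤ (row s).length ∧ (row s).length < T then
    η (row s) (!decide (h31u.yes nc (row s) O)) (mid s) else Z s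

open Classical in
/-- The oracle with background `θ`, plain tables `ξ` and marked tables `η`. -/
noncomputable def orc2 (mc : ℕ → OM) (nc : h31u.Enum) (θ : Lang) (ξ η : List Bool → Bool → Lang) :
    Lang :=
  fix fun s O => if ∃ u t, s = ad u t 1 then ξ (row s) (ans mc (row s) O) (mid s)
    else if IsN s then η (row s) (!decide (h31u.yes nc (row s) O)) (mid s) else θ s

/-- All marked tables that are used are valid. -/
def Ok2 (r : ℕ → ℕ) (η : List Bool → Bool → Lang) : Prop :=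
  ∀ (i : ℕ) (x y u : List Bool), u = bitEncode (i, x, y) → u.length ≤ 2 ^ x.length →
    Okr2 (η u) (u.length ^ 2) (r x.length)

/-- Two triples of parameters agree below length `l`. -/
def Agr2 (l : ℕ) (θ : Lang) (ξ η : List Bool → Bool → Lang) (θ' : Lang)
    (ξ' η' : List Bool → Bool → Lang) : Prop :=
  Agr l θ ξ θ' ξ' ∧ ∀ u, u.length < l → η u = η' u

theorem IsN.not_one {s : List Bool} (h : IsN s) : ¬∃ u t, s = ad u t 1 := by
  rintro ⟨u, t, rfl⟩
  obtain ⟨u', t', e, -⟩ := h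
  simpa using (ad_inj e).2.2

theorem not_isN_zero (x j : List Bool) : ¬IsN (ad x j 0) := fun ⟨_, _, h, _⟩ => by
  simpa using (ad_inj h).2.2

theorem IsN.row_le {s : List Bool} (h : IsN s) : (row s).length ^ 2 ≤ s.length := by
  obtain ⟨u, t, rfl, h⟩ := h
  rw [row_ad]
  simp only [ad, length_enc_pair, PolyT.Poly.enc_bools_length]
  omega

theorem IsN.row_le' {s : List Bool} (h : IsN s) : (row s).length ≤ s.length := by
  obtain ⟨u, t, rfl, -⟩ := h
  rw [row_ad]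
  exact le_length_ad u t 2

section
variable (mc : ℕ → OM) (nc : h31u.Enum) (θ : Lang) (ξ η : List Bool → Bool → Lang)

theorem orc2_base {s : List Bool} (h : ¬∃ u t, s = ad u t 1) (h' : ¬IsN s) :
    orc2 mc nc θ ξ η s = θ s := by
  rw [orc2, fix, if_neg h, if_neg h']

theorem orc2_row (x j : List Bool) : orc2 mc nc θ ξ η (ad x j 0) = θ (ad x j 0) :=
  orc2_base mc nc θ ξ η (fun ⟨_, _, h⟩ => by simpa using (ad_inj h).2.2) (not_isN_zero x j)

theorem orc2_one (u t : List Bool) :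
    orc2 mc nc θ ξ η (ad u t 1) = ξ u (ans mc u (orc2 mc nc θ ξ η)) t := by
  classical
  rw [orc2, fix, if_pos ⟨u, t, rfl⟩, row_ad, mid_ad]
  refine congrArg (fun b => ξ u b t) (ans_loc mc u fun v hv => if_pos ?_)
  have := le_length_ad u t 1
  omega

open Classical in
theorem orc2_two {s : List Bool} (h : IsN s) : orc2 mc nc θ ξ η s =
    η (row s) (!decide (h31u.yes nc (row s) (orc2 mc nc θ ξ η))) (mid s) := by
  rw [orc2, fix, if_neg h.not_one, if_pos h]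
  refine congrArg (fun b => η (row s) (!b) (mid s))
    (decide_eq_decide.2 (h31u.yes_congr nc _ fun v hv => if_pos ?_))
  have := h.row_le'
  omega

/-- The oracle is an oracle of the first part, with itself as background. -/
theorem orc2_eq : orc mc (orc2 mc nc θ ξ η) ξ = orc2 mc nc θ ξ η := by
  funext s
  induction hn : s.length using Nat.strong_induction_on generalizing s with
  | _ n ih =>
    by_cases hc : ∃ u t, s = ad u t 1
    · obtain ⟨u, t, rfl⟩ := hc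
      have h1 := le_length_ad u t 1
      rw [orc_code, orc2_one, ans_loc mc u fun v hv => ih _ (by omega) v rfl]
    · rw [orc_base _ _ _ hc]

open Classical in
theorem nor_eq (n T : ℕ) (Z : Lang) (s : List Bool) : nor nc n T η Z s =
    if IsN s ∧ n ≤ (row s).length ∧ (row s).length < T then
      η (row s) (!decide (h31u.yes nc (row s) (nor nc n T η Z))) (mid s) else Z s := by
  rw [nor, fix]
  split_ifs with h
  · refine congrArg (fun b => η (row s) (!b) (mid s))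
      (decide_eq_decide.2 (h31u.yes_congr nc _ fun v hv => if_pos ?_))
    have := h.1.row_le'
    omega
  · rfl

end

theorem Agr2.orc {l : ℕ} {θ θ' : Lang} {ξ η ξ' η' : List Bool → Bool → Lang}
    (h : Agr2 l θ ξ η θ' ξ' η') (mc : ℕ → OM) (nc : h31u.Enum) (s : List Bool)
    (hs : s.length < l) : orc2 mc nc θ ξ η s = orc2 mc nc θ' ξ' η' s := by
  classical
  induction hn : s.length using Nat.strong_induction_on generalizing s with
  | _ n ih =>
    by_cases hc : ∃ u t, s = ad u t 1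
    · obtain ⟨u, t, rfl⟩ := hc
      have h1 := le_length_ad u t 1
      rw [orc2_one, orc2_one, h.1.2 u (by omega),
        ans_loc mc u fun v hv => ih _ (by omega) v (by omega) rfl]
    · by_cases hd : IsN s
      · have h1 := hd.row_le'
        rw [orc2_two _ _ _ _ _ hd, orc2_two _ _ _ _ _ hd, h.2 _ (by omega), decide_eq_decide.2
          (h31u.yes_congr nc _ fun v hv => ih _ (by omega) v (by omega) rfl)]
      · rw [orc2_base _ _ _ _ _ hc hd, orc2_base _ _ _ _ _ hc hd, h.1.1 s hs]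

/-- Circuits are closed under substitution of literals and constants. -/
theorem ac_sub {V V' : Type} {w N : ℕ} (σ : (V' → Bool) → V → Bool)
    (hσ : ∀ v, DT 1 fun z => σ z v) :
    ∀ (k : ℕ) (F : Set ((V → Bool) → Bool)), AC w N k F → AC w N k ((· ∘ σ) '' F) := by
  classical
  have key : ∀ (d : ℕ) (f : (V → Bool) → Bool), DT d f → DT d (f ∘ σ) := fun d f hf =>
    ((hf.precomp σ (Q' := {g | DT 1 g}) (by rintro _ ⟨v, rfl⟩; exact hσ v)).comp (s := 1)
      fun g hg => hg).mono (by omega)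
  intro k
  induction k with
  | zero =>
    rintro F h _ ⟨f, hf, rfl⟩
    exact key _ _ (h f hf)
  | succ k ih =>
    rintro F ⟨G, h1, h2, h3⟩
    refine ⟨G.image (· ∘ σ), card_image_le.trans h1, by rw [coe_image]; exact ih _ h2, ?_⟩
    rintro _ ⟨f, hf, rfl⟩
    obtain ⟨H, a1, a2⟩ := h3 f hf
    refine ⟨(· ∘ σ) '' H, ?_, fun z => (a2 _).trans (by simp)⟩
    rintro _ ⟨u, hu, rfl⟩
    refine (a1 u hu).precomp σ ?_
    rintro q (hq | hq)
    · exact Or.inl (mem_coe.2 (mem_image_of_mem _ hq))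
    · exact Or.inr (key _ _ hq)

/-- The numbers of the marked tables: width `2 ^ A`, coins in `Fin (16 * 4 ^ A + 1)`. -/
def Num2Stmt : Prop :=
  ∀ n T A : ℕ, T ≤ 2 ^ A → n ≤ T → 16 * (A + 2) ≤ n →
    (54 * 2 ^ A * (16 * 4 ^ A + 2) * ((16 * 4 ^ A + 1) * 2 ^ A) ^ n : ℝ) ≤
      1 / (4 * 2 ^ A) * 2 ^ n ^ 2 ∧
    (2 ^ (T + 1) * ((2 * 4 ^ T ^ 2) ^ T * Real.exp (-(2 ^ n ^ 2 / (3 * (16 * 4 ^ A + 1))))) : ℝ)
      ≤ (1 / 2) ^ (T + 3) ∧
    (1 + 1 / (4 * 2 ^ A) : ℝ) ^ 2 ^ A - 1 ≤ 1 / 2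

/-- The marked tables of one stage are simulated by circuits with three more layers. -/
def LayerStmt : Prop :=
  ∀ (nc : h31u.Enum) (n T L a₀ a k H : ℕ) (ht : List Bool → ℕ) (f : Lang → Bool), T ≤ 2 ^ a₀ →
    T ≤ n ^ L → n ≤ T → (L + 3) ^ 3 * (a₀ + 2) ≤ a → 16 * (a + 2) ≤ n → 2 ^ a ≤ n ^ H →
    (∀ u, H ≤ ht u ∧ ht u ≤ T) →
    (∀ (V : Type) (σ : (V → Bool) → Lang), (∀ v, DT 1 fun z => σ z v) →
      AC T (2 ^ T) k {fun z => f (σ z)}) →
    ∃ (W : Type) (_ : Fintype W) (_ : Nonempty W) (η : W → List Bool → Bool → Lang)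
      (F bad : W → Lang → Bool),
      (∀ ω, AC (2 ^ a) (2 ^ 2 ^ a) (k + 3) {F ω} ∧ AC (2 ^ a) (2 ^ 2 ^ a) (k + 3) {bad ω}) ∧
      (∀ ω Z, bad ω Z = false → F ω Z = f (nor nc n T (η ω) Z)) ∧
      ∀ Z, hiSmall (fun ω => bad ω Z = true ∨ ∃ u : List Bool, n ≤ u.length ∧ u.length < T ∧
        ¬Okr2 (η ω u) (u.length ^ 2) (ht u)) ((1 / 2) ^ (T + 2))

/-- Valid marked tables exist, and they give `coNP` games with a prover in `NP`. -/
def NPStmt : Prop :=
  (∀ r, ∃ η, Ok2 r η) ∧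
  ∀ (r : ℕ → ℕ) (mc : ℕ → OM) (nc : h31u.Enum) (θ : Lang) (ξ η : List Bool → Bool → Lang),
    Filter.Tendsto r Filter.atTop Filter.atTop → Surjective nc → Ok2 r η →
    ∀ L ∈ RelNP (orc2 mc nc θ ξ η),
      (fun x => !L x) ∈ RelAMP r (orc2 mc nc θ ξ η) (RelNP (orc2 mc nc θ ξ η))

/-- One stage of the construction. -/
def Stage2Stmt : Prop :=
  ∀ (r : ℕ → ℕ) (mc : ℕ → OM) (nc : h31u.Enum) (V : Type) [Fintype V] [DecidableEq V]
    (f G : Lang → Bool) (x : List Bool) (e : V → List Bool) (k B L a₀ a H : ℕ), (∀ l, r l ≤ l) →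
    Injective e → (∀ A A' : Lang, (∀ v, v.length ≤ B → A v = A' v) → f A = f A') →
    (∀ (V' : Type) (σ : (V' → Bool) → Lang), (∀ v, DT 1 fun z => σ z v) →
      AC B (2 ^ B) k {fun z => f (σ z)}) →
    (∀ A A' : Lang, (∀ i, (ad x i 0).length ≤ B → A (ad x i 0) = A' (ad x i 0)) → G A = G A') →
    B + 1 < 2 ^ a₀ → B + 1 ≤ x.length ^ L → (L + 3) ^ 3 * (a₀ + 2) ≤ a → x.length ≤ B →
    Fintype.card V < 2 ^ ((k + 6) * x.length + 1) → (k + 6) * x.length + 1 ≤ B →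
    16 * ((k + 5) * (a + 2)) ≤ x.length → 2 ^ ((2 * k + 7) * a) ≤ x.length ^ H →
    (∀ l, x.length ≤ 2 ^ l → (k + 4) * H ≤ r l) →
    ∀ (θ : Lang) (ξ η : List Bool → Bool → Lang), Ok r ξ → Ok2 r η →
    (¬AC (2 ^ (a + 2)) (2 ^ (3 * 2 ^ a)) (k + 5)
      {fun z => G (extend (fun v => ad x (e v) 0) z θ)}) →
    ∃ θ' ξ' η', Ok r ξ' ∧ Ok2 r η' ∧ Agr2 x.length θ ξ η θ' ξ' η' ∧
      ∀ θ'' ξ'' η'', Agr2 (B + 1) θ' ξ' η' θ'' ξ'' η'' →
        f (orc2 mc nc θ'' ξ'' η'') ≠ G (orc2 mc nc θ'' ξ'' η'')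

/-- The theorem. -/
def Main2Stmt : Prop :=
  ∀ r : ℕ → ℕ, (∀ n, r n ≤ n) → Filter.Tendsto r Filter.atTop Filter.atTop →
    ∃ A : List Bool → Bool, RelPSPACE A ∪ RelRE A ⊆ RelAM r A ∧
      (∀ L ∈ RelNP A, (fun x => !L x) ∈ RelAMP r A (RelNP A)) ∧
      (∀ k, ∃ L ∈ RelSigma A (k + 1), L ∉ RelSigma A k) ∧
      ∃ L ∈ RelPSPACE A, ∀ k, L ∉ RelSigma A k

/-- The plan. -/
theorem main2_of (mixS : MixStmt) (data : MixStmt → DataStmt) (piece : PieceStmt)
    (gad : MixStmt → DataStmt → PieceStmt → Gad2Stmt) (kill : KillStmt)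
    (blk : KillStmt → BlkStmt) (wit : WitStmt) (cir : CirStmt) (val : Val2Stmt) (num : Num2Stmt)
    (layer : Gad2Stmt → BlkStmt → WitStmt → CirStmt → Val2Stmt → Num2Stmt → LayerStmt)
    (np : Val2Stmt → NPStmt) (stage : LayerStmt → Stage2Stmt)
    (final : Stage2Stmt → NPStmt → Main2Stmt) : Main2Stmt :=
  final (stage (layer (gad mixS (data mixS) piece) (blk kill) wit cir val num)) (np val)

end Pool.Agent.MP_a2d820_lc.h17
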