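import Pool.Agent.MP_a2d820_lc.h17.Spec2

/-!
Project IP, second part: one stage of the construction.
-/

set_option autoImplicit false

namespace Pool.Agent.MP_a2d820_lc.h17

open Pool.Agent.MP_a2d820_lc.h69 Pool.Agent.PolyT Pool.Agent.H82 N487b59b3 Function Finset

theorem sb_fib {X Y : Type} [Fintype X] [Fintype Y] {P : X × Y → Prop} {a : ℝ}
    (h : ∀ y, hiSmall (fun x => P (x, y)) a) : hiSmall P a := by
  classical
  intro B hB
  rw [card_eq_sum_card_fiberwise (f := Prod.snd) (s := B) (t := univ) fun _ _ => mem_univ _,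
    Nat.cast_sum, Fintype.card_prod, Nat.cast_mul, ← mul_assoc, mul_comm, ← nsmul_eq_mul]
  refine sum_le_card_nsmul _ _ _ fun y _ => ?_
  rw [← card_image_of_injOn (f := Prod.fst) fun p hp q hq e =>
    Prod.ext e ((mem_filter.1 hp).2.trans (mem_filter.1 hq).2.symm)]
  refine h y _ fun x hx => ?_
  obtain ⟨p, hp, rfl⟩ := mem_image.1 hx
  obtain ⟨h1, rfl⟩ := mem_filter.1 hp
  exact hB p h1

theorem sb_ac {V V' : Type} {w N k : ℕ} {F : (V → Bool) → Bool} (h : AC w N k {F})
    {σ : (V' → Bool) → V → Bool} (hσ : ∀ v, DT 1 fun z => σ z v) :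
    AC w N k {fun z => F (σ z)} := by
  have := ac_sub σ hσ k _ h
  rwa [Set.image_singleton] at this

theorem sb_orc (mc : ℕ → OM) (nc : h31u.Enum) {n T : ℕ} {V : Type} {x : List Bool}
    {e : V → List Bool} (he : Injective e) (z : V → Bool) {θ : Lang}
    {ξ η ξ' η' X Y : List Bool → Bool → Lang}
    (h : Agr2 n θ ξ η (extend (fun v => ad x (e v) 0) z θ) ξ' η')
    (hX : ∀ u : List Bool, n ≤ u.length → u.length < T → ξ' u = X u)
    (hY : ∀ u : List Bool, n ≤ u.length → u.length < T → η' u = Y u)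
    (s : List Bool) (hs : s.length < T) :
    orc2 mc nc (extend (fun v => ad x (e v) 0) z θ) ξ' η' s =
      nor nc n T Y (st_psi n (orc2 mc nc θ ξ η)
        (extend (fun v => ad x (e v) 0) z (orc2 mc nc θ ξ η))
        fun u => X u (ans mc u (orc2 mc nc (extend (fun v => ad x (e v) 0) z θ) ξ' η'))) s := by
  classical
  have hbp : Injective fun v => ad x (e v) 0 := fun v v' h => he (ad_inj h).2.1
  induction hn : s.length using Nat.strong_induction_on generalizing s with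
  | _ l ih =>
    rw [nor_eq]
    split_ifs with c
    · have h1 := c.1.row_le'
      rw [orc2_two _ _ _ _ _ c.1, hY _ c.2.1 c.2.2, decide_eq_decide.2
        (h31u.yes_congr nc _ fun v hv => ih _ (by omega) v (by omega) rfl)]
    unfold st_psi
    by_cases c1 : ∃ u t, s = ad u t 1
    · rw [if_pos c1]
      obtain ⟨u, t, rfl⟩ := c1
      have h1 := le_length_ad u t 1
      rw [row_ad, mid_ad, orc2_one]
      by_cases c2 : n ≤ u.length
      · rw [if_pos c2, hX u c2 (by omega)]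
      · rw [if_neg c2, orc2_one, h.1.2 u (by omega),
          ans_loc mc u fun v hv => h.orc mc nc v (by omega)]
    rw [if_neg c1]
    by_cases c2 : IsN s
    · have h1 := c2.row_le'
      have h2 : (row s).length < n := not_le.1 fun k => c ⟨c2, k, by omega⟩
      rw [extend_apply' _ _ _ fun ⟨v, k⟩ => not_isN_zero x (e v) (by rwa [← k] at c2),
        orc2_two _ _ _ _ _ c2, orc2_two _ _ _ _ _ c2, h.2 _ h2, decide_eq_decide.2
          (h31u.yes_congr nc _ fun v hv => h.orc mc nc v (by omega))]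
    rw [orc2_base _ _ _ _ _ c1 c2]
    by_cases c3 : ∃ v, ad x (e v) 0 = s
    · obtain ⟨v, rfl⟩ := c3
      exact (hbp.extend_apply _ _ v).trans (hbp.extend_apply _ _ v).symm
    · rw [extend_apply' _ _ _ c3, extend_apply' _ _ _ c3, orc2_base _ _ _ _ _ c1 c2]

theorem sb_num {k n c b W B : ℕ} (hk : 32 * (k + 4) ≤ n) (hc : c < 2 ^ ((k + 6) * n + 1))
    (hB : (k + 6) * n + 1 ≤ B)
    (hb : (b : ℝ) ≤ (2 * ((k + 3 : ℕ) + 1) * (1 / 2) ^ ((k + 3 + 6) * n) +
      2 * ((k + 3 : ℕ) + 1) * (1 / 2) ^ ((k + 3 + 6) * n) + (1 / 2) ^ (B + 1 + 2)) * W) :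
    b * (4 * (c + 1)) ≤ W := by
  have h1 : 32 * (k + 4) * (c + 1) ≤ 2 ^ ((k + 3 + 6) * n) := by
    have h2 : n < 2 ^ n := Nat.lt_two_pow_self
    have h3 : 2 ^ (n + 1) ≤ 2 ^ (3 * n) := Nat.pow_le_pow_right two_pos (by omega)
    rw [show (k + 3 + 6) * n = 3 * n + (k + 6) * n by ring, pow_add]
    rw [pow_succ] at hc h3
    calc 32 * (k + 4) * (c + 1) ≤ 32 * (k + 4) * (2 ^ ((k + 6) * n) * 2) :=
          Nat.mul_le_mul_left _ hc
      _ = 32 * (k + 4) * 2 * 2 ^ ((k + 6) * n) := by ring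
      _ ≤ _ := Nat.mul_le_mul_right _ (by omega)
  have h2 : (32 * (k + 4) * (c + 1) : ℝ) ≤ 2 ^ ((k + 3 + 6) * n) := by exact_mod_cast h1
  have h4 : (32 * (k + 4) * (c + 1) : ℝ) * (1 / 2) ^ ((k + 3 + 6) * n) ≤ 1 := by
    rw [one_div, inv_pow, ← div_eq_mul_inv, div_le_one (by positivity)]
    exact h2
  have h6 : (c + 1 : ℝ) ≤ 2 ^ B := by
    exact_mod_cast (Nat.succ_le_of_lt hc).trans (Nat.pow_le_pow_right two_pos hB)
  have h7 : (c + 1 : ℝ) * (1 / 2) ^ B ≤ 1 := by
    rw [one_div, inv_pow, ← div_eq_mul_inv, div_le_one (by positivity)]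
    exact h6
  have h5 : (b * (4 * (c + 1)) : ℝ) ≤ W :=
    calc (b * (4 * (c + 1)) : ℝ) ≤ _ := mul_le_mul_of_nonneg_right hb (by positivity)
      _ = (32 * (k + 4) * (c + 1) * (1 / 2) ^ ((k + 3 + 6) * n) / 2 +
          (c + 1) * (1 / 2) ^ B / 2) * W := by
          push_cast
          ring
      _ ≤ 1 * W := mul_le_mul_of_nonneg_right (by linarith) (by positivity)
      _ = W := one_mul _
  exact_mod_cast h5

theorem stage2S (h1 : LayerStmt) : Stage2Stmt := by
  intro r mc nc V _ _ f G x e k B L a₀ a H hr he hloc hAC hG hB hL ha hx hV hkB hn hH hrH θ ξ η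
    hok hok2 hard
  classical
  set n := x.length with hnx
  have p2 : ∀ {b c : ℕ}, b ≤ c → 2 ^ b ≤ 2 ^ c := fun h => Nat.pow_le_pow_right two_pos h
  have hk : 32 * (k + 4) ≤ n := le_trans (by nlinarith [Nat.zero_le (k * a)]) hn
  have haa : a₀ + 2 ≤ a := le_trans (Nat.le_mul_of_pos_left _ (by positivity)) ha
  have hBa : B + 1 < 2 ^ a := hB.trans_le (p2 (by omega))
  have hc : (k + 3 + 1) * H ≤ B + 1 :=
    ((hrH n Nat.lt_two_pow_self.le).trans (hr n)).trans (by omega)
  obtain ⟨ht, ht1, ht2⟩ := st_ht r ((k + 3 + 1) * H) (B + 1) hc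
  have h4 : 2 ^ a ≤ 2 ^ ((2 * k + 7) * a) := p2 (by nlinarith [Nat.zero_le (k * a)])
  have hH1 : 1 ≤ H := by
    rcases Nat.eq_zero_or_pos H with rfl | h
    · rw [pow_zero] at hH
      omega
    · exact h
  have hw : (2 ^ a * 2 ^ a) ^ (k + 3) * 2 ^ a < (n + 1) ^ H := by
    rw [← pow_add, ← pow_mul, ← pow_add, show (a + a) * (k + 3) + a = (2 * k + 7) * a by ring]
    exact hH.trans_lt (Nat.pow_lt_pow_left (by omega) (by omega))
  have hα : ((1 : ℝ) / 2) ^ ((k + 3 + 6) * n) ≤ 1 / 2 :=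
    pow_le_of_le_one (by norm_num) (by norm_num) (Nat.mul_ne_zero (by omega) (by omega))
  obtain ⟨n1, n2⟩ := numS n (B + 1) (k + 3) a hBa.le (by omega) hn
  obtain ⟨W, _, _, X, hide⟩ := hideS (gadS hallS) (swS hallS) rndS gdS valS n (B + 1) (k + 3) H
    (2 ^ a) (2 ^ a) (2 ^ 2 ^ a) n ht ((1 / 2) ^ ((k + 3 + 6) * n)) Nat.one_le_two_pow
    Nat.one_le_two_pow Nat.one_le_two_pow le_rfl hH1 hw hα (by exact_mod_cast n1) n2 ht1
  obtain ⟨W', _, _, Y, F, bad, l1, l2, l3⟩ := h1 nc n (B + 1) L a₀ a k H (fun u => ht (true :: u))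
    f hB.le hL (by omega) ha (le_trans (by nlinarith [Nat.zero_le (k * a)]) hn) (h4.trans hH)
    (fun u => ⟨le_trans (Nat.le_mul_of_pos_left _ (by omega)) (ht1 _).1, (ht1 _).2⟩)
    fun V' σ hσ => h31u.ac_up (hAC V' σ hσ) (by omega) (p2 (by omega))
  let bp : V → List Bool := fun v => ad x (e v) 0
  have hbp : Injective bp := fun v v' h => he (ad_inj h).2.1
  let ξw : W → List Bool → Bool → Lang := fun ω u =>
    if n ≤ u.length ∧ u.length < B + 1 then X ω u else ξ u
  let ηw : W' → List Bool → Bool → Lang := fun ω u =>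
    if n ≤ u.length ∧ u.length < B + 1 then Y ω u else η u
  have hag : ∀ z ω ω', Agr2 n θ ξ η (extend bp z θ) (ξw ω) (ηw ω') := fun z ω ω' =>
    ⟨⟨fun s hs => (extend_apply' _ _ _ fun ⟨v, h⟩ => by
      have := le_length_ad x (e v) 0
      rw [← h] at hs
      exact absurd hs (not_lt.2 this)).symm, fun u hu => by
        simp only [ξw, if_neg (show ¬(n ≤ u.length ∧ u.length < B + 1) by omega)]⟩,
      fun u hu => by simp only [ηw, if_neg (show ¬(n ≤ u.length ∧ u.length < B + 1) by omega)]⟩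
  let Z : (V → Bool) → (List Bool → Lang) → Lang := fun z =>
    st_psi n (orc2 mc nc θ ξ η) (extend bp z (orc2 mc nc θ ξ η))
  have hf : ∀ z ω ω', f (orc2 mc nc (extend bp z θ) (ξw ω) (ηw ω')) = f (nor nc n (B + 1) (Y ω')
      (Z z fun u => X ω u (ans mc u (orc2 mc nc (extend bp z θ) (ξw ω) (ηw ω'))))) :=
    fun z ω ω' => hloc _ _ fun s hs => sb_orc mc nc (T := B + 1) he z (hag z ω ω')
      (fun u c1 c2 => if_pos ⟨c1, c2⟩) (fun u c1 c2 => if_pos ⟨c1, c2⟩) s (by omega)
  obtain ⟨z, ω, ω', hω, hω', hz⟩ : ∃ z ω ω', (∀ u : List Bool, n ≤ u.length → u.length < B + 1 →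
      Okr (X ω u) (u.length ^ 2) (ht u)) ∧ (∀ u : List Bool, n ≤ u.length → u.length < B + 1 →
      Okr2 (Y ω' u) (u.length ^ 2) (ht (true :: u))) ∧
      f (orc2 mc nc (extend bp z θ) (ξw ω) (ηw ω')) ≠ G (extend bp z θ) := by
    by_contra hcon
    push Not at hcon
    refine hard (h31u.ac_up (ampS V (W × W') (fun ω z => F ω.2 (Z z fun u => X ω.1 u false))
      (fun z => G (extend bp z θ)) (2 ^ a) (2 ^ 2 ^ a) (k + 3) Nat.one_le_two_pow
      Nat.one_le_two_pow (fun ω => sb_ac (l1 ω.2).1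
        (st_dt n _ _ _ (st_ext hbp _) fun u t => DTq.const 1 _)) fun z => ?_) (p2 (by omega)) ?_)
    · have key : ∀ Φ : W' → Lang → Bool, (∀ ω', AC (2 ^ a) (2 ^ 2 ^ a) (k + 3) {Φ ω'}) →
          hiSmall (fun ω : W × W' => (∃ u : List Bool, n ≤ u.length ∧ u.length < B + 1 ∧
            ¬Okr (X ω.1 u) (u.length ^ 2) (ht u)) ∨ ∃ β : List Bool → Bool,
            Φ ω.2 (Z z fun u => X ω.1 u (β u)) ≠ Φ ω.2 (Z z fun u => X ω.1 u false))
            (2 * ((k + 3 : ℕ) + 1) * (1 / 2) ^ ((k + 3 + 6) * n)) := fun Φ hΦ =>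
        sb_fib fun ω' => hide (fun tb => Φ ω' (Z z tb)) fun V' σ hσ =>
          sb_ac (hΦ ω') (st_dt n _ _ _ (fun s => DTq.const 1 _) hσ)
      have k3 := hi_equiv (Equiv.prodComm W W') (sb_fib (X := W') (Y := W)
        (P := fun ω => bad ω.1 (Z z fun u => X ω.2 u false) = true ∨ ∃ u : List Bool,
          n ≤ u.length ∧ u.length < B + 1 ∧ ¬Okr2 (Y ω.1 u) (u.length ^ 2) (ht (true :: u)))
        fun ω => l3 (Z z fun u => X ω u false))
      refine sb_num hk hV hkB (hi_or (hi_or (key F fun ω => (l1 ω).1) (key bad fun ω => (l1 ω).2))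
        k3 _ fun ω hω => ?_)
      by_contra k
      simp only [not_or, not_exists, not_and, not_not, Equiv.prodComm_apply, Prod.fst_swap,
        Prod.snd_swap, Bool.not_eq_true] at k
      obtain ⟨⟨⟨k1, k2⟩, -, k4⟩, k5, k6⟩ := k
      exact (mem_filter.1 hω).2 ((k2 _).symm.trans ((l2 _ _ ((k4 _).trans k5)).trans
        ((hf z ω.1 ω.2).symm.trans (hcon z ω.1 ω.2 k1 k6))))
    · have h5 : Fintype.card V + 1 ≤ 2 ^ B := (Nat.succ_le_of_lt hV).trans (p2 hkB)
      refine (Nat.mul_le_mul_right _ (Nat.pow_le_pow_left h5 2)).trans ?_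
      rw [← pow_mul, ← pow_add]
      exact p2 (by omega)
  refine ⟨_, _, _, fun i y y' u hu hl => ?_, fun i y y' u hu hl => ?_, hag z ω ω',
    fun θ'' ξ'' η'' h => ?_⟩
  · by_cases c : n ≤ u.length ∧ u.length < B + 1
    · have h5 : y.length ≤ u.length := by
        rw [hu]
        simp only [List.length_cons, length_enc_pair, PolyT.Poly.enc_bools_length]
        omega
      have h6 := hω u c.1 c.2
      have h7 := hr y.length
      rw [show ht u = r y.length from hu ▸ ht2 i y y' (hrH _ (c.1.trans hl)) (by omega)] at h6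
      simpa only [ξw, if_pos c] using h6
    · simpa only [ξw, if_neg c] using hok i y y' u hu hl
  · by_cases c : n ≤ u.length ∧ u.length < B + 1
    · have h5 : y.length ≤ u.length := by
        rw [hu]
        simp only [length_enc_pair, PolyT.Poly.enc_bools_length]
        omega
      have h6 := hω' u c.1 c.2
      have h7 := hr y.length
      rw [show ht (true :: u) = r y.length from
        hu ▸ ht2 i y y' (hrH _ (c.1.trans hl)) (by omega)] at h6
      simpa only [ηw, if_pos c] using h6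
    · simpa only [ηw, if_neg c] using hok2 i y y' u hu hl
  · rwa [← hloc _ _ fun v hv => h.orc mc nc v (by omega), ← hG (extend bp z θ) _ fun i hi =>
      (orc2_row mc nc _ _ _ x i).symm.trans (h.orc mc nc _ (by omega))]

end Pool.Agent.MP_a2d820_lc.h17
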